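import Mathlib

/-!
# Elementary bar complexes

`T n V M` is the group of the `M`-valued chains on the `n`-tuples of elements of `V`.
-/

set_option autoImplicit false

namespace Pool.Agent.H752.CE

open Finsupp

/-- chains on `n`-tuples -/
abbrev T (n : ℕ) (V M : Type) [AddCommGroup M] : Type := (Fin n → V) →₀ M

section basic

variable {V W U M M' M'' : Type} [AddCommGroup M] [AddCommGroup M'] [AddCommGroup M'']

noncomputable def cns {n : ℕ} (a : V) : T n V M →+ T (n + 1) V M :=
  Finsupp.mapDomain.addMonoidHom (Fin.cons (α := fun _ => V) a)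

@[simp] lemma cns_single {n : ℕ} (a : V) (x : Fin n → V) (m : M) :
    cns a (single x m) = single (Fin.cons (α := fun _ => V) a x) m := by
  simp [cns, Finsupp.mapDomain_single]

lemma hom_ext_cns {n : ℕ} {B : Type} [AddCommGroup B] {f g : T (n + 1) V M →+ B}
    (h : ∀ a (y : T n V M), f (cns a y) = g (cns a y)) : f = g := by
  refine Finsupp.addHom_ext fun x m => ?_
  have := h (x 0) (single (Fin.tail x) m)
  rw [cns_single, Fin.cons_self_tail] at this
  exact this

noncomputable def map {n : ℕ} (f : V → W) (c : M →+ M') : T n V M →+ T n W M' :=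
  Finsupp.liftAddHom fun x => (singleAddHom (f ∘ x)).comp c

@[simp] lemma map_single {n : ℕ} (f : V → W) (c : M →+ M') (x : Fin n → V) (m : M) :
    map f c (single x m) = single (f ∘ x) (c m) := by
  simp [map]

lemma comp_cons {n : ℕ} (f : V → W) (a : V) (x : Fin n → V) :
    f ∘ (Fin.cons (α := fun _ => V) a x) = Fin.cons (α := fun _ => W) (f a) (f ∘ x) := by
  funext i
  refine Fin.cases ?_ (fun j => ?_) i <;> simp

@[simp] lemma map_cns {n : ℕ} (f : V → W) (c : M →+ M') (a : V) (y : T n V M) :
    map f c (cns a y) = cns (f a) (map f c y) := by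
  induction y using Finsupp.induction_linear with
  | zero => simp
  | add y z hy hz => simp only [map_add, hy, hz]
  | single x m => simp [comp_cons]

lemma map_map {n : ℕ} (f : V → W) (g : W → U) (c : M →+ M') (c' : M' →+ M'') (y : T n V M) :
    map g c' (map f c y) = map (g ∘ f) (c'.comp c) y := by
  induction y using Finsupp.induction_linear with
  | zero => simp
  | add y z hy hz => simp only [map_add, hy, hz]
  | single x m => simp [Function.comp_assoc]

lemma map_id' {n : ℕ} (y : T n V M) : map id (AddMonoidHom.id M) y = y := by
  induction y using Finsupp.induction_linear with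
  | zero => simp
  | add y z hy hz => simp only [map_add, hy, hz]
  | single x m => simp

lemma map_zero_deg (f g : V → W) (c : M →+ M') (y : T 0 V M) : map f c y = map g c y := by
  induction y using Finsupp.induction_linear with
  | zero => simp
  | add y z hy hz => simp only [map_add, hy, hz]
  | single x m =>
    simp only [map_single]
    congr 1
    exact Subsingleton.elim _ _

lemma map_injective {n : ℕ} {f : V → W} {c : M →+ M'} (hf : Function.Injective f)
    (hc : Function.Injective c) : Function.Injective (map (n := n) f c) := by
  have key : ∀ y : T n V M, map f c y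
      = Finsupp.mapDomain (fun x => f ∘ x) (Finsupp.mapRange c c.map_zero y) := by
    intro y
    induction y using Finsupp.induction_linear with
    | zero => simp
    | add y z hy hz =>
      rw [map_add, hy, hz, Finsupp.mapRange_add (fun a b => c.map_add a b),
        Finsupp.mapDomain_add]
    | single x m => simp [Finsupp.mapDomain_single]
  intro y z h
  rw [key, key] at h
  have h1 := Finsupp.mapDomain_injective (fun a b hab => by
    funext i
    exact hf (congrFun hab i)) h
  exact Finsupp.mapRange_injective c c.map_zero hc h1

/-- the boundary of homogeneous chains (augmented) -/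
noncomputable def bd : (n : ℕ) → T (n + 1) V M →+ T n V M
  | 0 => Finsupp.liftAddHom fun x => singleAddHom (Fin.tail x)
  | n + 1 => Finsupp.liftAddHom fun x => singleAddHom (Fin.tail x) -
      (cns (x 0)).comp ((bd n).comp (singleAddHom (Fin.tail x)))

@[simp] lemma bd_zero_cns (a : V) (y : T 0 V M) : bd 0 (cns a y) = y := by
  induction y using Finsupp.induction_linear with
  | zero => simp
  | add y z hy hz => simp only [map_add, hy, hz]
  | single x m => simp [bd]

@[simp] lemma bd_succ_cns {n : ℕ} (a : V) (y : T (n + 1) V M) :
    bd (n + 1) (cns a y) = y - cns a (bd n y) := by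
  induction y using Finsupp.induction_linear with
  | zero => simp
  | add y z hy hz => simp only [map_add, hy, hz]; abel
  | single x m => simp [bd]

lemma bd_bd {n : ℕ} (y : T (n + 2) V M) : bd n (bd (n + 1) y) = 0 := by
  suffices h : (bd n).comp (bd (V := V) (M := M) (n + 1)) = 0 from DFunLike.congr_fun h y
  clear y
  induction n with
  | zero =>
    refine hom_ext_cns fun a y => ?_
    have h : ((bd 0).comp (bd (V := V) (M := M) 1)).comp (cns a) = 0 := by
      refine hom_ext_cns fun b z => ?_
      simp
    exact DFunLike.congr_fun h y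
  | succ n ih =>
    refine hom_ext_cns fun a y => ?_
    have := DFunLike.congr_fun ih y
    simp only [AddMonoidHom.coe_comp, Function.comp_apply, AddMonoidHom.zero_apply] at this
    simp [this]

lemma bd_map {n : ℕ} (f : V → W) (c : M →+ M') (y : T (n + 1) V M) :
    bd n (map f c y) = map f c (bd n y) := by
  suffices h : (bd n).comp (map f c) = (map f c).comp (bd n) from DFunLike.congr_fun h y
  clear y
  induction n with
  | zero =>
    refine hom_ext_cns fun a y => ?_
    simp
  | succ n ih =>
    refine hom_ext_cns fun a y => ?_
    have := DFunLike.congr_fun ih y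
    simp only [AddMonoidHom.coe_comp, Function.comp_apply] at this
    simp [this]

/-- the prism operator -/
noncomputable def prism (φ ψ : V → W) : (n : ℕ) → T n V M →+ T (n + 1) W M
  | 0 => 0
  | n + 1 => Finsupp.liftAddHom fun x =>
      (cns (φ (x 0))).comp ((cns (ψ (x 0))).comp ((map ψ (AddMonoidHom.id M)).comp
        (singleAddHom (Fin.tail x)))) -
      (cns (φ (x 0))).comp ((prism φ ψ n).comp (singleAddHom (Fin.tail x)))

@[simp] lemma prism_zero (φ ψ : V → W) (y : T 0 V M) : prism φ ψ 0 y = 0 := rfl

@[simp] lemma prism_succ_cns (φ ψ : V → W) {n : ℕ} (a : V) (y : T n V M) :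
    prism φ ψ (n + 1) (cns a y) =
      cns (φ a) (cns (ψ a) (map ψ (AddMonoidHom.id M) y)) - cns (φ a) (prism φ ψ n y) := by
  induction y using Finsupp.induction_linear with
  | zero => simp
  | add y z hy hz => simp only [map_add, hy, hz]; abel
  | single x m => simp [prism]

lemma prism_homotopy (φ ψ : V → W) {n : ℕ} (y : T (n + 1) V M) :
    bd (n + 1) (prism φ ψ (n + 1) y) + prism φ ψ n (bd n y)
      = map ψ (AddMonoidHom.id M) y - map φ (AddMonoidHom.id M) y := by
  suffices h : (bd (n + 1)).comp (prism φ ψ (n + 1)) + (prism φ ψ n).comp (bd n)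
      = map ψ (AddMonoidHom.id M) - map φ (AddMonoidHom.id M) from DFunLike.congr_fun h y
  clear y
  induction n with
  | zero =>
    refine hom_ext_cns fun a y => ?_
    simp [map_zero_deg φ ψ]
  | succ n ih =>
    refine hom_ext_cns fun a y => ?_
    have := DFunLike.congr_fun ih y
    simp only [AddMonoidHom.add_apply, AddMonoidHom.coe_comp, Function.comp_apply,
      AddMonoidHom.sub_apply] at this
    have h2 : bd (n + 1) (prism φ ψ (n + 1) y)
        = map ψ (AddMonoidHom.id M) y - map φ (AddMonoidHom.id M) y - prism φ ψ n (bd n y) := by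
      rw [← this]; abel
    simp only [AddMonoidHom.add_apply, AddMonoidHom.coe_comp, Function.comp_apply,
      AddMonoidHom.sub_apply, prism_succ_cns, map_sub, bd_succ_cns, h2, bd_map, map_cns]
    abel

lemma map_prism {V' W' : Type} (φ ψ : V → W) (φ' ψ' : V' → W') (f : V → V') (g : W → W')
    (c : M →+ M')
    (h1 : ∀ v, g (φ v) = φ' (f v)) (h2 : ∀ v, g (ψ v) = ψ' (f v)) {n : ℕ} (y : T n V M) :
    map g c (prism φ ψ n y) = prism φ' ψ' n (map f c y) := by
  suffices h : (map g c).comp (prism φ ψ n) = (prism φ' ψ' n).comp (map f c) from
    DFunLike.congr_fun h y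
  clear y
  induction n with
  | zero =>
    ext
    simp
  | succ n ih =>
    refine hom_ext_cns fun a y => ?_
    have := DFunLike.congr_fun ih y
    simp only [AddMonoidHom.coe_comp, Function.comp_apply] at this
    simp only [AddMonoidHom.coe_comp, Function.comp_apply, prism_succ_cns, map_sub, map_cns,
      this, h1, h2, map_map]
    have e1 : g ∘ ψ = ψ' ∘ f := funext h2
    rw [e1]
    rfl

end basic

end Pool.Agent.H752.CE
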