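import Pool.Agent.H752.CE.Defs

/-!
# Maps into the nerve of a group and cocycles
-/

set_option autoImplicit false

namespace Pool.Agent.H752.CE

open CategoryTheory Simplicial Opposite MonoidalCategory

section

variable {G : Type} [Group G]

/-- the arrow of a simplex of the nerve -/
def arr {n : ℕ} (s : ComposableArrows (SingleObj G) n) (i j : Fin (n + 1)) (h : i ≤ j) : G :=
  s.map (homOfLE h)

lemma arr_comp {n : ℕ} (s : ComposableArrows (SingleObj G) n) (i j k : Fin (n + 1)) (h : i ≤ j)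
    (h' : j ≤ k) : arr s i k (h.trans h') = arr s j k h' * arr s i j h := by
  have := s.map_comp (homOfLE h) (homOfLE h')
  exact this

lemma arr_self {n : ℕ} (s : ComposableArrows (SingleObj G) n) (i : Fin (n + 1)) :
    arr s i i le_rfl = 1 := s.map_id i

lemma simplex_ext {n : ℕ} {s t : ComposableArrows (SingleObj G) n}
    (h : ∀ i j (hij : i ≤ j), arr s i j hij = arr t i j hij) : s = t := by
  refine CategoryTheory.Functor.hext (fun i => rfl) ?_
  intro i j f
  exact heq_of_eq (h i j (leOfHom f))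

def mkSimplex {n : ℕ} (a : ∀ i j : Fin (n + 1), i ≤ j → G) (h1 : ∀ i, a i i le_rfl = 1)
    (h2 : ∀ i j k (h : i ≤ j) (h' : j ≤ k), a i k (h.trans h') = a j k h' * a i j h) :
    ComposableArrows (SingleObj G) n where
  obj _ := SingleObj.star G
  map {i j} f := a i j (leOfHom f)
  map_id i := h1 i
  map_comp {i j k} _ _ := h2 i j k _ _

lemma arr_mk {n : ℕ} (a : ∀ i j : Fin (n + 1), i ≤ j → G) (h1 : ∀ i, a i i le_rfl = 1)
    (h2 : ∀ i j k (h : i ≤ j) (h' : j ≤ k), a i k (h.trans h') = a j k h' * a i j h)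
    (i j : Fin (n + 1)) (h : i ≤ j) : arr (mkSimplex a h1 h2) i j h = a i j h := rfl

lemma arr_map {n m : ℕ} (θ : ⦋m⦌ ⟶ ⦋n⦌) (s : (BB G) _⦋n⦌) (i j : Fin (m + 1)) (h : i ≤ j) :
    arr (n := m) ((BB G).map θ.op s) i j h
      = arr (n := n) s (θ.toOrderHom i) (θ.toOrderHom j) (θ.toOrderHom.monotone h) := rfl

variable {A B : SSet.{0}}

/-- `1`-cocycles -/
def IsCoc (A : SSet.{0}) (c : A _⦋1⦌ → G) : Prop :=
  ∀ σ : A _⦋2⦌, c (A.δ 1 σ) = c (A.δ 0 σ) * c (A.δ 2 σ)

/-- the edge `i ≤ j` of a simplex -/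
def edg {n : ℕ} (σ : A _⦋n⦌) (i j : Fin (n + 1)) (h : i ≤ j) : A _⦋1⦌ :=
  A.map (SimplexCategory.mkOfLe i j h).op σ

lemma edg_map {n m : ℕ} (θ : ⦋m⦌ ⟶ ⦋n⦌) (σ : A _⦋n⦌) (i j : Fin (m + 1)) (h : i ≤ j) :
    edg (A.map θ.op σ) i j h
      = edg σ (θ.toOrderHom i) (θ.toOrderHom j) (θ.toOrderHom.monotone h) := by
  unfold edg
  have : SimplexCategory.mkOfLe i j h ≫ θ
      = SimplexCategory.mkOfLe (θ.toOrderHom i) (θ.toOrderHom j) (θ.toOrderHom.monotone h) := by
    ext k
    fin_cases k <;> rfl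
  rw [← this, op_comp, Functor.map_comp]
  rfl

lemma edg_naturality (f : A ⟶ B) {n : ℕ} (σ : A _⦋n⦌) (i j : Fin (n + 1)) (h : i ≤ j) :
    edg (f.app _ σ) i j h = f.app _ (edg σ i j h) := by
  unfold edg
  exact (ConcreteCategory.congr_hom (f.naturality (SimplexCategory.mkOfLe i j h).op) σ).symm

lemma edg_one (e : A _⦋1⦌) : edg e 0 1 (by simp) = e := by
  unfold edg
  have : SimplexCategory.mkOfLe (n := 1) 0 1 (by simp) = 𝟙 _ := by
    ext k
    fin_cases k <;> rfl
  rw [this]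
  simp

lemma IsCoc.comp {c : A _⦋1⦌ → G} (hc : IsCoc A c) {n : ℕ} (σ : A _⦋n⦌) (i j k : Fin (n + 1))
    (h : i ≤ j) (h' : j ≤ k) :
    c (edg σ i k (h.trans h')) = c (edg σ j k h') * c (edg σ i j h) := by
  have h0 := hc (A.map (SimplexCategory.mkOfLeComp i j k h h').op σ)
  have e : ∀ (l : Fin 3) (a b : Fin (n + 1)) (hab : a ≤ b)
      (_ : SimplexCategory.δ l ≫ SimplexCategory.mkOfLeComp i j k h h'
        = SimplexCategory.mkOfLe a b hab),
      A.δ l (A.map (SimplexCategory.mkOfLeComp i j k h h').op σ) = edg σ a b hab := by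
    intro l a b hab hl
    unfold edg
    rw [← hl, op_comp, Functor.map_comp]
    rfl
  rw [e 1 i k (h.trans h') (by ext x; fin_cases x <;> rfl),
    e 0 j k h' (by ext x; fin_cases x <;> rfl),
    e 2 i j h (by ext x; fin_cases x <;> rfl)] at h0
  exact h0

lemma IsCoc.self {c : A _⦋1⦌ → G} (hc : IsCoc A c) {n : ℕ} (σ : A _⦋n⦌) (i : Fin (n + 1)) :
    c (edg σ i i le_rfl) = 1 := by
  have := hc.comp σ i i i le_rfl le_rfl
  exact left_eq_mul.1 this

/-- the map defined by a cocycle -/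
def ofCoc (c : A _⦋1⦌ → G) (hc : IsCoc A c) : A ⟶ BB G where
  app n := ↾ fun σ => mkSimplex (n := n.unop.len) (fun i j h => c (edg σ i j h))
    (fun i => hc.self σ i) (fun i j k h h' => hc.comp σ i j k h h')
  naturality := by
    intro n m θ
    ext σ
    refine simplex_ext (n := m.unop.len) fun i j h => ?_
    show c (edg (A.map θ σ) i j h) = c (edg σ _ _ _)
    exact congrArg c (edg_map (n := n.unop.len) (m := m.unop.len) θ.unop σ i j h)

/-- the value of a map on an edge -/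
def cval (g : A ⟶ BB G) (e : A _⦋1⦌) : G := arr (n := 1) (g.app _ e) 0 1 (by simp)

lemma arr_app (g : A ⟶ BB G) {n : ℕ} (σ : A _⦋n⦌) (i j : Fin (n + 1)) (h : i ≤ j) :
    arr (n := n) (g.app _ σ) i j h = cval g (edg σ i j h) := by
  unfold cval
  rw [← edg_naturality g σ i j h]
  rfl

lemma cval_coc (g : A ⟶ BB G) : IsCoc A (cval g) := by
  intro σ
  have h := arr_comp (n := 2) (g.app _ σ) 0 1 2 (by simp) (by simp)
  rw [arr_app, arr_app, arr_app] at h
  have e : ∀ (l : Fin 3) (a b : Fin (2 + 1)) (hab : a ≤ b)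
      (_ : SimplexCategory.δ l = SimplexCategory.mkOfLe a b hab),
      A.δ l σ = edg σ a b hab := by
    intro l a b hab hl
    unfold edg
    rw [← hl]
    rfl
  rw [e 1 0 2 (by simp) (by ext x; fin_cases x <;> rfl),
    e 0 1 2 (by simp) (by ext x; fin_cases x <;> rfl),
    e 2 0 1 (by simp) (by ext x; fin_cases x <;> rfl)]
  exact h

lemma hom_ext_cval {g g' : A ⟶ BB G} (h : ∀ e, cval g e = cval g' e) : g = g' := by
  ext n σ
  refine simplex_ext (n := n.unop.len) fun i j hij => ?_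
  have h1 := arr_app (n := n.unop.len) g σ i j hij
  have h2 := arr_app (n := n.unop.len) g' σ i j hij
  exact h1.trans ((h _).trans h2.symm)

lemma cval_ofCoc (c : A _⦋1⦌ → G) (hc : IsCoc A c) (e : A _⦋1⦌) : cval (ofCoc c hc) e = c e := by
  show c (edg e 0 1 _) = c e
  rw [edg_one]

lemma cval_comp (f : A ⟶ B) (g : B ⟶ BB G) (e : A _⦋1⦌) :
    cval (f ≫ g) e = cval g (f.app _ e) := rfl

end

end Pool.Agent.H752.CE
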