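import Mathlib

/-!
# Isomorphisms in homology, elementwise
-/

set_option autoImplicit false

namespace Pool.Agent.H752.CE

open CategoryTheory Simplicial Opposite Limits

section complexes

variable {k : Type} [Ring k] (K L : ChainComplex (ModuleCat.{0} k) ℕ) (φ : K ⟶ L)

/-- cycles of a complex -/
def CycK (n : ℕ) (x : K.X n) : Prop := K.d n ((ComplexShape.down ℕ).next n) x = 0

lemma cycK_iff (n : ℕ) (x : K.X n) :
    CycK K n x ↔ K.d n ((ComplexShape.down ℕ).next n) x = 0 := Iff.rfl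

lemma cycK_zero (x : K.X 0) : CycK K 0 x := by
  rw [cycK_iff, K.shape 0 _ (by
      rw [ChainComplex.next_nat_zero]
      simp)]
  rfl

lemma cycK_succ (n : ℕ) (x : K.X (n + 1)) : CycK K (n + 1) x ↔ K.d (n + 1) n x = 0 := by
  rw [cycK_iff, ChainComplex.next_nat_succ]

lemma exists_cycle (n : ℕ) (x : K.X n) (hx : CycK K n x) : ∃ z : K.cycles n, K.iCycles n z = x := by
  have h := ShortComplex.exact_of_f_is_kernel (ShortComplex.mk (K.iCycles n)
    (K.d n ((ComplexShape.down ℕ).next n)) (by simp)) (K.cyclesIsKernel n _ rfl)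
  rw [ShortComplex.moduleCat_exact_iff] at h
  exact h x ((cycK_iff K n x).1 hx)

lemma iCycles_cyc (n : ℕ) (z : K.cycles n) : CycK K n (K.iCycles n z) := by
  rw [cycK_iff]
  have := ConcreteCategory.congr_hom (K.iCycles_d n ((ComplexShape.down ℕ).next n)) z
  exact this

lemma homologyπ_eq_zero_iff (n : ℕ) (z : K.cycles n) :
    K.homologyπ n z = 0 ↔ ∃ w : K.X (n + 1), K.d (n + 1) n w = K.iCycles n z := by
  have h := ShortComplex.exact_of_g_is_cokernel (ShortComplex.mk (K.toCycles (n + 1) n)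
    (K.homologyπ n) (by simp)) (K.homologyIsCokernel (n + 1) n (by simp))
  rw [ShortComplex.moduleCat_exact_iff] at h
  have hinj : Function.Injective (K.iCycles n) := (ModuleCat.mono_iff_injective _).1 inferInstance
  have hc : ∀ w, K.iCycles n (K.toCycles (n + 1) n w) = K.d (n + 1) n w := fun w =>
    ConcreteCategory.congr_hom (K.toCycles_i (n + 1) n) w
  constructor
  · intro hz
    obtain ⟨w, hw⟩ := h z hz
    have hw' : K.toCycles (n + 1) n w = z := hw
    exact ⟨w, by rw [← hc, hw']⟩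
  · rintro ⟨w, hw⟩
    have : K.toCycles (n + 1) n w = z := hinj (by rw [hc, hw])
    rw [← this]
    exact ConcreteCategory.congr_hom (K.toCycles_comp_homologyπ (n + 1) n) w

lemma homologyπ_surj (n : ℕ) : Function.Surjective (K.homologyπ n) :=
  (ModuleCat.epi_iff_surjective _).1 inferInstance

/-- elementwise homology isomorphism -/
def ElemIso (n : ℕ) : Prop :=
  (∀ x : K.X n, CycK K n x → (∃ w : L.X (n + 1), φ.f n x = L.d (n + 1) n w) →
      ∃ w : K.X (n + 1), x = K.d (n + 1) n w) ∧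
  (∀ y : L.X n, CycK L n y → ∃ x : K.X n, CycK K n x ∧
      ∃ w : L.X (n + 1), y = φ.f n x + L.d (n + 1) n w)

theorem isIso_homologyMap_iff (n : ℕ) :
    IsIso (HomologicalComplex.homologyMap φ n) ↔ ElemIso K L φ n := by
  have hπ : ∀ z : K.cycles n, HomologicalComplex.homologyMap φ n (K.homologyπ n z)
      = L.homologyπ n (HomologicalComplex.cyclesMap φ n z) := fun z =>
    ConcreteCategory.congr_hom (HomologicalComplex.homologyπ_naturality φ n) z
  have hi : ∀ z : K.cycles n, L.iCycles n (HomologicalComplex.cyclesMap φ n z)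
      = φ.f n (K.iCycles n z) := fun z =>
    ConcreteCategory.congr_hom (HomologicalComplex.cyclesMap_i φ n) z
  rw [ConcreteCategory.isIso_iff_bijective]
  constructor
  · rintro ⟨hinj, hsurj⟩
    constructor
    · rintro x hx ⟨w, hw⟩
      obtain ⟨z, rfl⟩ := exists_cycle K n x hx
      have h1 : HomologicalComplex.homologyMap φ n (K.homologyπ n z) = 0 := by
        rw [hπ, homologyπ_eq_zero_iff]
        exact ⟨w, by rw [hi, hw]⟩
      have h2 : K.homologyπ n z = 0 := hinj (by rw [h1, map_zero])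
      rw [homologyπ_eq_zero_iff] at h2
      obtain ⟨w', hw'⟩ := h2
      exact ⟨w', hw'.symm⟩
    · intro y hy
      obtain ⟨z, rfl⟩ := exists_cycle L n y hy
      obtain ⟨h, hh⟩ := hsurj (L.homologyπ n z)
      obtain ⟨z', rfl⟩ := homologyπ_surj K n h
      refine ⟨K.iCycles n z', iCycles_cyc K n z', ?_⟩
      rw [hπ] at hh
      have h3 : L.homologyπ n (z - HomologicalComplex.cyclesMap φ n z') = 0 := by
        rw [map_sub, hh, sub_self]
      rw [homologyπ_eq_zero_iff] at h3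
      obtain ⟨w, hw⟩ := h3
      refine ⟨w, ?_⟩
      rw [hw, map_sub, hi]
      abel
  · rintro ⟨h1, h2⟩
    constructor
    · rw [injective_iff_map_eq_zero]
      intro h hh
      obtain ⟨z, rfl⟩ := homologyπ_surj K n h
      rw [hπ, homologyπ_eq_zero_iff] at hh
      obtain ⟨w, hw⟩ := hh
      obtain ⟨w', hw'⟩ := h1 (K.iCycles n z) (iCycles_cyc K n z) ⟨w, by rw [hw, hi]⟩
      rw [homologyπ_eq_zero_iff]
      exact ⟨w', hw'.symm⟩
    · intro h
      obtain ⟨z, rfl⟩ := homologyπ_surj L n h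
      obtain ⟨x, hx, w, hw⟩ := h2 (L.iCycles n z) (iCycles_cyc L n z)
      obtain ⟨z', rfl⟩ := exists_cycle K n x hx
      refine ⟨K.homologyπ n z', ?_⟩
      rw [hπ]
      have h3 : L.homologyπ n (z - HomologicalComplex.cyclesMap φ n z') = 0 := by
        rw [homologyπ_eq_zero_iff]
        refine ⟨w, ?_⟩
        rw [map_sub, hi, hw]
        abel
      rw [map_sub] at h3
      exact (sub_eq_zero.1 h3).symm

end complexes

section sset

variable (k : Type) [CommRing k] (X Y : SSet.{0}) (f : X ⟶ Y)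

/-- the elementary boundary -/
noncomputable def bdS (n : ℕ) : (X _⦋n + 1⦌ →₀ k) →ₗ[k] (X _⦋n⦌ →₀ k) :=
  ∑ i : Fin (n + 2), (-1 : ℤ) ^ (i : ℕ) • Finsupp.lmapDomain k k (X.δ i)

/-- the elementary induced map -/
noncomputable def mapS (n : ℕ) : (X _⦋n⦌ →₀ k) →ₗ[k] (Y _⦋n⦌ →₀ k) :=
  Finsupp.lmapDomain k k (f.app (op ⦋n⦌))

noncomputable abbrev RR : ModuleCat.{0} k := ModuleCat.of k k

/-- comparison with the chain complex of Mathlib -/
noncomputable def cmp (n : ℕ) : ModuleCat.of k (X _⦋n⦌ →₀ k) ⟶ (X.chainComplex (RR k)).X n :=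
  ModuleCat.ofHom (Finsupp.lsum k fun x => (X.ιChainComplex (R := RR k) x).hom)

lemma cmp_single (n : ℕ) (x : X _⦋n⦌) (a : k) :
    cmp k X n (Finsupp.single x a : X _⦋n⦌ →₀ k) = X.ιChainComplex (R := RR k) x a := by
  show (Finsupp.lsum k fun x => (X.ιChainComplex (R := RR k) x).hom) (Finsupp.single x a) = _
  rw [Finsupp.lsum_single]

noncomputable def cmpInv (n : ℕ) :
    (X.chainComplex (RR k)).X n ⟶ ModuleCat.of k (X _⦋n⦌ →₀ k) :=
  Cofan.IsColimit.desc (X.isColimitChainComplexXCofan (RR k) n)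
    fun x => ModuleCat.ofHom (Finsupp.lsingle x)

lemma ι_cmpInv (n : ℕ) (x : X _⦋n⦌) :
    X.ιChainComplex (R := RR k) x ≫ cmpInv k X n = ModuleCat.ofHom (Finsupp.lsingle x) :=
  Cofan.IsColimit.fac (X.isColimitChainComplexXCofan (RR k) n) _ x

lemma cmp_bijective (n : ℕ) : Function.Bijective (cmp k X n) := by
  have h1 : cmp k X n ≫ cmpInv k X n = 𝟙 _ := by
    apply ModuleCat.hom_ext
    refine Finsupp.lhom_ext (fun x a => ?_)
    have h := ConcreteCategory.congr_hom (ι_cmpInv k X n x) a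
    have h' : cmpInv k X n (cmp k X n (Finsupp.single x a : X _⦋n⦌ →₀ k))
        = (Finsupp.single x a : X _⦋n⦌ →₀ k) := by
      rw [cmp_single]
      exact h
    exact h'
  have h2 : cmpInv k X n ≫ cmp k X n = 𝟙 _ := by
    refine SSet.chainComplex_hom_ext fun x => ?_
    rw [← Category.assoc, ι_cmpInv, Category.comp_id]
    apply ModuleCat.hom_ext
    ext
    exact cmp_single k X n x 1
  have : IsIso (cmp k X n) := ⟨cmpInv k X n, h1, h2⟩
  exact (ConcreteCategory.isIso_iff_bijective _).1 this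

lemma cmp_bd (n : ℕ) (y : X _⦋n + 1⦌ →₀ k) :
    cmp k X n (bdS k X n y) = (X.chainComplex (RR k)).d (n + 1) n (cmp k X (n + 1) y) := by
  have h : (cmp k X n).hom ∘ₗ (bdS k X n)
      = ((X.chainComplex (RR k)).d (n + 1) n).hom ∘ₗ (cmp k X (n + 1)).hom := by
    refine Finsupp.lhom_ext (fun x a => ?_)
    have h0 := ConcreteCategory.congr_hom (SSet.ιChainComplex_d X (RR k) x) a
    have h1 : (X.chainComplex (RR k)).d (n + 1) n
        (cmp k X (n + 1) (Finsupp.single x a : X _⦋n + 1⦌ →₀ k))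
        = ∑ i : Fin (n + 2), (-1 : ℤ) ^ (i : ℕ) • X.ιChainComplex (R := RR k) (X.δ i x) a := by
      rw [cmp_single]
      refine Eq.trans h0 ?_
      show (∑ i : Fin (n + 2), ((-1 : ℤ) ^ (i : ℕ) • X.ιChainComplex (R := RR k) (X.δ i x) :
        RR k ⟶ (X.chainComplex (RR k)).X n)).hom a = _
      rw [ModuleCat.hom_sum, LinearMap.sum_apply]
      refine Finset.sum_congr rfl fun i _ => ?_
      rw [ModuleCat.hom_zsmul, LinearMap.smul_apply]
    refine Eq.trans ?_ h1.symm
    show cmp k X n (bdS k X n (Finsupp.single x a)) = _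
    rw [bdS, LinearMap.sum_apply, map_sum]
    refine Finset.sum_congr rfl fun i _ => ?_
    rw [LinearMap.smul_apply, map_zsmul, Finsupp.lmapDomain_apply, Finsupp.mapDomain_single,
      cmp_single]
  exact DFunLike.congr_fun h y

lemma cmp_map (n : ℕ) (y : X _⦋n⦌ →₀ k) :
    cmp k Y n (mapS k X Y f n y) = (SSet.chainComplexMap f (RR k)).f n (cmp k X n y) := by
  have h : (cmp k Y n).hom ∘ₗ (mapS k X Y f n)
      = ((SSet.chainComplexMap f (RR k)).f n).hom ∘ₗ (cmp k X n).hom := by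
    refine Finsupp.lhom_ext (fun x a => ?_)
    have h0 := ConcreteCategory.congr_hom (SSet.ι_chainComplexMap_f X Y f (RR k) x) a
    have h1 : (SSet.chainComplexMap f (RR k)).f n
        (cmp k X n (Finsupp.single x a : X _⦋n⦌ →₀ k))
        = Y.ιChainComplex (R := RR k) (f.app _ x) a := by
      rw [cmp_single]
      exact h0
    refine Eq.trans ?_ h1.symm
    show cmp k Y n (mapS k X Y f n (Finsupp.single x a)) = _
    rw [mapS, Finsupp.lmapDomain_apply, Finsupp.mapDomain_single, cmp_single]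
  exact DFunLike.congr_fun h y

/-- elementary cycles -/
def CycS : (n : ℕ) → (X _⦋n⦌ →₀ k) → Prop := fun n => 
  match n with
  | 0 => fun _ => True
  | n + 1 => fun x => bdS k X n x = 0

/-- elementary homology isomorphism in degree `n` -/
def ElemS (n : ℕ) : Prop :=
  (∀ x : X _⦋n⦌ →₀ k, CycS k X n x → (∃ w, mapS k X Y f n x = bdS k Y n w) →
      ∃ w, x = bdS k X n w) ∧
  (∀ y : Y _⦋n⦌ →₀ k, CycS k Y n y → ∃ x : X _⦋n⦌ →₀ k, CycS k X n x ∧
      ∃ w, y = mapS k X Y f n x + bdS k Y n w)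

lemma cycS_iff (n : ℕ) (x : X _⦋n⦌ →₀ k) :
    CycS k X n x ↔ CycK (X.chainComplex (RR k)) n (cmp k X n x) := by
  cases n with
  | zero => exact ⟨fun _ => cycK_zero _ _, fun _ => trivial⟩
  | succ n =>
    rw [cycK_succ, ← cmp_bd]
    show bdS k X n x = 0 ↔ _
    constructor
    · intro h; rw [h]; exact map_zero (cmp k X n).hom
    · intro h
      apply (cmp_bijective k X n).1
      rw [h]; exact (map_zero (cmp k X n).hom).symm

theorem isIso_iff_elemS (n : ℕ) :
    IsIso (SSet.homologyMap f (RR k) n) ↔ ElemS k X Y f n := by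
  refine (isIso_homologyMap_iff _ _ _ n).trans ?_
  constructor
  · rintro ⟨h1, h2⟩
    constructor
    · rintro x hx ⟨w, hw⟩
      obtain ⟨w', hw'⟩ := h1 (cmp k X n x) ((cycS_iff k X n x).1 hx) ⟨cmp k Y (n + 1) w, by
        rw [← cmp_bd, ← cmp_map, hw]⟩
      obtain ⟨v, rfl⟩ := (cmp_bijective k X (n + 1)).2 w'
      refine ⟨v, (cmp_bijective k X n).1 ?_⟩
      rw [hw', ← cmp_bd]
    · intro y hy
      obtain ⟨x, hx, w, hw⟩ := h2 (cmp k Y n y) ((cycS_iff k Y n y).1 hy)
      obtain ⟨x', rfl⟩ := (cmp_bijective k X n).2 x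
      obtain ⟨w', rfl⟩ := (cmp_bijective k Y (n + 1)).2 w
      refine ⟨x', (cycS_iff k X n x').2 hx, w', (cmp_bijective k Y n).1 ?_⟩
      rw [hw, ← cmp_bd, ← cmp_map]
      exact (map_add (cmp k Y n).hom _ _).symm
  · rintro ⟨h1, h2⟩
    constructor
    · rintro x hx ⟨w, hw⟩
      obtain ⟨x', rfl⟩ := (cmp_bijective k X n).2 x
      obtain ⟨w', rfl⟩ := (cmp_bijective k Y (n + 1)).2 w
      obtain ⟨v, hv⟩ := h1 x' ((cycS_iff k X n x').2 hx) ⟨w', (cmp_bijective k Y n).1 (by
        rw [cmp_map, cmp_bd]; exact hw)⟩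
      exact ⟨cmp k X (n + 1) v, by rw [← cmp_bd, ← hv]⟩
    · intro y hy
      obtain ⟨y', rfl⟩ := (cmp_bijective k Y n).2 y
      obtain ⟨x, hx, w, hw⟩ := h2 y' ((cycS_iff k Y n y').2 hy)
      refine ⟨cmp k X n x, (cycS_iff k X n x).1 hx, cmp k Y (n + 1) w, ?_⟩
      rw [← cmp_bd, ← cmp_map, hw]
      exact map_add (cmp k Y n).hom _ _

end sset

end Pool.Agent.H752.CE
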