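import Pool.Agent.H752.CE.Kernel
import Pool.Agent.H752.CE.HomIso
import Pool.Agent.H752.CE.Cocycle

/-!
# The homology of the nerve of a group and the bar complex
-/

set_option autoImplicit false

namespace Pool.Agent.H752.CE

open CategoryTheory Simplicial Opposite Finsupp

section bdformula

variable {V M : Type} [AddCommGroup M]

lemma bd_single {n : ℕ} (x : Fin (n + 1) → V) (m : M) :
    bd n (single x m) = ∑ i : Fin (n + 1), (-1 : ℤ) ^ (i : ℕ) • single (x ∘ i.succAbove) m := by
  induction n with
  | zero =>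
    rw [Fin.sum_univ_one]
    simp only [bd, Fin.val_zero, pow_zero, one_smul]
    rw [liftAddHom_apply_single, singleAddHom_apply]
    rfl
  | succ n ih =>
    have h1 : bd (n + 1) (single x m)
        = single (Fin.tail x) m - cns (x 0) (bd n (single (Fin.tail x) m)) := by
      conv_lhs => rw [← Fin.cons_self_tail x]
      rw [← cns_single, bd_succ_cns]
    rw [h1, ih, map_sum, sub_eq_add_neg, ← Finset.sum_neg_distrib]
    conv_rhs => rw [Fin.sum_univ_succ, Fin.val_zero, pow_zero, one_smul]
    congr 1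
    refine Finset.sum_congr rfl fun i _ => ?_
    rw [map_zsmul, cns_single, Fin.val_succ, pow_succ, mul_neg_one, neg_smul]
    congr 3
    funext j
    refine Fin.cases ?_ (fun j => ?_) j
    · simp
    · simp [Fin.tail]

end bdformula

lemma BBmap_cval {G H : Type} [Group G] [Group H] (f : G →* H) {A : SSet.{0}} (g : A ⟶ BB G)
    (e : A _⦋1⦌) : cval (g ≫ BBmap f) e = f (cval g e) := rfl

section simplices

variable {G : Type} [Group G]

/-- the simplex of the nerve with homogeneous coordinates `x` -/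
def qq (n : ℕ) (x : Fin (n + 1) → G) : (BB G) _⦋n⦌ :=
  mkSimplex (n := n) (fun i j _ => (x j)⁻¹ * x i) (fun i => inv_mul_cancel _)
    (fun i j k _ _ => by group)

lemma arr_qq {n : ℕ} (x : Fin (n + 1) → G) (i j : Fin (n + 1)) (h : i ≤ j) :
    arr (n := n) (qq n x) i j h = (x j)⁻¹ * x i := rfl

lemma qq_smul {n : ℕ} (g : G) (x : Fin (n + 1) → G) :
    qq n ((fun a => g * a) ∘ x) = qq n x := by
  refine simplex_ext fun i j h => ?_
  rw [arr_qq, arr_qq]
  simp only [Function.comp_apply]
  group

lemma δ_qq {n : ℕ} (x : Fin (n + 2) → G) (i : Fin (n + 2)) :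
    (BB G).δ i (qq (n + 1) x) = qq n (x ∘ i.succAbove) := rfl

lemma qq_map {H : Type} [Group H] (f : G →* H) {n : ℕ} (x : Fin (n + 1) → G) :
    (BBmap f).app _ (qq n x) = qq n (f ∘ x) := by
  refine simplex_ext (n := n) fun i j h => ?_
  rw [arr_qq]
  show f ((x j)⁻¹ * x i) = _
  simp

/-- the homogeneous coordinates with first vertex `1` -/
def tt (n : ℕ) (x : Fin n → G) : (BB G) _⦋n⦌ := qq n (Fin.cons (α := fun _ => G) 1 x)

lemma tt_bijective (n : ℕ) : Function.Bijective (tt (G := G) n) := by
  constructor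
  · intro x y h
    funext i
    have h1 : arr (n := n) (tt n x) 0 i.succ (Fin.zero_le _)
        = arr (n := n) (tt n y) 0 i.succ (Fin.zero_le _) := by rw [h]
    unfold tt at h1
    rw [arr_qq, arr_qq] at h1
    simpa using h1
  · intro s
    refine ⟨fun i => (arr (n := n) s 0 i.succ (Fin.zero_le _))⁻¹, ?_⟩
    refine simplex_ext (n := n) fun i j h => ?_
    have key : ∀ i : Fin (n + 1), (Fin.cons (α := fun _ => G) 1
        (fun i : Fin n => (arr (n := n) s 0 i.succ (Fin.zero_le _))⁻¹) : Fin (n + 1) → G) i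
        = (arr (n := n) s 0 i (Fin.zero_le _))⁻¹ := by
      intro i
      refine Fin.cases ?_ (fun i => ?_) i
      · have := arr_self (n := n) s 0
        rw [Fin.cons_zero]
        exact (inv_eq_one.2 this).symm
      · rw [Fin.cons_succ]
    unfold tt
    rw [arr_qq, key, key, arr_comp (n := n) s 0 i j (Fin.zero_le _) h]
    group

end simplices

section bridge

variable (k : Type) [CommRing k] {G : Type} [Group G]

/-- forgetting the module structure -/
def unt : Triv k ≃+ k := AddEquiv.refl k

noncomputable def QQ (n : ℕ) : T (n + 1) G (Triv k) →+ ((BB G) _⦋n⦌ →₀ k) :=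
  Finsupp.liftAddHom fun x => (singleAddHom (qq (G := G) n x)).comp (unt k).toAddMonoidHom

lemma QQ_single {n : ℕ} (x : Fin (n + 1) → G) (m : Triv k) :
    QQ k n (single x m : T (n + 1) G (Triv k)) = single (qq n x) (unt k m) := by
  unfold QQ
  rw [liftAddHom_apply_single]
  rfl

lemma QQ_act {n : ℕ} (g : G) (y : T (n + 1) G (Triv k)) : QQ k n (act g y) = QQ k n y := by
  induction y using Finsupp.induction_linear with
  | zero => simp
  | add y z hy hz => simp only [map_add, hy, hz]
  | single x m =>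
    have h1 : act g (single x m : T (n + 1) G (Triv k)) = single ((fun a => g * a) ∘ x) m := by
      simp [act, Triv.smul_def]
    rw [h1, QQ_single, QQ_single, qq_smul]

lemma QQ_bd {n : ℕ} (y : T (n + 2) G (Triv k)) :
    QQ k n (bd (n + 1) y) = bdS k (BB G) n (QQ k (n + 1) y) := by
  induction y using Finsupp.induction_linear with
  | zero => simp
  | add y z hy hz => simp only [map_add, hy, hz]
  | single x m =>
    rw [bd_single, map_sum, QQ_single, bdS, LinearMap.sum_apply]
    refine Finset.sum_congr rfl fun i _ => ?_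
    rw [map_zsmul, LinearMap.smul_apply, QQ_single, Finsupp.lmapDomain_apply,
      Finsupp.mapDomain_single, δ_qq]

/-- the comparison isomorphism -/
noncomputable def TH (n : ℕ) : T n G (Triv k) →+ ((BB G) _⦋n⦌ →₀ k) :=
  (QQ k n).comp (cns 1)

lemma TH_single {n : ℕ} (x : Fin n → G) (m : Triv k) :
    TH k n (single x m : T n G (Triv k)) = single (tt n x) (unt k m) := by
  unfold TH
  rw [AddMonoidHom.comp_apply, cns_single, QQ_single]
  rfl

lemma TH_bijective (n : ℕ) : Function.Bijective (TH k (G := G) n) := by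
  let E : T n G (Triv k) ≃+ ((BB G) _⦋n⦌ →₀ k) :=
    (Finsupp.mapRange.addEquiv (unt k)).trans
      (Finsupp.domCongr (Equiv.ofBijective _ (tt_bijective (G := G) n)))
  have h : TH k (G := G) n = E.toAddMonoidHom := by
    refine Finsupp.addHom_ext fun x m => ?_
    rw [TH_single]
    show _ = Finsupp.equivMapDomain _ (Finsupp.mapRange (unt k) (map_zero (unt k)) (single x m))
    rw [Finsupp.mapRange_single, Finsupp.equivMapDomain_single]
    rfl
  rw [h]
  exact E.bijective

lemma TH_nor {n : ℕ} (y : T (n + 1) G (Triv k)) : TH k n (nor n y) = QQ k n y := by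
  suffices h : (TH k n).comp (nor n) = QQ k (G := G) n from DFunLike.congr_fun h y
  refine hom_ext_cns fun a y => ?_
  have : (cns (1 : G) (act a⁻¹ y)) = act a⁻¹ (cns a y) := by simp
  rw [AddMonoidHom.comp_apply, nor_cns, TH, AddMonoidHom.comp_apply, this, QQ_act]

lemma TH_dd {n : ℕ} (y : T (n + 1) G (Triv k)) :
    TH k n (dd n y) = bdS k (BB G) n (TH k (n + 1) y) := by
  have h1 : dd n y = nor n (bd (n + 1) (cns 1 y)) := by
    rw [bd_succ_cns, map_sub, nor_cns, inv_one, act_one, dd_apply]
  rw [h1, TH_nor, QQ_bd]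
  rfl

lemma TH_map {H : Type} [Group H] (f : G →* H) {n : ℕ} (y : T n G (Triv k)) :
    TH k n (map f (AddMonoidHom.id _) y) = mapS k (BB G) (BB H) (BBmap f) n (TH k n y) := by
  induction y using Finsupp.induction_linear with
  | zero => simp
  | add y z hy hz => simp only [map_add, hy, hz]
  | single x m =>
    rw [map_single, AddMonoidHom.id_apply, TH_single, TH_single, mapS, Finsupp.lmapDomain_apply,
      Finsupp.mapDomain_single]
    congr 1
    unfold tt
    rw [qq_map, comp_cons, map_one]

lemma TH_cyc {n : ℕ} (y : T n G (Triv k)) : CycS k (BB G) n (TH k n y) ↔ Cyc n y := by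
  cases n with
  | zero => exact Iff.rfl
  | succ n =>
    show bdS k (BB G) n (TH k (n + 1) y) = 0 ↔ dd n y = 0
    rw [← TH_dd]
    exact (injective_iff_map_eq_zero' _).1 (TH_bijective k n).1 _

end bridge

/-- A surjection of groups with acyclic kernel induces homology isomorphisms of the nerves. -/
theorem group_elemS {Γ Q : Type} [Group Γ] [Group Q] (π : Γ →* Q) (hπ : Function.Surjective π)
    (hN : Acyc π.ker) (k : Type) [CommRing k] (n : ℕ) : ElemS k (BB Γ) (BB Q) (BBmap π) n := by
  let _ : MulAction Γ Q := MulAction.compHom Q π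
  obtain ⟨σ, hσ⟩ := hπ.hasRightInverse
  have hst : Acyc (MulAction.stabilizer Γ (1 : Q)) := by
    have e : MulAction.stabilizer Γ (1 : Q) = π.ker := by
      ext g
      rw [MulAction.mem_stabilizer_iff, MonoidHom.mem_ker]
      show π g * 1 = 1 ↔ _
      rw [mul_one]
    rw [e]; exact hN
  obtain ⟨h1, h2⟩ := inj_surj π (S := Q) (fun g s => rfl) hπ 1 (fun q hq => by simpa using hq) σ
    (fun s => by
      show π (σ s) * 1 = s
      rw [mul_one, hσ]) hst n (Triv k) (fun _ _ => rfl)
  constructor
  · rintro x hx ⟨w, hw⟩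
    obtain ⟨z, rfl⟩ := (TH_bijective k n).2 x
    obtain ⟨w, rfl⟩ := (TH_bijective k (n + 1)).2 w
    obtain ⟨v, hv⟩ := h1 z ((TH_cyc k z).1 hx) ⟨w, (TH_bijective k n).1 (by
      rw [TH_map, TH_dd]; exact hw)⟩
    exact ⟨TH k (n + 1) v, by rw [hv, TH_dd]⟩
  · intro y hy
    obtain ⟨z, rfl⟩ := (TH_bijective k n).2 y
    obtain ⟨x, hx, w, hw⟩ := h2 z ((TH_cyc k z).1 hy)
    exact ⟨TH k n x, (TH_cyc k x).2 hx, TH k (n + 1) w, by rw [hw, map_add, TH_dd, TH_map]⟩

end Pool.Agent.H752.CE
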