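import Pool.Agent.H752.CE.HomIso

/-!
# Low-dimensional cohomology of homology isomorphisms
-/

set_option autoImplicit false

namespace Pool.Agent.H752.CE

open CategoryTheory Simplicial Opposite

section linear

variable {k : Type} [Field k]

lemma exists_factor {V W : Type} [AddCommGroup V] [Module k V] [AddCommGroup W] [Module k W]
    (φ : V →ₗ[k] W) (g : V →ₗ[k] k) (h : ∀ v, φ v = 0 → g v = 0) :
    ∃ g' : W →ₗ[k] k, ∀ v, g' (φ v) = g v := by
  have h1 : g ∈ (LinearMap.ker φ).dualAnnihilator := by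
    rw [Submodule.mem_dualAnnihilator]
    intro v hv
    exact h v hv
  rw [← LinearMap.range_dualMap_eq_dualAnnihilator_ker] at h1
  obtain ⟨g', hg'⟩ := h1
  exact ⟨g', fun v => by rw [← hg']; rfl⟩

variable {A B : SSet.{0}} {f : A ⟶ B}

lemma bdS_mapS (f : A ⟶ B) (n : ℕ) (y : A _⦋n + 1⦌ →₀ k) :
    bdS k B n (mapS k A B f (n + 1) y) = mapS k A B f n (bdS k A n y) := by
  apply (cmp_bijective k B n).1
  rw [cmp_bd, cmp_map, cmp_map, cmp_bd]
  exact (ConcreteCategory.congr_hom ((SSet.chainComplexMap f (RR k)).comm (n + 1) n)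
    (cmp k A (n + 1) y))

lemma coh_surj (n : ℕ) (hf : ElemS k A B f n) (a : (A _⦋n⦌ →₀ k) →ₗ[k] k)
    (ha : ∀ w, a (bdS k A n w) = 0) :
    ∃ b : (B _⦋n⦌ →₀ k) →ₗ[k] k, (∀ w, b (bdS k B n w) = 0) ∧
      ∀ z, CycS k A n z → b (mapS k A B f n z) = a z := by
  let Z : Submodule k (A _⦋n⦌ →₀ k) := 
    match n with
    | 0 => ⊤
    | n + 1 => LinearMap.ker (bdS k A n)
  have hZ : ∀ z, z ∈ Z ↔ CycS k A n z := by
    cases n with
    | zero => intro z; exact ⟨fun _ => trivial, fun _ => Submodule.mem_top⟩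
    | succ n => intro z; exact LinearMap.mem_ker
  let φ : (Z × (B _⦋n + 1⦌ →₀ k)) →ₗ[k] (B _⦋n⦌ →₀ k) :=
    ((mapS k A B f n).comp Z.subtype).coprod (bdS k B n)
  let g : (Z × (B _⦋n + 1⦌ →₀ k)) →ₗ[k] k := (a.comp Z.subtype).coprod 0
  have hker : ∀ v, φ v = 0 → g v = 0 := by
      rintro ⟨z, w⟩ h
      simp only [φ, g] at h ⊢
      simp only [LinearMap.coprod_apply, LinearMap.comp_apply, Submodule.subtype_apply,
        LinearMap.zero_apply, add_zero] at h ⊢
      obtain ⟨w', hw'⟩ := hf.1 z ((hZ z).1 z.2) ⟨-w, by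
        rw [map_neg]; exact eq_neg_of_add_eq_zero_left h⟩
      rw [hw', ha]
  obtain ⟨b, hb⟩ := exists_factor (V := Z × (B _⦋n + 1⦌ →₀ k)) (W := B _⦋n⦌ →₀ k) φ g hker
  refine ⟨b, fun w => ?_, fun z hz => ?_⟩
  · have := hb (0, w)
    simpa [φ, g] using this
  · have := hb (⟨z, (hZ z).2 hz⟩, 0)
    simpa [φ, g] using this

lemma coh_inj (n : ℕ) (hf : ElemS k A B f n) (b : (B _⦋n⦌ →₀ k) →ₗ[k] k)
    (hb : ∀ w, b (bdS k B n w) = 0)
    (h : ∀ z, CycS k A n z → b (mapS k A B f n z) = 0) (y : B _⦋n⦌ →₀ k) (hy : CycS k B n y) :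
    b y = 0 := by
  obtain ⟨x, hx, w, rfl⟩ := hf.2 y hy
  rw [map_add, h x hx, hb, add_zero]

/-- the functional defined by a function -/
noncomputable def fct {V : Type} (u : V → k) : (V →₀ k) →ₗ[k] k := Finsupp.linearCombination k u

@[simp] lemma fct_single {V : Type} (u : V → k) (x : V) : fct u (Finsupp.single x 1) = u x := by
  simp [fct]

lemma bdS_single (X : SSet.{0}) (n : ℕ) (x : X _⦋n + 1⦌) :
    bdS k X n (Finsupp.single x 1)
      = ∑ i : Fin (n + 2), (-1 : ℤ) ^ (i : ℕ) • Finsupp.single (X.δ i x) (1 : k) := by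
  rw [bdS, LinearMap.sum_apply]
  refine Finset.sum_congr rfl fun i _ => ?_
  rw [LinearMap.smul_apply, Finsupp.lmapDomain_apply, Finsupp.mapDomain_single]

lemma mapS_single (f : A ⟶ B) (n : ℕ) (x : A _⦋n⦌) :
    mapS k A B f n (Finsupp.single x 1) = Finsupp.single (f.app _ x) 1 := by
  rw [mapS, Finsupp.lmapDomain_apply, Finsupp.mapDomain_single]

lemma fct_ext {V : Type} {g g' : (V →₀ k) →ₗ[k] k}
    (h : ∀ x, g (Finsupp.single x 1) = g' (Finsupp.single x 1)) : g = g' := by
  ext x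
  exact h x

end linear

section coh

variable (k : Type) [Field k] {A B : SSet.{0}} {f : A ⟶ B}

theorem h0_surj (hf : ElemS k A B f 0) (a : A _⦋0⦌ → k) (ha : ∀ e : A _⦋1⦌, a (A.δ 0 e) = a (A.δ 1 e)) :
    ∃ b : B _⦋0⦌ → k, (∀ e : B _⦋1⦌, b (B.δ 0 e) = b (B.δ 1 e)) ∧ ∀ x, b (f.app _ x) = a x := by
  obtain ⟨b, hb1, hb2⟩ := coh_surj 0 hf (fct a) (by
    intro w
    have : (fct a).comp (bdS k A 0) = 0 := by
      refine fct_ext fun e => ?_
      rw [LinearMap.comp_apply, bdS_single, Fin.sum_univ_two]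
      simp [ha]
    exact DFunLike.congr_fun this w)
  refine ⟨fun y => b (Finsupp.single y 1), fun e => ?_, fun x => ?_⟩
  · have := hb1 (Finsupp.single e 1)
    rw [bdS_single, Fin.sum_univ_two] at this
    simp only [Fin.val_zero, pow_zero, one_smul, Fin.val_one, pow_one, neg_smul, map_add,
      map_neg] at this
    exact eq_of_sub_eq_zero (by rw [sub_eq_add_neg]; exact this)
  · have := hb2 (Finsupp.single x 1) trivial
    rw [mapS_single, fct_single] at this
    exact this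

theorem h1_surj (hf : ElemS k A B f 1) (a : A _⦋1⦌ → k)
    (ha : ∀ σ : A _⦋2⦌, a (A.δ 1 σ) = a (A.δ 0 σ) + a (A.δ 2 σ)) :
    ∃ (b : B _⦋1⦌ → k) (c : A _⦋0⦌ → k), (∀ σ : B _⦋2⦌, b (B.δ 1 σ) = b (B.δ 0 σ) + b (B.δ 2 σ)) ∧
      ∀ e, b (f.app _ e) = a e + (c (A.δ 0 e) - c (A.δ 1 e)) := by
  obtain ⟨b, hb1, hb2⟩ := coh_surj 1 hf (fct a) (by
    intro w
    have : (fct a).comp (bdS k A 1) = 0 := by
      refine fct_ext fun e => ?_
      rw [LinearMap.comp_apply, bdS_single, Fin.sum_univ_three]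
      simp [ha]
    exact DFunLike.congr_fun this w)
  obtain ⟨c, hc⟩ := exists_factor (bdS k A 0) (b.comp (mapS k A B f 1) - fct a) (by
    intro v hv
    rw [LinearMap.sub_apply, LinearMap.comp_apply, hb2 v hv, sub_self])
  refine ⟨fun y => b (Finsupp.single y 1), fun x => c (Finsupp.single x 1), fun σ => ?_,
    fun e => ?_⟩
  · have := hb1 (Finsupp.single σ 1)
    rw [bdS_single, Fin.sum_univ_three] at this
    simp only [Fin.val_zero, pow_zero, one_smul, Fin.val_one, pow_one, neg_smul, map_add,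
      map_neg, Fin.val_two, even_two, Even.neg_pow, one_pow] at this
    linear_combination -this
  · have := hc (Finsupp.single e 1)
    rw [bdS_single, Fin.sum_univ_two] at this
    simp only [Fin.val_zero, pow_zero, one_smul, Fin.val_one, pow_one, neg_smul, map_add,
      map_neg, LinearMap.sub_apply, LinearMap.comp_apply, mapS_single, fct_single] at this
    linear_combination -this

theorem h1_inj (hf : ElemS k A B f 1) (b : B _⦋1⦌ → k)
    (hb : ∀ σ : B _⦋2⦌, b (B.δ 1 σ) = b (B.δ 0 σ) + b (B.δ 2 σ)) (c : A _⦋0⦌ → k)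
    (hc : ∀ e, b (f.app _ e) = c (A.δ 0 e) - c (A.δ 1 e)) :
    ∃ c' : B _⦋0⦌ → k, ∀ e : B _⦋1⦌, b e = c' (B.δ 0 e) - c' (B.δ 1 e) := by
  have h1 : ∀ w, fct b (bdS k B 1 w) = 0 := by
    intro w
    have : (fct b).comp (bdS k B 1) = 0 := by
      refine fct_ext fun e => ?_
      rw [LinearMap.comp_apply, bdS_single, Fin.sum_univ_three]
      simp [hb]
    exact DFunLike.congr_fun this w
  have h2 : (fct b).comp (mapS k A B f 1) = (fct c).comp (bdS k A 0) := by
    refine fct_ext fun e => ?_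
    rw [LinearMap.comp_apply, LinearMap.comp_apply, bdS_single, Fin.sum_univ_two, mapS_single,
      fct_single, hc]
    simp only [Fin.val_zero, pow_zero, one_smul, Fin.val_one, pow_one, neg_smul, map_add,
      map_neg, fct_single]
    ring
  obtain ⟨c', hc'⟩ := exists_factor (bdS k B 0) (fct b) (fun v hv =>
    coh_inj 1 hf (fct b) h1 (fun z hz => by
      have := DFunLike.congr_fun h2 z
      rw [LinearMap.comp_apply, LinearMap.comp_apply] at this
      rw [this, show bdS k A 0 z = 0 from hz, map_zero]) v hv)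
  refine ⟨fun y => c' (Finsupp.single y 1), fun e => ?_⟩
  have := hc' (Finsupp.single e 1)
  rw [bdS_single, Fin.sum_univ_two] at this
  simp only [Fin.val_zero, pow_zero, one_smul, Fin.val_one, pow_one, neg_smul, map_add,
    map_neg, fct_single] at this
  linear_combination -this

theorem h2_inj (hf : ElemS k A B f 2) (b : B _⦋2⦌ → k)
    (hb : ∀ τ : B _⦋3⦌, b (B.δ 0 τ) + b (B.δ 2 τ) = b (B.δ 1 τ) + b (B.δ 3 τ)) (c : A _⦋1⦌ → k)
    (hc : ∀ σ, b (f.app _ σ) = c (A.δ 0 σ) - c (A.δ 1 σ) + c (A.δ 2 σ)) :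
    ∃ c' : B _⦋1⦌ → k, ∀ σ : B _⦋2⦌, b σ = c' (B.δ 0 σ) - c' (B.δ 1 σ) + c' (B.δ 2 σ) := by
  have h1 : ∀ w, fct b (bdS k B 2 w) = 0 := by
    intro w
    have : (fct b).comp (bdS k B 2) = 0 := by
      refine fct_ext fun e => ?_
      rw [LinearMap.comp_apply, bdS_single, Fin.sum_univ_four]
      have h3 : ((3 : Fin (2 + 2)) : ℕ) = 3 := rfl
      have h4 : ((-1 : ℤ)) ^ 3 = -1 := by norm_num
      simp only [Fin.val_zero, pow_zero, one_smul, Fin.val_one, pow_one, neg_smul, map_add,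
        map_neg, Fin.val_two, even_two, Even.neg_pow, one_pow, h3, h4, fct_single,
        LinearMap.zero_apply]
      linear_combination hb e
    exact DFunLike.congr_fun this w
  have h2 : (fct b).comp (mapS k A B f 2) = (fct c).comp (bdS k A 1) := by
    refine fct_ext fun e => ?_
    rw [LinearMap.comp_apply, LinearMap.comp_apply, bdS_single, Fin.sum_univ_three, mapS_single,
      fct_single, hc]
    simp only [Fin.val_zero, pow_zero, one_smul, Fin.val_one, pow_one, neg_smul, map_add,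
      map_neg, fct_single, Fin.val_two, even_two, Even.neg_pow, one_pow]
    ring
  obtain ⟨c', hc'⟩ := exists_factor (bdS k B 1) (fct b) (fun v hv =>
    coh_inj 2 hf (fct b) h1 (fun z hz => by
      have := DFunLike.congr_fun h2 z
      rw [LinearMap.comp_apply, LinearMap.comp_apply] at this
      rw [this, show bdS k A 1 z = 0 from hz, map_zero]) v hv)
  refine ⟨fun y => c' (Finsupp.single y 1), fun e => ?_⟩
  have := hc' (Finsupp.single e 1)
  rw [bdS_single, Fin.sum_univ_three] at this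
  simp only [Fin.val_zero, pow_zero, one_smul, Fin.val_one, pow_one, neg_smul, map_add,
    map_neg, fct_single, Fin.val_two, even_two, Even.neg_pow, one_pow] at this
  linear_combination -this

end coh

end Pool.Agent.H752.CE
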