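import Pool.Agent.H752.CE.Bridge

/-!
# Increasing unions of groups and colimits of nerves
-/

set_option autoImplicit false

namespace Pool.Agent.H752.CE

open CategoryTheory Simplicial Opposite Limits

lemma BBmap_comp {G H K : Type} [Group G] [Group H] [Group K] (f : G →* H) (g : H →* K) :
    BBmap f ≫ BBmap g = BBmap (g.comp f) := rfl

lemma BBmap_injective {G H : Type} [Group G] [Group H] (f : G →* H) (hf : Function.Injective f)
    (n : ℕ) : Function.Injective ((BBmap f).app (op ⦋n⦌)) := by
  intro s t h
  refine simplex_ext (n := n) fun i j hij => hf ?_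
  have : ∀ s : (BB G) _⦋n⦌, arr (n := n) ((BBmap f).app (op ⦋n⦌) s) i j hij
      = f (arr (n := n) s i j hij) := fun s => rfl
  rw [← this, ← this, h]

lemma BBmap_mono {G H : Type} [Group G] [Group H] (f : G →* H) (hf : Function.Injective f) :
    Mono (BBmap f) := by
  have : ∀ U, Mono ((BBmap f).app U) := fun U => by
    rw [CategoryTheory.mono_iff_injective]
    exact BBmap_injective f hf U.unop.len
  exact NatTrans.mono_of_mono_app _

lemma BBmap_surj_range {G H : Type} [Group G] [Group H] (f : G →* H) (hf : Function.Injective f)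
    (n : ℕ) (s : (BB H) _⦋n⦌) (hs : ∀ i j hij, arr (n := n) s i j hij ∈ f.range) :
    ∃ t, (BBmap f).app (op ⦋n⦌) t = s := by
  choose a ha using hs
  refine ⟨mkSimplex (n := n) a (fun i => hf ?_) (fun i j k h h' => hf ?_), ?_⟩
  · rw [ha, map_one]
    exact arr_self (n := n) s i
  · rw [ha, map_mul, ha, ha]
    exact arr_comp (n := n) s i j k h h'
  · exact simplex_ext (n := n) fun i j hij => ha i j hij

section union

variable {Γ : Type} [Group Γ] (P : ℕ → Subgroup Γ) (hP : Monotone P)

/-- the inclusions -/
def incl (m : ℕ) : P m →* P (m + 1) := Subgroup.inclusion (hP (Nat.le_succ m))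

noncomputable def unionCocone : Cocone (seqB (incl P hP)) where
  pt := BB Γ
  ι := NatTrans.ofSequence (fun m => BBmap (P m).subtype) (fun m => by
    rw [Functor.ofSequence_map_homOfLE_succ]
    rfl)

lemma unionCocone_app (m : ℕ) : (unionCocone P hP).ι.app m = BBmap (P m).subtype := rfl

noncomputable def unionIsColimit (hU : ∀ g, ∃ m, g ∈ P m) : IsColimit (unionCocone P hP) := by
  refine evaluationJointlyReflectsColimits _ fun U => ?_
  refine Types.FilteredColimit.isColimitOf' _ _ ?_ ?_
  · intro s
    let s' : (BB Γ) _⦋U.unop.len⦌ := s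
    have h1 : ∀ x : Fin (U.unop.len + 1) × Fin (U.unop.len + 1), ∃ m,
        ∀ h : x.1 ≤ x.2, arr (n := U.unop.len) s' x.1 x.2 h ∈ P m := by
      intro x
      by_cases h : x.1 ≤ x.2
      · obtain ⟨m, hm⟩ := hU (arr (n := U.unop.len) s' x.1 x.2 h)
        exact ⟨m, fun _ => hm⟩
      · exact ⟨0, fun h' => absurd h' h⟩
    choose μ hμ using h1
    let m := Finset.univ.sup μ
    obtain ⟨t, ht⟩ := BBmap_surj_range (P m).subtype Subtype.val_injective U.unop.len s' (by
      intro i j hij
      rw [Subgroup.range_subtype]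
      exact hP (Finset.le_sup (f := μ) (Finset.mem_univ (i, j))) (hμ (i, j) hij))
    exact ⟨m, t, ht.symm⟩
  · intro i x y h
    exact ⟨i, 𝟙 i, congrArg _ (BBmap_injective (P i).subtype Subtype.val_injective
      U.unop.len h)⟩

end union

end Pool.Agent.H752.CE
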