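import Pool.Agent.H752.CE.Cocycle

/-!
# The nerve of a group is a Kan complex
-/

set_option autoImplicit false

namespace Pool.Agent.H752.CE

open CategoryTheory Simplicial Opposite

variable {G : Type} [Group G]

section horn

variable {n : ℕ} (i : Fin (n + 2))

/-- the edges `a ≤ b` which belong to the horn -/
def HornEdge (a b : Fin (n + 2)) : Prop := ∃ k, k ≠ i ∧ k ≠ a ∧ k ≠ b

lemma edge_mem {a b : Fin (n + 2)} (hab : a ≤ b) (h : HornEdge i a b) :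
    SSet.stdSimplex.edge (n + 1) a b hab ∈ (SSet.horn.{0} (n + 1) i).obj (op ⦋1⦌) := by
  rw [SSet.mem_horn_iff_notMem_range]
  obtain ⟨k, h1, h2, h3⟩ := h
  refine ⟨k, h1, ?_⟩
  rintro ⟨j, hj⟩
  fin_cases j
  · exact h2 hj.symm
  · exact h3 hj.symm

/-- the edge of the horn -/
def hEdge {a b : Fin (n + 2)} (hab : a ≤ b) (h : HornEdge i a b) :
    (Λ[n + 1, i] : SSet.{0}) _⦋1⦌ := ⟨SSet.stdSimplex.edge (n + 1) a b hab, edge_mem i hab h⟩

lemma tri_mem {a b c : Fin (n + 2)} (hab : a ≤ b) (hbc : b ≤ c)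
    (h : ∃ k, k ≠ i ∧ k ≠ a ∧ k ≠ b ∧ k ≠ c) :
    SSet.stdSimplex.triangle (n := n + 1) a b c hab hbc
      ∈ (SSet.horn.{0} (n + 1) i).obj (op ⦋2⦌) := by
  rw [SSet.mem_horn_iff_notMem_range]
  obtain ⟨k, h1, h2, h3, h4⟩ := h
  refine ⟨k, h1, ?_⟩
  rintro ⟨j, hj⟩
  fin_cases j
  · exact h2 hj.symm
  · exact h3 hj.symm
  · exact h4 hj.symm

lemma coc_tri {c : (Λ[n + 1, i] : SSet.{0}) _⦋1⦌ → G} (hc : IsCoc _ c)
    {x y z : Fin (n + 2)} (hxy : x ≤ y) (hyz : y ≤ z)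
    (h : ∃ k, k ≠ i ∧ k ≠ x ∧ k ≠ y ∧ k ≠ z) (h1 : HornEdge i x z) (h2 : HornEdge i y z)
    (h3 : HornEdge i x y) :
    c (hEdge i (hxy.trans hyz) h1) = c (hEdge i hyz h2) * c (hEdge i hxy h3) := by
  have key := hc ⟨SSet.stdSimplex.triangle (n := n + 1) x y z hxy hyz, tri_mem i hxy hyz h⟩
  have e1 : (Λ[n + 1, i] : SSet.{0}).δ 1
      ⟨SSet.stdSimplex.triangle (n := n + 1) x y z hxy hyz, tri_mem i hxy hyz h⟩
      = hEdge i (hxy.trans hyz) h1 := by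
    apply Subtype.ext
    apply SSet.stdSimplex.ext
    intro k
    fin_cases k <;> rfl
  have e0 : (Λ[n + 1, i] : SSet.{0}).δ 0
      ⟨SSet.stdSimplex.triangle (n := n + 1) x y z hxy hyz, tri_mem i hxy hyz h⟩
      = hEdge i hyz h2 := by
    apply Subtype.ext
    apply SSet.stdSimplex.ext
    intro k
    fin_cases k <;> rfl
  have e2 : (Λ[n + 1, i] : SSet.{0}).δ 2
      ⟨SSet.stdSimplex.triangle (n := n + 1) x y z hxy hyz, tri_mem i hxy hyz h⟩
      = hEdge i hxy h3 := by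
    apply Subtype.ext
    apply SSet.stdSimplex.ext
    intro k
    fin_cases k <;> rfl
  rw [e1, e0, e2] at key
  exact key

end horn

theorem horn_extend {n : ℕ} {i : Fin (n + 2)} (t : (Λ[n + 1, i] : SSet.{0}) ⟶ BB G) :
    ∃ ψ : (Δ[n + 1] : SSet.{0}) ⟶ BB G, Λ[n + 1, i].ι ≫ ψ = t := by
  classical
  let c := cval t
  have hc : IsCoc _ c := cval_coc t
  let y : Fin (n + 2) → G := fun j =>
    if h : HornEdge i i j then
      if h' : i ≤ j then c (hEdge i h' h)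
      else (c (hEdge i (le_of_not_ge h') (let ⟨k, h1, h2, h3⟩ := h; ⟨k, h1, h3, h2⟩)))⁻¹
    else 1
  let b : (Δ[n + 1] : SSet.{0}) _⦋1⦌ → G := fun e => y (e 1) * (y (e 0))⁻¹
  have hb : IsCoc _ b := by
    intro σ
    show y (σ 2) * (y (σ 0))⁻¹ = (y (σ 2) * (y (σ 1))⁻¹) * (y (σ 1) * (y (σ 0))⁻¹)
    group
  refine ⟨ofCoc b hb, hom_ext_cval fun e => ?_⟩
  rw [cval_comp, cval_ofCoc]
  -- the edge `e`
  obtain ⟨k, hk1, hk2⟩ := (SSet.mem_horn_iff_notMem_range e.1 i).1 e.2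
  set u : Fin (n + 2) := e.1 0 with hu
  set v : Fin (n + 2) := e.1 1 with hv
  have huv : u ≤ v := SSet.stdSimplex.monotone_apply e.1 (by simp)
  have hku : k ≠ u := fun h => hk2 ⟨0, h.symm⟩
  have hkv : k ≠ v := fun h => hk2 ⟨1, h.symm⟩
  have he : HornEdge i u v := ⟨k, hk1, hku, hkv⟩
  have e1 : e = hEdge i huv he := by
    apply Subtype.ext
    apply SSet.stdSimplex.ext
    intro k
    fin_cases k <;> rfl
  have hiu : HornEdge i i u := ⟨k, hk1, hk1, hku⟩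
  have hui : HornEdge i u i := ⟨k, hk1, hku, hk1⟩
  have hiv : HornEdge i i v := ⟨k, hk1, hk1, hkv⟩
  have hvi : HornEdge i v i := ⟨k, hk1, hkv, hk1⟩
  have hy1 : ∀ (j : Fin (n + 2)) (h : HornEdge i i j) (h' : i ≤ j), y j = c (hEdge i h' h) := by
    intro j h h'
    simp only [y, dif_pos h, dif_pos h']
  have hy2 : ∀ (j : Fin (n + 2)) (h : HornEdge i i j) (g : HornEdge i j i) (h' : ¬ i ≤ j),
      y j = (c (hEdge i (le_of_not_ge h') g))⁻¹ := by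
    intro j h g h'
    simp only [y, dif_pos h, dif_neg h']
  show y v * (y u)⁻¹ = c e
  rw [e1]
  by_cases h1 : i ≤ u
  · rw [hy1 v hiv (h1.trans huv), hy1 u hiu h1,
      coc_tri i hc h1 huv ⟨k, hk1, hk1, hku, hkv⟩ hiv he hiu]
    group
  · by_cases h2 : i ≤ v
    · rw [hy1 v hiv h2, hy2 u hiu hui h1, inv_inv]
      exact (coc_tri i hc (le_of_not_ge h1) h2 ⟨k, hk1, hku, hk1, hkv⟩ he hiv hui).symm
    · rw [hy2 v hiv hvi h2, hy2 u hiu hui h1,
        coc_tri i hc huv (le_of_not_ge h2) ⟨k, hk1, hku, hkv, hk1⟩ hui hvi he]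
      group

theorem kan_BB (G : Type) [Group G] : SSet.KanComplex (BB G) := by
  rw [SSet.KanComplex.iff]
  intro n i f hf
  obtain ⟨ψ, hψ⟩ := horn_extend hf.desc
  refine ⟨ψ, fun j hj => ?_⟩
  rw [← hf.ι_desc j hj, ← hψ, ← Category.assoc, SSet.horn.ι_ι]

end Pool.Agent.H752.CE
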