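import Pool.Agent.H752.CE.PGroup
import Pool.Agent.H752.CE.Kan

/-!
# Mod `p` homology equivalences and `p`-complete spaces

Spaces are simplicial sets.
-/

set_option autoImplicit false

namespace Pool.Agent.H752.CE

open CategoryTheory Simplicial Opposite

theorem pComplete_BB (p : ℕ) [Fact p.Prime] (P : Type) [Group P] [Finite P] (hP : IsPGroup p P) :
    PComplete p (BB P) where
  kan := kan_BB P
  surj {A B} f hf g := by
    obtain ⟨b, h, hb, hbh⟩ := (loc_of_pgroup p (f := f) (fun n => (isIso_iff_elemS _ _ _ _ n).1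
      (hf n)) _ P hP rfl).es (cval g) (cval_coc g)
    refine ⟨ofCoc b hb, (homotopic_iff _ _).2 ⟨fun x => (h x)⁻¹, fun e => ?_⟩⟩
    rw [cval_comp, cval_ofCoc]
    have := hbh e
    rw [← eq_mul_inv_iff_mul_eq] at this
    rw [this]
    group
  inj {A B} f hf h h' := by
    rintro hh
    obtain ⟨η, hη⟩ := (homotopic_iff _ _).1 hh
    obtain ⟨η', hη', -⟩ := (loc_of_pgroup p (f := f) (fun n => (isIso_iff_elemS _ _ _ _ n).1
      (hf n)) _ P hP rfl).ff (cval h) (cval h') (cval_coc h) (cval_coc h') η hη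
    exact (homotopic_iff _ _).2 ⟨η', hη'⟩

end Pool.Agent.H752.CE
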