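import Mathlib

/-!
# Definitions: classifying spaces, telescopes, `p`-complete spaces, `p`-compact groups

Spaces are simplicial sets.  All definitions used in the statement of the result are here.
-/

set_option autoImplicit false

namespace Pool.Agent.H752.CE

open CategoryTheory Simplicial Opposite Limits MonoidalCategory

/-! ### Classifying spaces of groups and telescopes -/

/-- The classifying space of a group: the nerve of the category with one object. -/
abbrev BB (G : Type) [Group G] : SSet.{0} := nerve (SingleObj G)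

/-- The map of classifying spaces induced by a homomorphism. -/
abbrev BBmap {G H : Type} [Group G] [Group H] (f : G →* H) : BB G ⟶ BB H :=
  nerveMap (SingleObj.mapHom G H f)

/-- The diagram `B(P 0) ⟶ B(P 1) ⟶ ...` defined by a sequence of groups. -/
noncomputable abbrev seqB {P : ℕ → Type} [∀ m, Group (P m)] (j : ∀ m, P m →* P (m + 1)) :
    ℕ ⥤ SSet.{0} :=
  Functor.ofSequence (X := fun m => BB (P m)) fun m => BBmap (j m)

/-- The colimit of a sequence of classifying spaces of groups. (When all the maps are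
monomorphisms, it is the homotopy colimit, i.e. it is equivalent to the mapping telescope.) -/
noncomputable def tel {P : ℕ → Type} [∀ m, Group (P m)] (j : ∀ m, P m →* P (m + 1)) : SSet.{0} :=
  colimit (seqB j)

/-- The structure maps of the colimit. -/
noncomputable def telι {P : ℕ → Type} [∀ m, Group (P m)] (j : ∀ m, P m →* P (m + 1)) (m : ℕ) :
    BB (P m) ⟶ tel j := colimit.ι (seqB j) m

/-! ### Homotopies -/

/-- Two maps of simplicial sets are homotopic (by a homotopy parametrised by `Δ[1]`); this is an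
equivalence relation when the target is a Kan complex. -/
def Htpc {A B : SSet.{0}} (g g' : A ⟶ B) : Prop := Nonempty (SSet.Homotopy g g')

/-- A map is null-homotopic if it is homotopic to a constant map. -/
def NullHtpc {A B : SSet.{0}} (g : A ⟶ B) : Prop := ∃ b : B _⦋0⦌, Htpc g (SSet.const b)

/-! ### `p`-complete spaces -/

/-- A mod `p` homology equivalence: it induces isomorphisms on `H_n(-; 𝔽_p)` for all `n`. -/
def ModPEquiv (p : ℕ) {A B : SSet.{0}} (f : A ⟶ B) : Prop :=
  ∀ n : ℕ, IsIso (SSet.homologyMap f (ModuleCat.of (ZMod p) (ZMod p)) n)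

/-- `Y` is `p`-complete: a Kan complex such that every mod `p` homology equivalence `f : A ⟶ B`
induces a bijection `[B, Y] → [A, Y]` on homotopy classes of maps. -/
structure PComplete (p : ℕ) (Y : SSet.{0}) : Prop where
  kan : SSet.KanComplex Y
  surj : ∀ {A B : SSet.{0}} (f : A ⟶ B), ModPEquiv p f → ∀ g : A ⟶ Y,
    ∃ h : B ⟶ Y, Htpc (f ≫ h) g
  inj : ∀ {A B : SSet.{0}} (f : A ⟶ B), ModPEquiv p f → ∀ h h' : B ⟶ Y,
    Htpc (f ≫ h) (f ≫ h') → Htpc h h'

/-! ### Loop spaces and `p`-compact groups -/

/-- The simplicial loop space of `B` at the vertex `b`: the simplicial set whose `n`-simplices are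
the maps `Δ[n] × Δ[1] ⟶ B` which are constant at `b` on both ends. -/
def Loops (B : SSet.{0}) (b : B _⦋0⦌) : SSet.{0} where
  obj U := {h : (SSet.stdSimplex.obj U.unop ⊗ Δ[1] : SSet.{0}) ⟶ B //
    SSet.ι₀ ≫ h = SSet.const b ∧ SSet.ι₁ ≫ h = SSet.const b}
  map θ := ↾ fun h => ⟨(SSet.stdSimplex.map θ.unop ▷ Δ[1]) ≫ h.1, by
    rw [SSet.ι₀_comp_assoc, h.2.1, SSet.comp_const], by
    rw [SSet.ι₁_comp_assoc, h.2.2, SSet.comp_const]⟩
  map_id U := by
    refine ConcreteCategory.hom_ext _ _ fun h => Subtype.ext ?_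
    have e : SSet.stdSimplex.map (𝟙 U.unop) = 𝟙 _ := SSet.stdSimplex.map_id _
    refine Eq.trans (congrArg (fun f => (f ▷ (Δ[1] : SSet.{0})) ≫ h.1) e) ?_
    rw [MonoidalCategory.id_whiskerRight, Category.id_comp]
    rfl
  map_comp {U V W} θ ξ := by
    refine ConcreteCategory.hom_ext _ _ fun h => Subtype.ext ?_
    have e : SSet.stdSimplex.map (ξ.unop ≫ θ.unop)
        = SSet.stdSimplex.map ξ.unop ≫ SSet.stdSimplex.map θ.unop := SSet.stdSimplex.map_comp _ _
    refine Eq.trans (congrArg (fun f => (f ▷ (Δ[1] : SSet.{0})) ≫ h.1) e) ?_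
    rw [MonoidalCategory.comp_whiskerRight, Category.assoc]
    rfl

/-- `B` is the classifying space of a `p`-compact group: `B` is `p`-complete and connected, and the
mod `p` homology of its loop space is finite (finite-dimensional in each degree and zero in large
degrees). -/
structure IsBPCompact (p : ℕ) (B : SSet.{0}) : Prop where
  complete : PComplete p B
  nonempty : Nonempty (B _⦋0⦌)
  connected : ∀ x y : B _⦋0⦌, ∃ e : B _⦋1⦌, B.δ 1 e = x ∧ B.δ 0 e = y
  finite : ∀ (b : B _⦋0⦌) (n : ℕ), Module.Finite (ZMod p)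
    (SSet.homology (Loops B b) (ModuleCat.of (ZMod p) (ZMod p)) n : ModuleCat.{0} (ZMod p))
  bounded : ∀ b : B _⦋0⦌, ∃ N, ∀ n, N < n → Subsingleton
    (SSet.homology (Loops B b) (ModuleCat.of (ZMod p) (ZMod p)) n : ModuleCat.{0} (ZMod p))

end Pool.Agent.H752.CE
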