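import Mathlib

/-!
# The group `E`

`P₁` is a finite `p`-group over `X` and `K` is a subgroup of `P₁` such that all elements of order `p`
of `K` are trivial in `X`. We construct a finite `p`-group `E` over `P₁` all of whose elements of
order `p` are trivial in `X`, together with lifts of `K` and of the kernel of `P₁ → X`.
-/

set_option autoImplicit false

namespace Pool.Agent.H752.CE

section freeindex

/-- An element of order `p` which acts without fixed points has an index function. -/
lemma exists_index {p : ℕ} [hp : Fact p.Prime] {G S : Type} [Group G] [MulAction G S] (g : G)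
    (hg : g ^ p = 1) (hfree : ∀ s : S, g • s ≠ s) :
    ∃ f : S → ZMod p, ∀ s, f (g • s) = f s + 1 := by
  classical
  have hper : ∀ s : S, Function.minimalPeriod (g • ·) s = p := by
    intro s
    have h1 : Function.minimalPeriod (g • ·) s ∣ p := by
      rw [← MulAction.pow_smul_eq_iff_minimalPeriod_dvd, hg, one_smul]
    rcases (Nat.dvd_prime hp.out).1 h1 with h | h
    · exfalso
      apply hfree s
      have := (MulAction.pow_smul_eq_iff_minimalPeriod_dvd (a := g) (b := s) (n := 1)).2
        (by rw [h])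
      simpa using this
    · exact h
  have hk : ∀ s : S, ∃ k : ℤ, g ^ k •
      (Quotient.out (Quotient.mk (MulAction.orbitRel (Subgroup.zpowers g) S) s)) = s := by
    intro s
    have h1 : MulAction.orbitRel (Subgroup.zpowers g) S (Quotient.out (Quotient.mk
      (MulAction.orbitRel (Subgroup.zpowers g) S) s)) s :=
      @Quotient.mk_out S (MulAction.orbitRel (Subgroup.zpowers g) S) s
    have h2 : MulAction.orbitRel (Subgroup.zpowers g) S s (Quotient.out (Quotient.mk
      (MulAction.orbitRel (Subgroup.zpowers g) S) s)) := Setoid.symm' _ h1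
    rw [MulAction.orbitRel_apply] at h2
    obtain ⟨⟨x, k, rfl⟩, hx⟩ := h2
    exact ⟨k, hx⟩
  choose k hk using hk
  refine ⟨fun s => (k s : ZMod p), fun s => ?_⟩
  have hrep : (Quotient.mk (MulAction.orbitRel (Subgroup.zpowers g) S) (g • s))
      = Quotient.mk (MulAction.orbitRel (Subgroup.zpowers g) S) s := by
    apply Quotient.sound
    show MulAction.orbitRel (Subgroup.zpowers g) S _ _
    rw [MulAction.orbitRel_apply]
    exact ⟨⟨g, Subgroup.mem_zpowers g⟩, rfl⟩
  have h1 := hk (g • s)
  rw [hrep] at h1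
  have h2 := hk s
  set r := Quotient.out (Quotient.mk (MulAction.orbitRel (Subgroup.zpowers g) S) s)
  have h3 : g ^ (k (g • s) - (k s + 1)) • r = r := by
    have h4 : g ^ (k s + 1) • r = g • s := by
      rw [add_comm, zpow_add, zpow_one, mul_smul, h2]
    rw [sub_eq_neg_add, zpow_add, mul_smul, h1, ← h4, ← mul_smul, ← zpow_add]
    simp
  rw [MulAction.zpow_smul_eq_iff_minimalPeriod_dvd, hper] at h3
  have h5 := (ZMod.intCast_zmod_eq_zero_iff_dvd _ p).2 h3
  push_cast at h5
  linear_combination h5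

end freeindex

section sd

/-- semidirect product of the functions on `Y` with `P₁` -/
@[ext] structure SD (p : ℕ) (P Y : Type) where
  v : Y → ZMod p
  g : P

variable {p : ℕ} {P Y : Type} [Group P] [MulAction P Y]

instance : Mul (SD p P Y) := ⟨fun a b => ⟨fun y => a.v y + b.v (a.g⁻¹ • y), a.g * b.g⟩⟩
instance : One (SD p P Y) := ⟨⟨fun _ => 0, 1⟩⟩
instance : Inv (SD p P Y) := ⟨fun a => ⟨fun y => - a.v (a.g • y), a.g⁻¹⟩⟩

@[simp] lemma SD.mul_v (a b : SD p P Y) (y : Y) : (a * b).v y = a.v y + b.v (a.g⁻¹ • y) := rfl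
@[simp] lemma SD.mul_g (a b : SD p P Y) : (a * b).g = a.g * b.g := rfl
omit [MulAction P Y] in
@[simp] lemma SD.one_v (y : Y) : (1 : SD p P Y).v y = 0 := rfl
omit [MulAction P Y] in
@[simp] lemma SD.one_g : (1 : SD p P Y).g = 1 := rfl
@[simp] lemma SD.inv_v (a : SD p P Y) (y : Y) : (a⁻¹).v y = - a.v (a.g • y) := rfl
@[simp] lemma SD.inv_g (a : SD p P Y) : (a⁻¹).g = a.g⁻¹ := rfl

instance : Group (SD p P Y) :=
  Group.ofLeftAxioms
    (fun a b c => by
      ext y
      · simp [mul_smul, add_assoc]
      · simp [mul_assoc])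
    (fun a => by ext y <;> simp)
    (fun a => by ext y <;> simp)

def SD.proj : SD p P Y →* P where
  toFun a := a.g
  map_one' := rfl
  map_mul' _ _ := rfl

lemma SD.pow_g (a : SD p P Y) (n : ℕ) : (a ^ n).g = a.g ^ n := map_pow SD.proj a n

lemma SD.pow_v (a : SD p P Y) (n : ℕ) (y : Y) :
    (a ^ n).v y = ∑ i ∈ Finset.range n, a.v ((a.g⁻¹) ^ i • y) := by
  induction n with
  | zero => simp
  | succ n ih =>
    rw [pow_succ, SD.mul_v, ih, Finset.sum_range_succ, SD.pow_g, inv_pow]

instance [Finite P] [Finite Y] [NeZero p] : Finite (SD p P Y) :=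
  Finite.of_injective (fun a : SD p P Y => (a.v, a.g)) (fun a b h => by
    have := Prod.mk.inj h
    exact SD.ext this.1 this.2)

lemma SD.isPGroup (hP : IsPGroup p P) : IsPGroup p (SD p P Y) := by
  intro a
  obtain ⟨k, hk⟩ := hP a.g
  refine ⟨k + 1, ?_⟩
  rw [pow_succ, pow_mul]
  have h1 : (a ^ p ^ k).g = 1 := by rw [SD.pow_g, hk]
  ext y
  · rw [SD.pow_v]
    simp [h1]
  · rw [SD.pow_g, h1, one_pow]; rfl

end sd

section E

variable {p : ℕ} [hp : Fact p.Prime] {P X S : Type} [Group P] [Group X] [Fintype X]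
  [DecidableEq X] [Fintype S] [DecidableEq S] [MulAction P S]

/-- the elements of the group `E` -/
def ESub (π : P →* X) (s₀ : S) :
    letI : MulAction P X := MulAction.compHom X π
    Subgroup (SD p P (X × S)) :=
  letI : MulAction P X := MulAction.compHom X π
  { carrier := {a | (∀ x, ∑ s, a.v (x, s) = 0) ∧
      ∀ s, ∑ x, a.v (x, s) = (if s = a.g • s₀ then 1 else 0) - (if s = s₀ then 1 else 0)}
    one_mem' := by
      constructor
      · intro x; simp
      · intro s; simp
    mul_mem' := by
      rintro a b ⟨ha1, ha2⟩ ⟨hb1, hb2⟩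
      constructor
      · intro x
        simp only [SD.mul_v, Finset.sum_add_distrib, ha1, zero_add]
        have := hb1 (a.g⁻¹ • x)
        rw [← this]
        exact Fintype.sum_equiv (MulAction.toPerm a.g⁻¹) _ _ (fun s => rfl)
      · intro s
        simp only [SD.mul_v, Finset.sum_add_distrib, ha2, SD.mul_g]
        have h1 : ∑ x, b.v (a.g⁻¹ • (x, s)) = ∑ x, b.v (x, a.g⁻¹ • s) :=
          Fintype.sum_equiv (MulAction.toPerm (α := P) (β := X) a.g⁻¹) _ _ (fun x => rfl)
        rw [h1, hb2]
        have e1 : (a.g⁻¹ • s = b.g • s₀) ↔ (s = (a.g * b.g) • s₀) := by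
          rw [inv_smul_eq_iff, mul_smul]
        have e2 : (a.g⁻¹ • s = s₀) ↔ (s = a.g • s₀) := by rw [inv_smul_eq_iff]
        simp only [e1, e2]
        ring
    inv_mem' := by
      rintro a ⟨ha1, ha2⟩
      constructor
      · intro x
        simp only [SD.inv_v, Finset.sum_neg_distrib, neg_eq_zero]
        have := ha1 (a.g • x)
        rw [← this]
        exact Fintype.sum_equiv (MulAction.toPerm a.g) _ _ (fun s => rfl)
      · intro s
        simp only [SD.inv_v, Finset.sum_neg_distrib, SD.inv_g]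
        have h1 : ∑ x, a.v (a.g • (x, s)) = ∑ x, a.v (x, a.g • s) :=
          Fintype.sum_equiv (MulAction.toPerm (α := P) (β := X) a.g) _ _ (fun x => rfl)
        rw [h1, ha2]
        have e1 : (a.g • s = a.g • s₀) ↔ (s = s₀) := smul_left_cancel_iff _
        have e2 : (a.g • s = s₀) ↔ (s = a.g⁻¹ • s₀) := by rw [eq_inv_smul_iff]
        simp only [e1, e2]
        ring }

/-- all elements of order `p` of `E` are trivial in `X` -/
lemma ESub_order (π : P →* X) (s₀ : S)
    (hfree : ∀ g : P, g ^ p = 1 → π g ≠ 1 → ∀ s : S, g • s ≠ s) :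
    letI : MulAction P X := MulAction.compHom X π
    ∀ a ∈ ESub (p := p) π s₀, a ^ p = 1 → π a.g = 1 := by
  intro a ha hap
  let _ : MulAction P X := MulAction.compHom X π
  obtain ⟨ha1, ha2⟩ := ha
  by_contra hne
  have hgp : a.g ^ p = 1 := by rw [← SD.pow_g, hap]; rfl
  obtain ⟨f, hf⟩ := exists_index (p := p) (S := S) a.g hgp (hfree a.g hgp hne)
  obtain ⟨h, hh⟩ := exists_index (p := p) (S := X) a.g hgp (fun x hx => by
    apply hne
    have hx' : π a.g * x = x := hx
    exact mul_eq_right.1 hx')
  have hnorm : ∀ y : X × S, ∑ i ∈ Finset.range p, a.v ((a.g⁻¹) ^ i • y) = 0 := by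
    intro y
    rw [← SD.pow_v, hap]; rfl
  -- the two pairings
  have e1 : ∑ y : X × S, f y.2 * a.v y = 1 := by
    rw [Fintype.sum_prod_type_right]
    simp only [← Finset.mul_sum, ha2, mul_sub, Finset.sum_sub_distrib, mul_ite, mul_one, mul_zero]
    rw [Finset.sum_ite_eq' Finset.univ, Finset.sum_ite_eq' Finset.univ]
    simp [hf]
  have e2 : ∑ y : X × S, h y.1 * a.v y = 0 := by
    rw [Fintype.sum_prod_type]
    simp only [← Finset.mul_sum, ha1, mul_zero, Finset.sum_const_zero]
  have hinv : ∀ (i : ℕ) (y : X × S), f (a.g ^ i • y).2 - h (a.g ^ i • y).1 = f y.2 - h y.1 := by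
    intro i y
    induction i with
    | zero => simp
    | succ i ih =>
      rw [pow_succ', mul_smul]
      show f (a.g • (a.g ^ i • y).2) - h (a.g • (a.g ^ i • y).1) = _
      rw [hf, hh, ← ih]
      ring
  have hhi : ∀ (i : ℕ) (y : X × S), h (a.g ^ i • y).1 = h y.1 + i := by
    intro i y
    induction i with
    | zero => simp
    | succ i ih =>
      rw [pow_succ', mul_smul]
      show h (a.g • (a.g ^ i • y).1) = _
      rw [hh, ih]
      push_cast
      ring
  have e3 : ∑ y : X × S, (f y.2 - h y.1) * a.v y = 0 := by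
    have h1 : ∑ y : X × S, ((f y.2 - h y.1) * (if h y.1 = 0 then 1 else 0)) *
        ∑ i ∈ Finset.range p, a.v ((a.g⁻¹) ^ i • y) = 0 := by
      simp only [hnorm, mul_zero, Finset.sum_const_zero]
    rw [← h1]
    simp only [Finset.mul_sum]
    rw [Finset.sum_comm]
    have h2 : ∀ i ∈ Finset.range p, ∑ y : X × S,
        ((f y.2 - h y.1) * (if h y.1 = 0 then 1 else 0)) * a.v ((a.g⁻¹) ^ i • y)
        = ∑ y : X × S, ((f y.2 - h y.1) * (if h y.1 + i = 0 then 1 else 0)) * a.v y := by
      intro i _
      refine Fintype.sum_equiv (MulAction.toPerm ((a.g⁻¹) ^ i)) _ _ (fun y => ?_)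
      have h3 : y = a.g ^ i • ((a.g⁻¹) ^ i • y) := by
        rw [inv_pow, smul_inv_smul]
      rw [MulAction.toPerm_apply]
      congr 1
      conv_lhs => rw [h3]
      rw [hinv, hhi]
    rw [Finset.sum_congr rfl h2, Finset.sum_comm]
    refine Finset.sum_congr rfl (fun y _ => ?_)
    rw [← Finset.sum_mul, ← Finset.mul_sum]
    have h4 : ∑ i ∈ Finset.range p, (if h y.1 + (i : ZMod p) = 0 then (1 : ZMod p) else 0) = 1 := by
      rw [Finset.sum_eq_single_of_mem (-(h y.1)).val
        (Finset.mem_range.2 (ZMod.val_lt _))]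
      · simp
      · intro j hj hne'
        rw [if_neg]
        intro h0
        apply hne'
        have : (j : ZMod p) = -(h y.1) := by linear_combination h0
        rw [← this, ZMod.val_natCast, Nat.mod_eq_of_lt (Finset.mem_range.1 hj)]
    rw [h4, mul_one]
  have : (1 : ZMod p) = 0 := by
    rw [← e1, ← e3, eq_comm]
    simp only [sub_mul, Finset.sum_sub_distrib, e2, sub_zero]
  exact one_ne_zero this

end E

end Pool.Agent.H752.CE
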