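import Pool.Agent.H752.CE.Basic

/-!
# The inhomogeneous bar complex of a group
-/

set_option autoImplicit false

namespace Pool.Agent.H752.CE

open Finsupp

section group

variable {G G' : Type} [Group G] [Group G'] {M M' : Type} [AddCommGroup M] [AddCommGroup M']
  [DistribMulAction G M] [DistribMulAction G' M']

noncomputable def act {n : ℕ} (g : G) : T n G M →+ T n G M :=
  map (fun x => g * x) (DistribSMul.toAddMonoidHom M g)

@[simp] lemma act_cns {n : ℕ} (g a : G) (y : T n G M) :
    act g (cns a y) = cns (g * a) (act g y) := by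
  simp [act]

lemma act_act {n : ℕ} (g h : G) (y : T n G M) : act g (act h y) = act (g * h) y := by
  unfold act
  rw [map_map]
  congr 1
  congr 1
  · funext x; simp [mul_assoc]
  · ext m; simp [mul_smul]

lemma act_one {n : ℕ} (y : T n G M) : act (1 : G) y = y := by
  unfold act
  conv_rhs => rw [← map_id' y]
  congr 1
  congr 1
  · funext x; simp
  · ext m; simp

lemma bd_act {n : ℕ} (g : G) (y : T (n + 1) G M) : bd n (act g y) = act g (bd n y) :=
  bd_map _ _ _

/-- normalisation of the first vertex -/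
noncomputable def nor (n : ℕ) : T (n + 1) G M →+ T n G M :=
  Finsupp.liftAddHom fun x => (act (x 0)⁻¹).comp (singleAddHom (Fin.tail x))

@[simp] lemma nor_cns {n : ℕ} (a : G) (y : T n G M) : nor n (cns a y) = act a⁻¹ y := by
  induction y using Finsupp.induction_linear with
  | zero => simp
  | add y z hy hz => simp only [map_add, hy, hz]
  | single x m => simp [nor]

lemma nor_act {n : ℕ} (g : G) (y : T (n + 1) G M) : nor n (act g y) = nor n y := by
  have h : (nor n).comp (act (n := n + 1) (M := M) g) = nor n := by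
    refine hom_ext_cns fun a y => ?_
    simp [act_act]
  exact DFunLike.congr_fun h y

/-- the differential of the inhomogeneous bar complex -/
noncomputable def dd (n : ℕ) : T (n + 1) G M →+ T n G M := nor n - bd n

lemma dd_apply {n : ℕ} (y : T (n + 1) G M) : dd n y = nor n y - bd n y := rfl

lemma dd_act {n : ℕ} (g : G) (y : T (n + 1) G M) :
    dd n (act g y) = nor n y - act g (bd n y) := by
  rw [dd_apply, nor_act, bd_act]

lemma nor_bd {n : ℕ} (y : T (n + 2) G M) : nor n (bd (n + 1) y) = dd n (nor (n + 1) y) := by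
  have h : (nor n).comp (bd (V := G) (M := M) (n + 1)) = (dd n).comp (nor (n + 1)) := by
    refine hom_ext_cns fun a y => ?_
    simp [dd_act]
  exact DFunLike.congr_fun h y

lemma dd_dd {n : ℕ} (y : T (n + 2) G M) : dd n (dd (n + 1) y) = 0 := by
  rw [dd_apply (n := n + 1), map_sub, ← nor_bd, dd_apply, bd_bd, sub_zero, sub_self]

/-- functoriality -/
lemma nor_map {n : ℕ} (f : G →* G') (c : M →+ M') (hc : ∀ g m, c (g • m) = f g • c m)
    (y : T (n + 1) G M) : nor n (map f c y) = map f c (nor n y) := by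
  have h : (nor n).comp (map (n := n + 1) f c) = (map f c).comp (nor n) := by
    refine hom_ext_cns fun a y => ?_
    simp only [AddMonoidHom.coe_comp, Function.comp_apply, map_cns, nor_cns, act, map_map]
    congr 1
    congr 1
    · funext x; simp
    · ext m; simp [hc]
  exact DFunLike.congr_fun h y

lemma dd_map {n : ℕ} (f : G →* G') (c : M →+ M') (hc : ∀ g m, c (g • m) = f g • c m)
    (y : T (n + 1) G M) : dd n (map f c y) = map f c (dd n y) := by
  rw [dd_apply, nor_map f c hc, bd_map, dd_apply, map_sub]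

/-- an equivariant homogeneous operator is determined by its values on normalised chains -/
lemma nor_equivariant {n m : ℕ} (Φ : T (n + 1) G M →+ T (m + 1) G M)
    (hΦ : ∀ g y, Φ (act g y) = act g (Φ y)) (y : T (n + 1) G M) :
    nor m (Φ (cns 1 (nor n y))) = nor m (Φ y) := by
  have h : ((nor m).comp Φ).comp ((cns 1).comp (nor n)) = (nor m).comp Φ := by
    refine hom_ext_cns fun a y => ?_
    have : (cns (1 : G) (act a⁻¹ y)) = act a⁻¹ (cns a y) := by simp
    simp only [AddMonoidHom.coe_comp, Function.comp_apply, nor_cns, this, hΦ, nor_act]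
  exact DFunLike.congr_fun h y

/-- from an equivariant homogeneous homotopy to an inhomogeneous homotopy -/
lemma inhomog_homotopy (P : (n : ℕ) → T n G M →+ T (n + 1) G M)
    (Ψ Θ : (n : ℕ) → T n G M →+ T n G M)
    (hP : ∀ n g y, P n (act g y) = act g (P n y))
    (hPΨ : ∀ n (y : T (n + 1) G M), bd (n + 1) (P (n + 1) y) + P n (bd n y)
      = Ψ (n + 1) y - Θ (n + 1) y) {n : ℕ} (y : T (n + 1) G M) :
    dd (n + 1) (nor (n + 2) (P (n + 2) (cns 1 y))) + nor (n + 1) (P (n + 1) (cns 1 (dd n y)))
      = nor (n + 1) (Ψ (n + 2) (cns 1 y)) - nor (n + 1) (Θ (n + 2) (cns 1 y)) := by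
  rw [← nor_bd]
  have h1 := hPΨ (n + 1) (cns 1 y)
  rw [bd_succ_cns, map_sub] at h1
  have h2 : bd (n + 1 + 1) (P (n + 1 + 1) (cns 1 y))
      = Ψ (n + 1 + 1) (cns 1 y) - Θ (n + 1 + 1) (cns 1 y)
        - (P (n + 1) y - P (n + 1) (cns 1 (bd n y))) := by
    rw [← h1]; abel
  rw [h2, dd_apply]
  simp only [map_sub]
  rw [nor_equivariant (P (n + 1)) (hP (n + 1))]
  abel

lemma inhomog_homotopy_zero (P : (n : ℕ) → T n G M →+ T (n + 1) G M)
    (Ψ Θ : (n : ℕ) → T n G M →+ T n G M) (hP0 : ∀ y, P 0 y = 0)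
    (hPΨ : ∀ n (y : T (n + 1) G M), bd (n + 1) (P (n + 1) y) + P n (bd n y)
      = Ψ (n + 1) y - Θ (n + 1) y) (y : T 0 G M) :
    dd 0 (nor 1 (P 1 (cns 1 y)))
      = nor 0 (Ψ 1 (cns 1 y)) - nor 0 (Θ 1 (cns 1 y)) := by
  rw [← nor_bd]
  have h1 := hPΨ 0 (cns 1 y)
  rw [hP0, add_zero] at h1
  rw [h1, map_sub]

end group

end Pool.Agent.H752.CE
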