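import Pool.Agent.H752.CE.Cocycle

/-!
# Homotopies of maps into the nerve of a group
-/

set_option autoImplicit false

namespace Pool.Agent.H752.CE

open CategoryTheory Simplicial Opposite MonoidalCategory CartesianMonoidalCategory

variable {G : Type} [Group G] {A B : SSet.{0}}

lemma face01 (σ : A _⦋2⦌) : A.δ 0 (A.δ 1 σ) = A.δ 0 (A.δ 0 σ) :=
  SSet.δ_comp_δ_apply (S := A) (i := 0) (j := 0) le_rfl σ

lemma face11 (σ : A _⦋2⦌) : A.δ 1 (A.δ 1 σ) = A.δ 1 (A.δ 2 σ) :=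
  (SSet.δ_comp_δ_apply (S := A) (i := 1) (j := 1) le_rfl σ).symm

lemma face10 (σ : A _⦋2⦌) : A.δ 1 (A.δ 0 σ) = A.δ 0 (A.δ 2 σ) :=
  (SSet.δ_comp_δ_apply (S := A) (i := 0) (j := 1) (Fin.zero_le _) σ).symm

/-- twisting a cocycle by a function on the vertices -/
lemma IsCoc.twist {c : A _⦋1⦌ → G} (hc : IsCoc A c) (η : A _⦋0⦌ → G) :
    IsCoc A (fun e => η (A.δ 0 e) * c e * (η (A.δ 1 e))⁻¹) := by
  intro σ
  simp only
  rw [hc σ, face01, face11, face10]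
  group

/-- two maps into the nerve are homotopic iff the cocycles are cohomologous -/
theorem homotopic_iff (g g' : A ⟶ BB G) :
    Nonempty (SSet.Homotopy g g') ↔
      ∃ η : A _⦋0⦌ → G, ∀ e : A _⦋1⦌, cval g' e * η (A.δ 1 e) = η (A.δ 0 e) * cval g e := by
  constructor
  · rintro ⟨H⟩
    let ι : (Δ[1] : SSet.{0}) _⦋1⦌ := SSet.stdSimplex.objEquiv.symm (𝟙 _)
    let h : (A ⊗ Δ[1] : SSet.{0}) ⟶ BB G := H.h
    refine ⟨fun x => cval h (A.σ 0 x, ι), fun e => ?_⟩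
    have h1 := cval_coc h (A.σ 1 e, (Δ[1] : SSet.{0}).σ 0 ι)
    have h2 := cval_coc h (A.σ 0 e, (Δ[1] : SSet.{0}).σ 1 ι)
    have a1 : (A ⊗ Δ[1] : SSet.{0}).δ 1 (A.σ 1 e, (Δ[1] : SSet.{0}).σ 0 ι) = (e, ι) :=
      Prod.ext (SSet.δ_comp_σ_self_apply (S := A) 1 e)
        (SSet.δ_comp_σ_succ_apply (S := Δ[1]) 0 ι)
    have a2 : (A ⊗ Δ[1] : SSet.{0}).δ 0 (A.σ 1 e, (Δ[1] : SSet.{0}).σ 0 ι)
        = (A.σ 0 (A.δ 0 e), ι) :=
      Prod.ext (SSet.δ_comp_σ_of_le_apply (S := A) (i := 0) (j := 0) le_rfl e)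
        (SSet.δ_comp_σ_self_apply (S := Δ[1]) 0 ι)
    have a3 : (A ⊗ Δ[1] : SSet.{0}).δ 2 (A.σ 1 e, (Δ[1] : SSet.{0}).σ 0 ι)
        = SSet.ι₀.app _ e := by
      refine Prod.ext (SSet.δ_comp_σ_succ_apply (S := A) 1 e) ?_
      refine (SSet.δ_comp_σ_of_gt_apply (S := Δ[1]) (i := 1) (j := 0) (by simp) ι).trans ?_
      apply SSet.stdSimplex.ext
      intro k
      fin_cases k <;> rfl
    have b1 : (A ⊗ Δ[1] : SSet.{0}).δ 1 (A.σ 0 e, (Δ[1] : SSet.{0}).σ 1 ι) = (e, ι) :=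
      Prod.ext (SSet.δ_comp_σ_succ_apply (S := A) 0 e)
        (SSet.δ_comp_σ_self_apply (S := Δ[1]) 1 ι)
    have b2 : (A ⊗ Δ[1] : SSet.{0}).δ 2 (A.σ 0 e, (Δ[1] : SSet.{0}).σ 1 ι)
        = (A.σ 0 (A.δ 1 e), ι) :=
      Prod.ext (SSet.δ_comp_σ_of_gt_apply (S := A) (i := 1) (j := 0) (by simp) e)
        (SSet.δ_comp_σ_succ_apply (S := Δ[1]) 1 ι)
    have b3 : (A ⊗ Δ[1] : SSet.{0}).δ 0 (A.σ 0 e, (Δ[1] : SSet.{0}).σ 1 ι)
        = SSet.ι₁.app _ e := by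
      refine Prod.ext (SSet.δ_comp_σ_self_apply (S := A) 0 e) ?_
      refine (SSet.δ_comp_σ_of_le_apply (S := Δ[1]) (i := 0) (j := 0) le_rfl ι).trans ?_
      apply SSet.stdSimplex.ext
      intro k
      fin_cases k <;> rfl
    rw [a1, a2, a3] at h1
    rw [b1, b2, b3] at h2
    have c1 : cval h (SSet.ι₀.app _ e) = cval g e := by
      rw [← cval_comp, show SSet.ι₀ ≫ h = g from H.h₀]
    have c2 : cval h (SSet.ι₁.app _ e) = cval g' e := by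
      rw [← cval_comp, show SSet.ι₁ ≫ h = g' from H.h₁]
    rw [c1] at h1
    rw [c2] at h2
    rw [← h2, h1]
  · rintro ⟨η, hη⟩
    let pr : (A ⊗ Δ[1] : SSet.{0}) ⟶ BB G := fst A Δ[1] ≫ g
    let η' : (A ⊗ Δ[1] : SSet.{0}) _⦋0⦌ → G := fun v =>
      if (v.2 : (Δ[1] : SSet.{0}) _⦋0⦌) 0 = 0 then 1 else η v.1
    let H := ofCoc _ ((cval_coc pr).twist η')
    refine ⟨⟨H, ?_, ?_, ?_⟩⟩
    · refine hom_ext_cval fun e => ?_
      rw [cval_comp, cval_ofCoc]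
      have e1 : η' ((A ⊗ Δ[1] : SSet.{0}).δ 0 (SSet.ι₀.app _ e)) = 1 := if_pos rfl
      have e2 : η' ((A ⊗ Δ[1] : SSet.{0}).δ 1 (SSet.ι₀.app _ e)) = 1 := if_pos rfl
      rw [e1, e2]
      have e3 : cval pr (SSet.ι₀.app _ e) = cval g e := rfl
      rw [e3]
      simp
    · refine hom_ext_cval fun e => ?_
      rw [cval_comp, cval_ofCoc]
      have e1 : η' ((A ⊗ Δ[1] : SSet.{0}).δ 0 (SSet.ι₁.app _ e)) = η (A.δ 0 e) := 
        if_neg (by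
          show ¬ (1 : Fin 2) = 0
          decide)
      have e2 : η' ((A ⊗ Δ[1] : SSet.{0}).δ 1 (SSet.ι₁.app _ e)) = η (A.δ 1 e) := 
        if_neg (by
          show ¬ (1 : Fin 2) = 0
          decide)
      rw [e1, e2]
      have e3 : cval pr (SSet.ι₁.app _ e) = cval g e := rfl
      rw [e3, ← hη]
      simp
    · ext n x
      exact x.1.2.elim

end Pool.Agent.H752.CE
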