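import Pool.Agent.H752.CE.Mitotic

/-!
# Surjections with acyclic kernel induce isomorphisms in homology
-/

set_option autoImplicit false

namespace Pool.Agent.H752.CE

open Finsupp

/-- acyclicity with all trivial coefficients -/
def Acyc (N : Type) [Group N] : Prop :=
  ∀ (A : Type) [AddCommGroup A] (n : ℕ) (y : T (n + 1) N (Triv A)), dd n y = 0 →
    ∃ w, y = dd (n + 1) w

lemma acyc_of_mitotic {N : Type} [Group N] (hN : Mitotic N) : Acyc N :=
  fun _ _ _ y hy => mitotic_acyclic hN y hy

lemma acyc_of_subsingleton (N : Type) [Group N] [Subsingleton N] : Acyc N :=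
  acyc_of_mitotic fun _ => ⟨⊤, 1, 1, fun _ _ => Subgroup.mem_top _,
    fun _ _ => Subsingleton.elim _ _, fun _ => Subsingleton.elim _ _⟩

lemma Acyc.of_trivial {N : Type} [Group N] (hN : Acyc N) {M : Type} [AddCommGroup M]
    [DistribMulAction N M] (hM : ∀ (g : N) (m : M), g • m = m) {n : ℕ} (y : T (n + 1) N M)
    (hy : dd n y = 0) : ∃ w, y = dd (n + 1) w := by
  let c : M →+ Triv M := AddMonoidHom.id M
  let c' : Triv M →+ M := AddMonoidHom.id M
  have hc : ∀ (g : N) (m : M), c (g • m) = (MonoidHom.id N) g • c m := fun g m => by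
    rw [hM]; rfl
  have hc' : ∀ (g : N) (m : Triv M), c' (g • m) = (MonoidHom.id N) g • c' m := fun g m => by
    rw [hM]; rfl
  have h1 := dd_map (n := n) (MonoidHom.id N) c hc y
  rw [hy, map_zero] at h1
  obtain ⟨w, hw⟩ := hN M n _ h1
  refine ⟨map (MonoidHom.id N) c' w, ?_⟩
  rw [dd_map (n := n + 1) (MonoidHom.id N) c' hc', ← hw, map_map]
  exact (map_id' y).symm

section kernel

variable {Γ Q : Type} [Group Γ] [Group Q] (π : Γ →* Q) {S : Type} [MulAction Γ S] [MulAction Q S]

def Inj (n : ℕ) (M : Type) [AddCommGroup M] [DistribMulAction Γ M] [DistribMulAction Q M] : Prop :=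
  ∀ z : T n Γ M, Cyc n z → (∃ w : T (n + 1) Q M, map π (AddMonoidHom.id M) z = dd n w) →
    ∃ v : T (n + 1) Γ M, z = dd n v

def Surj (n : ℕ) (M : Type) [AddCommGroup M] [DistribMulAction Γ M] [DistribMulAction Q M] :
    Prop :=
  ∀ y : T n Q M, Cyc n y → ∃ z : T n Γ M, Cyc n z ∧
    ∃ w : T (n + 1) Q M, y = map π (AddMonoidHom.id M) z + dd n w

lemma induced_cycle_boundary {G : Type} [Group G] [MulAction G S] {M : Type} [AddCommGroup M]
    [DistribMulAction G M] {s₀ : S} {σ : S → G} (hσ : ∀ s, σ s • s₀ = s)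
    (hst : Acyc (MulAction.stabilizer G s₀))
    (hM : ∀ (g : MulAction.stabilizer G s₀) (m : M), g • m = m)
    {n : ℕ} (y : T (n + 1) G (Ind S M)) (hy : dd n y = 0) : ∃ w, y = dd (n + 1) w := by
  obtain ⟨z, w, hz, hzw⟩ := shapiro hσ y hy
  obtain ⟨v, hv⟩ := hst.of_trivial hM z hz
  have hc : ∀ (g : MulAction.stabilizer G s₀) (m : M),
      (Ind.sg s₀ (g • m) : Ind S M) = (MulAction.stabilizer G s₀).subtype g • Ind.sg s₀ m := by
    intro g m
    have : (g : G) • s₀ = s₀ := g.2
    simp only [Subgroup.coe_subtype, Ind.smul_sg, this]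
    rfl
  refine ⟨map Subtype.val (Ind.sg s₀) v + w, ?_⟩
  rw [hzw, map_add]
  congr 1
  have := dd_map (n := n + 1) (MulAction.stabilizer G s₀).subtype (Ind.sg (M := M) (S := S) s₀)
    hc v
  rw [← hv] at this
  exact this.symm

variable (hS : ∀ (g : Γ) (s : S), g • s = π g • s) (hπ : Function.Surjective π)
  (s₀ : S) (hstQ : ∀ q : Q, q • s₀ = s₀ → q = 1)
  (σ : S → Γ) (hσ : ∀ s, σ s • s₀ = s)
  (hA : Acyc (MulAction.stabilizer Γ s₀))

include hS hπ hstQ hσ hA in
theorem inj_surj (n : ℕ) : ∀ (M : Type) [AddCommGroup M] [DistribMulAction Γ M]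
    [DistribMulAction Q M] (_ : ∀ (g : Γ) (m : M), g • m = π g • m), Inj π n M ∧ Surj π n M := by
  induction n with
  | zero =>
    intro M _ _ _ hM
    constructor
    · rintro z - ⟨w, hw⟩
      obtain ⟨s, hs⟩ := hπ.hasRightInverse
      refine ⟨map s (AddMonoidHom.id M) w, ?_⟩
      have h1 : map (fun _ : Q => (1 : Γ)) (AddMonoidHom.id M) (map π (AddMonoidHom.id M) z)
          = z := by
        rw [map_map, map_zero_deg _ id]; exact map_id' z
      have h2 : ∀ y : T 0 Γ M, map (fun _ : Q => (1 : Γ)) (AddMonoidHom.id M)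
          (map π (AddMonoidHom.id M) y) = y := by
        intro y
        rw [map_map, map_zero_deg _ id]; exact map_id' y
      have h3 : map π (AddMonoidHom.id M) (map s (AddMonoidHom.id M) w) = w := by
        rw [map_map]
        have : π ∘ s = id := funext hs
        rw [this]; exact map_id' w
      have h4 := dd_map (n := 0) π (AddMonoidHom.id M) hM (map s (AddMonoidHom.id M) w)
      rw [h3, ← hw] at h4
      rw [← h1, h4, h2]
    · intro y _
      refine ⟨map (fun _ => 1) (AddMonoidHom.id M) y, trivial, 0, ?_⟩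
      rw [map_map, map_zero_deg _ id, map_zero, add_zero]
      exact (map_id' y).symm
  | succ n ih =>
    intro M _ _ _ hM
    let ε : Ind S M →+ M := Ind.aug
    have hεΓ : ∀ (g : Γ) f, ε (g • f) = g • ε f := fun g f => Ind.aug_smul g f
    have hεQ : ∀ (g : Q) f, ε (g • f) = g • ε f := fun g f => Ind.aug_smul g f
    let _ : DistribMulAction Γ ε.ker := kerAction ε hεΓ
    let _ : DistribMulAction Q ε.ker := kerAction ε hεQ
    have hF : ∀ (g : Γ) (f : Ind S M), g • f = π g • f := by
      intro g f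
      refine Ind.induction (p := fun f : Ind S M => g • f = π g • f) f
        (by rw [smul_zero, smul_zero]) (fun f f' hf hf' => ?_) (fun s m => ?_)
      · rw [smul_add, smul_add, hf, hf']
      · rw [Ind.smul_sg, Ind.smul_sg, hM, hS]
    have hK : ∀ (g : Γ) (f : ε.ker), g • f = π g • f := fun g f => Subtype.ext (hF g f)
    have haugsg : (ε.comp (Ind.sg s₀) : M →+ M) = AddMonoidHom.id M := by
      ext m; simp [ε]
    have haugsub : (ε.comp ε.ker.subtype : ε.ker →+ M) = 0 := by
      ext f; exact f.2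
    have hz0 : ∀ (V : Type) (k : ℕ) (y : T k V ε.ker), map id ε (map id ε.ker.subtype y) = 0 := by
      intro V k y
      ext x
      rw [map_id_apply, map_id_apply]
      exact (y x).2
    have hlift : ∀ (V : Type) (k : ℕ) (y : T k V M), map id ε (map id (Ind.sg s₀) y) = y := by
      intro V k y
      rw [map_map, haugsg]; exact map_id' y
    have hsubΓ : ∀ (k : ℕ) (z : T (k + 1) Γ ε.ker),
        dd k (map id ε.ker.subtype z) = map id ε.ker.subtype (dd k z) := fun k z =>
      dd_map (n := k) (MonoidHom.id Γ) ε.ker.subtype (fun g f => rfl) z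
    have hsubQ : ∀ (k : ℕ) (z : T (k + 1) Q ε.ker),
        dd k (map id ε.ker.subtype z) = map id ε.ker.subtype (dd k z) := fun k z =>
      dd_map (n := k) (MonoidHom.id Q) ε.ker.subtype (fun g f => rfl) z
    have hεddΓ : ∀ (k : ℕ) (z : T (k + 1) Γ (Ind S M)),
        dd k (map id ε z) = map id ε (dd k z) := fun k z =>
      dd_map (n := k) (MonoidHom.id Γ) ε hεΓ z
    have hεddQ : ∀ (k : ℕ) (z : T (k + 1) Q (Ind S M)),
        dd k (map id ε z) = map id ε (dd k z) := fun k z =>
      dd_map (n := k) (MonoidHom.id Q) ε hεQ z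
    have hπM : ∀ (k : ℕ) (z : T (k + 1) Γ M),
        dd k (map π (AddMonoidHom.id M) z) = map π (AddMonoidHom.id M) (dd k z) := fun k z =>
      dd_map (n := k) π (AddMonoidHom.id M) hM z
    have hπF : ∀ (k : ℕ) (z : T (k + 1) Γ (Ind S M)),
        dd k (map π (AddMonoidHom.id _) z) = map π (AddMonoidHom.id _) (dd k z) := fun k z =>
      dd_map (n := k) π (AddMonoidHom.id _) hF z
    have hsubπ : ∀ (k : ℕ) (z : T k Γ ε.ker),
        map id ε.ker.subtype (map π (AddMonoidHom.id ε.ker) z)
          = map π (AddMonoidHom.id _) (map id ε.ker.subtype z) := by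
      intro k z
      rw [map_map, map_map]
      congr 1
    have hsgπ : ∀ (k : ℕ) (z : T k Γ M),
        map id (Ind.sg s₀) (map π (AddMonoidHom.id M) z)
          = map π (AddMonoidHom.id _) (map id (Ind.sg s₀) z) := by
      intro k z
      rw [map_map, map_map]
      congr 1
    have hεπ : ∀ (k : ℕ) (z : T k Γ (Ind S M)),
        map id ε (map π (AddMonoidHom.id _) z)
          = map π (AddMonoidHom.id _) (map id ε z) := by
      intro k z
      rw [map_map, map_map]
      congr 1
    have hsubinj : ∀ (V : Type) (k : ℕ),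
        Function.Injective (map (n := k) (id : V → V) ε.ker.subtype) := fun V k =>
      map_injective Function.injective_id Subtype.val_injective
    have hstM : ∀ (g : MulAction.stabilizer Γ s₀) (m : M), g • m = m := by
      intro g m
      have h1 : (g : Γ) • s₀ = s₀ := g.2
      rw [hS] at h1
      show (g : Γ) • m = m
      rw [hM, hstQ _ h1, one_smul]
    have hstM' : ∀ (g : MulAction.stabilizer Q s₀) (m : M), g • m = m := by
      intro g m
      show (g : Q) • m = m
      rw [hstQ _ g.2, one_smul]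
    have : Subsingleton (MulAction.stabilizer Q s₀) := ⟨fun a b => Subtype.ext (by
      rw [hstQ _ a.2, hstQ _ b.2])⟩
    have hbΓ : ∀ {k : ℕ} (y : T (k + 1) Γ (Ind S M)), dd k y = 0 → ∃ w, y = dd (k + 1) w :=
      fun y hy => induced_cycle_boundary hσ hA hstM y hy
    have hbQ : ∀ {k : ℕ} (y : T (k + 1) Q (Ind S M)), dd k y = 0 → ∃ w, y = dd (k + 1) w :=
      fun y hy => induced_cycle_boundary (σ := fun s => π (σ s))
        (fun s => by rw [← hS, hσ]) (acyc_of_subsingleton _) hstM' y hy
    obtain ⟨ihK1, ihK2⟩ := ih ε.ker hK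
    obtain ⟨ihF1, -⟩ := ih (Ind S M) hF
    constructor
    · rintro z hz ⟨w, hw⟩
      have hz' : dd n z = 0 := hz
      obtain ⟨κ, hκ⟩ := exists_kernel_chain ε (dd n (map id (Ind.sg s₀) z)) (by
        rw [← hεddΓ, hlift, hz'])
      have hcyc : Cyc n κ := by
        cases n with
        | zero => trivial
        | succ n =>
          show dd n κ = 0
          apply hsubinj
          rw [map_zero, ← hsubΓ, hκ, dd_dd]
      obtain ⟨μ, hμ⟩ := exists_kernel_chain ε
        (map π (AddMonoidHom.id _) (map id (Ind.sg s₀) z) - dd (n + 1) (map id (Ind.sg s₀) w)) (by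
        rw [map_sub, hεπ, hlift, ← hεddQ, hlift, hw, sub_self])
      obtain ⟨lam, hlam⟩ := ihK1 κ hcyc ⟨μ, by
        apply hsubinj
        rw [hsubπ, hκ, ← hsubQ, hμ, map_sub, dd_dd, sub_zero, hπF]⟩
      obtain ⟨v, hv⟩ := hbΓ (map id (Ind.sg s₀) z - map id ε.ker.subtype lam) (by
        rw [map_sub, hsubΓ, ← hκ, hlam, sub_self])
      refine ⟨map id ε v, ?_⟩
      rw [hεddΓ, ← hv, map_sub, hz0, hlift, sub_zero]
    · intro y hy
      have hy' : dd n y = 0 := hy
      obtain ⟨κ, hκ⟩ := exists_kernel_chain ε (dd n (map id (Ind.sg s₀) y)) (by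
        rw [← hεddQ, hlift, hy'])
      have hcyc : Cyc n κ := by
        cases n with
        | zero => trivial
        | succ n =>
          show dd n κ = 0
          apply hsubinj
          rw [map_zero, ← hsubQ, hκ, dd_dd]
      obtain ⟨x, hx, μ, hμ⟩ := ihK2 κ hcyc
      have hcycx : Cyc n (map id ε.ker.subtype x) := by
        cases n with
        | zero => trivial
        | succ n =>
          show dd n _ = 0
          have hx' : dd n x = 0 := hx
          rw [hsubΓ, hx', map_zero]
      have hπx : map π (AddMonoidHom.id _) (map id ε.ker.subtype x)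
          = dd n (map id (Ind.sg s₀) y - map id ε.ker.subtype μ) := by
        rw [← hsubπ, map_sub, ← hκ, hμ, map_add, hsubQ]
        abel
      obtain ⟨ξ, hξ⟩ := ihF1 _ hcycx ⟨_, hπx⟩
      refine ⟨map id ε ξ, ?_, ?_⟩
      · show dd n _ = 0
        rw [hεddΓ, ← hξ, hz0]
      · obtain ⟨ν, hν⟩ := hbQ (map π (AddMonoidHom.id _) ξ -
          (map id (Ind.sg s₀) y - map id ε.ker.subtype μ)) (by
          rw [map_sub, hπF, ← hξ, hπx, sub_self])
        refine ⟨- map id ε ν, ?_⟩
        rw [map_neg, hεddQ, ← hν, map_sub, map_sub, hz0, hlift, hεπ]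
        abel

end kernel

section main

/-- **A surjection with mitotic kernel is a homology isomorphism** for all trivial coefficients. -/
theorem kernel_iso {Γ Q : Type} [Group Γ] [Group Q] (π : Γ →* Q) (hπ : Function.Surjective π)
    (hN : Acyc π.ker) (A : Type) [AddCommGroup A] (n : ℕ) :
    (∀ z : T (n + 1) Γ (Triv A), dd n z = 0 →
      (∃ w : T (n + 2) Q (Triv A), map π (AddMonoidHom.id _) z = dd (n + 1) w) →
      ∃ v, z = dd (n + 1) v) ∧
    (∀ y : T (n + 1) Q (Triv A), dd n y = 0 → ∃ z : T (n + 1) Γ (Triv A), dd n z = 0 ∧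
      ∃ w, y = map π (AddMonoidHom.id _) z + dd (n + 1) w) := by
  let _ : MulAction Γ Q := MulAction.compHom Q π
  obtain ⟨σ, hσ⟩ := hπ.hasRightInverse
  have hst : Acyc (MulAction.stabilizer Γ (1 : Q)) := by
    have e : MulAction.stabilizer Γ (1 : Q) = π.ker := by
      ext g
      rw [MulAction.mem_stabilizer_iff, MonoidHom.mem_ker]
      show π g * 1 = 1 ↔ _
      rw [mul_one]
    rw [e]; exact hN
  have := inj_surj π (S := Q) (fun g s => rfl) hπ 1 (fun q hq => by simpa using hq) σ
    (fun s => by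
      show π (σ s) * 1 = s
      rw [mul_one, hσ]) hst (n + 1) (Triv A) (fun _ _ => rfl)
  exact this

end main

end Pool.Agent.H752.CE
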