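import Pool.Agent.H752.CE.Main

/-!
# The loop space of the nerve of a group
-/

set_option autoImplicit false

namespace Pool.Agent.H752.CE

open CategoryTheory Simplicial Opposite Limits MonoidalCategory CartesianMonoidalCategory

/-- the constant simplicial set (discrete space) -/
abbrev disc (S : Type) : SSet.{0} := (Functor.const SimplexCategoryᵒᵖ).obj S

section cyl

variable {G : Type} [Group G] {A : SSet.{0}}

/-- the nondegenerate edge of `Δ[1]` -/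
def iot1 : (Δ[1] : SSet.{0}) _⦋1⦌ := SSet.stdSimplex.objEquiv.symm (𝟙 _)

lemma cyl_edge (h : (A ⊗ Δ[1] : SSet.{0}) ⟶ BB G) (e : A _⦋1⦌) :
    cval h (e, iot1) = cval h (A.σ 0 (A.δ 0 e), iot1) * cval (SSet.ι₀ ≫ h) e ∧
    cval h (e, iot1) = cval (SSet.ι₁ ≫ h) e * cval h (A.σ 0 (A.δ 1 e), iot1) := by
  have h1 := cval_coc h (A.σ 1 e, (Δ[1] : SSet.{0}).σ 0 iot1)
  have h2 := cval_coc h (A.σ 0 e, (Δ[1] : SSet.{0}).σ 1 iot1)
  have a1 : (A ⊗ Δ[1] : SSet.{0}).δ 1 (A.σ 1 e, (Δ[1] : SSet.{0}).σ 0 iot1) = (e, iot1) :=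
    Prod.ext (SSet.δ_comp_σ_self_apply (S := A) 1 e)
      (SSet.δ_comp_σ_succ_apply (S := Δ[1]) 0 iot1)
  have a2 : (A ⊗ Δ[1] : SSet.{0}).δ 0 (A.σ 1 e, (Δ[1] : SSet.{0}).σ 0 iot1)
      = (A.σ 0 (A.δ 0 e), iot1) :=
    Prod.ext (SSet.δ_comp_σ_of_le_apply (S := A) (i := 0) (j := 0) le_rfl e)
      (SSet.δ_comp_σ_self_apply (S := Δ[1]) 0 iot1)
  have a3 : (A ⊗ Δ[1] : SSet.{0}).δ 2 (A.σ 1 e, (Δ[1] : SSet.{0}).σ 0 iot1)
      = SSet.ι₀.app _ e := by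
    refine Prod.ext (SSet.δ_comp_σ_succ_apply (S := A) 1 e) ?_
    refine (SSet.δ_comp_σ_of_gt_apply (S := Δ[1]) (i := 1) (j := 0) (by simp) iot1).trans ?_
    apply SSet.stdSimplex.ext
    intro k
    fin_cases k <;> rfl
  have b1 : (A ⊗ Δ[1] : SSet.{0}).δ 1 (A.σ 0 e, (Δ[1] : SSet.{0}).σ 1 iot1) = (e, iot1) :=
    Prod.ext (SSet.δ_comp_σ_succ_apply (S := A) 0 e)
      (SSet.δ_comp_σ_self_apply (S := Δ[1]) 1 iot1)
  have b2 : (A ⊗ Δ[1] : SSet.{0}).δ 2 (A.σ 0 e, (Δ[1] : SSet.{0}).σ 1 iot1)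
      = (A.σ 0 (A.δ 1 e), iot1) :=
    Prod.ext (SSet.δ_comp_σ_of_gt_apply (S := A) (i := 1) (j := 0) (by simp) e)
      (SSet.δ_comp_σ_succ_apply (S := Δ[1]) 1 iot1)
  have b3 : (A ⊗ Δ[1] : SSet.{0}).δ 0 (A.σ 0 e, (Δ[1] : SSet.{0}).σ 1 iot1)
      = SSet.ι₁.app _ e := by
    refine Prod.ext (SSet.δ_comp_σ_self_apply (S := A) 0 e) ?_
    refine (SSet.δ_comp_σ_of_le_apply (S := Δ[1]) (i := 0) (j := 0) le_rfl iot1).trans ?_
    apply SSet.stdSimplex.ext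
    intro k
    fin_cases k <;> rfl
  rw [a1, a2, a3] at h1
  rw [b1, b2, b3] at h2
  exact ⟨h1, h2⟩

lemma edge_cases (ε : (Δ[1] : SSet.{0}) _⦋1⦌) :
    ε = iot1 ∨ (∀ k, ε k = 0) ∨ (∀ k, ε k = 1) := by
  have h01 : ε 0 ≤ ε 1 := SSet.stdSimplex.monotone_apply ε (by simp)
  have h2 : ∀ a : Fin 2, a = 0 ∨ a = 1 := by decide
  have h0 : ε 0 = 0 ∨ ε 0 = 1 := h2 _
  have h1 : ε 1 = 0 ∨ ε 1 = 1 := h2 _
  rcases h0 with h0 | h0 <;> rcases h1 with h1 | h1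
  · right; left; intro k; fin_cases k <;> assumption
  · left; apply SSet.stdSimplex.ext; intro k; fin_cases k <;> assumption
  · rw [h0, h1] at h01; exact absurd h01 (by decide)
  · right; right; intro k; fin_cases k <;> assumption

lemma cval_const_eq {h : (A ⊗ Δ[1] : SSet.{0}) ⟶ BB G} {b : (BB G) _⦋0⦌}
    (h0 : SSet.ι₀ ≫ h = SSet.const b) (h1 : SSet.ι₁ ≫ h = SSet.const b) (e : A _⦋1⦌)
    (ε : (Δ[1] : SSet.{0}) _⦋1⦌) (hε : ε ≠ iot1) : cval h (e, ε) = 1 := by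
  rcases edge_cases ε with h' | h' | h'
  · exact absurd h' hε
  · have e1 : (e, ε) = (SSet.ι₀.app (op ⦋1⦌) e : (A ⊗ Δ[1] : SSet.{0}) _⦋1⦌) :=
      Prod.ext rfl (SSet.stdSimplex.ext _ _ fun k => h' k)
    rw [e1, ← cval_comp, h0, cval_const]
  · have e1 : (e, ε) = (SSet.ι₁.app (op ⦋1⦌) e : (A ⊗ Δ[1] : SSet.{0}) _⦋1⦌) :=
      Prod.ext rfl (SSet.stdSimplex.ext _ _ fun k => h' k)
    rw [e1, ← cval_comp, h1, cval_const]

end cyl

section loops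

variable {G : Type} [Group G] (b : (BB G) _⦋0⦌)

lemma vertex_const {n : ℕ} (x : (Δ[n] : SSet.{0}) _⦋0⦌) (y : (Δ[n] : SSet.{0}) _⦋0⦌)
    {h : (Δ[n] ⊗ Δ[1] : SSet.{0}) ⟶ BB G}
    (h0 : SSet.ι₀ ≫ h = SSet.const b) (h1 : SSet.ι₁ ≫ h = SSet.const b) :
    cval h ((Δ[n] : SSet.{0}).σ 0 x, iot1) = cval h ((Δ[n] : SSet.{0}).σ 0 y, iot1) := by
  wlog hxy : x 0 ≤ y 0
  · exact (this b y x h0 h1 (le_of_not_ge hxy)).symm
  obtain ⟨e1, e2⟩ := cyl_edge h (SSet.stdSimplex.edge n (x 0) (y 0) hxy)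
  rw [h0, cval_const, mul_one] at e1
  rw [h1, cval_const, one_mul] at e2
  have ex : (Δ[n] : SSet.{0}).δ 1 (SSet.stdSimplex.edge n (x 0) (y 0) hxy) = x :=
    SSet.stdSimplex.ext _ _ fun k => by fin_cases k; rfl
  have ey : (Δ[n] : SSet.{0}).δ 0 (SSet.stdSimplex.edge n (x 0) (y 0) hxy) = y :=
    SSet.stdSimplex.ext _ _ fun k => by fin_cases k; rfl
  rw [ey] at e1
  rw [ex] at e2
  exact e2.symm.trans e1

/-- the vertex `0` -/
def v0 (n : ℕ) : (Δ[n] : SSet.{0}) _⦋0⦌ := SSet.stdSimplex.obj₀Equiv.symm 0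

/-- the group element of a loop -/
noncomputable def lval (U : SimplexCategoryᵒᵖ) (h : (Loops (BB G) b).obj U) : G :=
  cval (A := (Δ[U.unop.len] ⊗ Δ[1] : SSet.{0})) h.1 ((Δ[U.unop.len] : SSet.{0}).σ 0 (v0 _), iot1)

lemma cval_loop (U : SimplexCategoryᵒᵖ) (h : (Loops (BB G) b).obj U)
    (e : (Δ[U.unop.len] : SSet.{0}) _⦋1⦌) :
    cval (A := (Δ[U.unop.len] ⊗ Δ[1] : SSet.{0})) h.1 (e, iot1) = lval b U h := by
  have e1 := (cyl_edge (A := (Δ[U.unop.len] : SSet.{0})) h.1 e).1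
  have h2 : cval (SSet.ι₀ ≫ h.1) e = 1 :=
    (congrArg (fun f => cval f e) h.2.1).trans (cval_const _ _ _)
  rw [e1, h2, mul_one]
  exact vertex_const b _ _ h.2.1 h.2.2

lemma lval_bijective (U : SimplexCategoryᵒᵖ) : Function.Bijective (lval (G := G) b U) := by
  constructor
  · intro h h' hh
    apply Subtype.ext
    refine hom_ext_cval (A := (Δ[U.unop.len] ⊗ Δ[1] : SSet.{0})) ?_
    rintro ⟨e, ε⟩
    by_cases hε : ε = iot1
    · subst hε
      rw [cval_loop b U h, cval_loop b U h', hh]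
    · rw [cval_const_eq (A := (Δ[U.unop.len] : SSet.{0})) h.2.1 h.2.2 e ε hε,
        cval_const_eq (A := (Δ[U.unop.len] : SSet.{0})) h'.2.1 h'.2.2 e ε hε]
  · intro g
    have hv : ∀ v v' : (BB G) _⦋0⦌, v = v' := fun v v' => simplex_ext (n := 0) fun i j hij => by
      have hi : i = 0 := by omega
      have hj : j = 0 := by omega
      subst hi hj
      exact (arr_self (n := 0) v 0).trans (arr_self (n := 0) v' 0).symm
    let q : (Δ[1] : SSet.{0}) ⟶ BB G := SSet.yonedaEquiv.symm (gedge g)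
    refine ⟨⟨snd (SSet.stdSimplex.obj U.unop) Δ[1] ≫ q, ?_, ?_⟩, ?_⟩
    · rw [SSet.ι₀_snd_assoc, SSet.const_comp]
      exact congrArg _ (hv _ _)
    · rw [SSet.ι₁_snd_assoc, SSet.const_comp]
      exact congrArg _ (hv _ _)
    · show cval q iot1 = g
      have : q.app (op ⦋1⦌) iot1 = gedge g := by
        show (BB G).map (𝟙 _) (gedge g) = gedge g
        rw [CategoryTheory.Functor.map_id]
        rfl
      unfold cval
      rw [this]
      exact arr_gedge g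

/-- **The loop space of `BG` is the discrete space `G`.** -/
noncomputable def loopsIso : Loops (BB G) b ≅ disc G :=
  NatIso.ofComponents (fun U => (Equiv.ofBijective _ (lval_bijective b U)).toIso) (by
    intro U V θ
    ext h
    show lval b V ((Loops (BB G) b).map θ h) = lval b U h
    have h1 := cval_loop b U h ((SSet.stdSimplex.map θ.unop).app (op ⦋1⦌)
      ((Δ[V.unop.len] : SSet.{0}).σ 0 (v0 _)))
    exact h1)

end loops

end Pool.Agent.H752.CE
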