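import Pool.Agent.H752.CE.Poly

/-!
# Mitotic groups are acyclic (Baumslag, Dyer, Heller)
-/

set_option autoImplicit false

namespace Pool.Agent.H752.CE

open Finsupp

/-- the trivial module -/
def Triv (A : Type) : Type := A

instance (A : Type) [h : AddCommGroup A] : AddCommGroup (Triv A) := h

instance (A G : Type) [AddCommGroup A] [Group G] : DistribMulAction G (Triv A) where
  smul _ a := a
  one_smul _ := rfl
  mul_smul _ _ _ := rfl
  smul_zero _ := rfl
  smul_add _ _ _ := rfl

lemma Triv.smul_def {A G : Type} [AddCommGroup A] [Group G] (g : G) (a : Triv A) : g • a = a := rfl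

section ones

variable {A : Type} [AddCommGroup A] {G H : Type} [Group G] [Group H]

noncomputable def ones (n : ℕ) : Triv A →+ T n G (Triv A) := singleAddHom (fun _ => 1)

lemma cns_ones {n : ℕ} (a : Triv A) : cns (1 : G) (ones n a) = ones (n + 1) a := by
  unfold ones
  rw [singleAddHom_apply, cns_single, singleAddHom_apply]
  congr 1
  funext i
  refine Fin.cases rfl (fun j => rfl) i

lemma bd_ones (n : ℕ) :
    (∀ a : Triv A, bd n (ones (G := G) (n + 1) a) = ones n a ∧
      bd (n + 1) (ones (G := G) (n + 2) a) = 0) ∨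
    (∀ a : Triv A, bd n (ones (G := G) (n + 1) a) = 0 ∧
      bd (n + 1) (ones (G := G) (n + 2) a) = ones (n + 1) a) := by
  induction n with
  | zero =>
    left
    intro a
    constructor
    · rw [← cns_ones, bd_zero_cns]
    · rw [← cns_ones, bd_succ_cns, ← cns_ones, bd_zero_cns, cns_ones, sub_self]
  | succ n ih =>
    rcases ih with h | h
    · right
      intro a
      refine ⟨(h a).2, ?_⟩
      rw [← cns_ones, bd_succ_cns, (h a).2, map_zero, sub_zero]
    · left
      intro a
      refine ⟨(h a).2, ?_⟩
      rw [← cns_ones, bd_succ_cns, (h a).2, cns_ones, sub_self]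

lemma nor_ones {n : ℕ} (a : Triv A) : nor n (ones (G := G) (n + 1) a) = ones n a := by
  rw [← cns_ones, nor_cns, inv_one, act_one]

omit [Group G] in
lemma map_one_eq {n : ℕ} (y : T n G (Triv A)) :
    ∃ a : Triv A, map (fun _ : G => (1 : H)) (AddMonoidHom.id (Triv A)) y = ones n a := by
  induction y using Finsupp.induction_linear with
  | zero => exact ⟨0, by simp⟩
  | add y z hy hz =>
    obtain ⟨a, ha⟩ := hy
    obtain ⟨b, hb⟩ := hz
    exact ⟨a + b, by rw [map_add, ha, hb, map_add]⟩
  | single x m => exact ⟨m, by rw [map_single]; rfl⟩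

lemma map_one_boundary {n : ℕ} (y : T (n + 1) G (Triv A)) (hy : dd n y = 0) :
    ∃ w : T (n + 2) H (Triv A),
      map (fun _ : G => (1 : H)) (AddMonoidHom.id (Triv A)) y = dd (n + 1) w := by
  obtain ⟨a, ha⟩ := map_one_eq (H := H) y
  have hc : dd n (map (fun _ : G => (1 : H)) (AddMonoidHom.id (Triv A)) y) = 0 := by
    have := dd_map (n := n) (1 : G →* H) (AddMonoidHom.id (Triv A)) (fun _ _ => rfl) y
    rw [hy, map_zero] at this
    exact this
  rw [ha, dd_apply, nor_ones] at hc
  rw [ha]
  rcases bd_ones (A := A) (G := H) n with h | h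
  · refine ⟨ones (n + 2) a, ?_⟩
    rw [dd_apply, nor_ones, (h a).2, sub_zero]
  · refine ⟨0, ?_⟩
    rw [(h a).1, sub_zero] at hc
    have : a = 0 := Finsupp.single_eq_zero.1 hc
    rw [this, map_zero, map_zero]

end ones

/-- mitotic groups -/
def Mitotic (N : Type) [Group N] : Prop :=
  ∀ X : Finset N, ∃ (K : Subgroup N) (d : K →* N) (u : N), (∀ x ∈ X, x ∈ K) ∧
    (∀ a b : K, (a : N) * d b = d b * a) ∧ ∀ a : K, u * d a * u⁻¹ = a * d a

section mitosis

variable {N : Type} [Group N]

/-- chains of commuting homomorphisms, each conjugate to its product with the inclusion -/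
def Good (X₀ : Finset N) (H : Subgroup N) : Set N → List ((H →* N) × N) → Prop
  | _, [] => True
  | X, (α, u) :: t => (∀ x ∈ X, ∀ h, x * α h = α h * x) ∧ (∀ h : H, u * α h * u⁻¹ = h * α h) ∧
      Good X₀ H (insert u (X ∪ {x | ∃ h : H, (h : N) ∈ X₀ ∧ α h = x})) t

lemma exists_good (hN : Mitotic N) (X₀ : Finset N) (r : ℕ) (X : Finset N) (hX : X₀ ⊆ X) :
    ∃ l : List ((Subgroup.closure (X₀ : Set N) →* N) × N), l.length = r ∧
      Good X₀ (Subgroup.closure (X₀ : Set N)) (X : Set N) l := by
  classical
  induction r generalizing X with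
  | zero => exact ⟨[], rfl, trivial⟩
  | succ r ih =>
    obtain ⟨K, d, u, h1, h2, h3⟩ := hN X
    have hK : Subgroup.closure (X₀ : Set N) ≤ K := by
      rw [Subgroup.closure_le]
      intro x hx
      exact h1 x (hX hx)
    let α : Subgroup.closure (X₀ : Set N) →* N := d.comp (Subgroup.inclusion hK)
    let X' : Finset N := insert u (X ∪ X₀.attach.image fun x =>
      α ⟨x.1, Subgroup.subset_closure x.2⟩)
    obtain ⟨t, ht1, ht2⟩ := ih X' (fun x hx => by
      simp only [X', Finset.mem_insert, Finset.mem_union]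
      exact Or.inr (Or.inl (hX hx)))
    refine ⟨(α, u) :: t, by simp [ht1], ?_, ?_, ?_⟩
    · intro x hx h
      exact h2 ⟨x, h1 x hx⟩ (Subgroup.inclusion hK h)
    · intro h
      exact h3 (Subgroup.inclusion hK h)
    · convert ht2 using 1
      ext x
      simp only [X', Finset.coe_insert, Finset.coe_union, Finset.coe_image,
        Set.mem_insert_iff, Set.mem_union, Set.mem_ofPred_eq, Set.mem_image, Finset.mem_coe,
        Finset.mem_attach, true_and, Subtype.exists]
      constructor
      · rintro (h | h | ⟨a, ha, ha2, rfl⟩)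
        · exact Or.inl h
        · exact Or.inr (Or.inl h)
        · exact Or.inr (Or.inr ⟨a, ha2, rfl⟩)
      · rintro (h | h | ⟨a, ha, rfl⟩)
        · exact Or.inl h
        · exact Or.inr (Or.inl h)
        · exact Or.inr (Or.inr ⟨a, Subgroup.subset_closure ha, ha, rfl⟩)

lemma good_closure {X₀ : Finset N} {H : Subgroup N} (hH : H = Subgroup.closure (X₀ : Set N))
    (α : H →* N) (X : Set N) (u : N) (h : H) :
    α h ∈ Subgroup.closure (insert u (X ∪ {x | ∃ h : H, (h : N) ∈ X₀ ∧ α h = x})) := by
  subst hH
  have h1 := Subgroup.closure_closure_coe_preimage (k := (X₀ : Set N))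
  have h2 : h ∈ (⊤ : Subgroup (Subgroup.closure (X₀ : Set N))) := Subgroup.mem_top h
  rw [← h1] at h2
  have h3 := Subgroup.mem_map_of_mem α h2
  rw [MonoidHom.map_closure] at h3
  refine Subgroup.closure_mono ?_ h3
  rintro x ⟨y, hy, rfl⟩
  exact Or.inr (Or.inr ⟨y, hy, rfl⟩)

variable {X₀ : Finset N} {H : Subgroup N}

/-- the product of the homomorphisms of the list -/
def Psi : ℕ → List ((H →* N) × N) → (ℕ → H) → N
  | _, [], _ => 1
  | i, (α, _) :: t, g => α (g i) * Psi (i + 1) t g

lemma comm_closure {Y : Set N} {z : N} (h : ∀ x ∈ Y, x * z = z * x) {x : N}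
    (hx : x ∈ Subgroup.closure Y) : x * z = z * x := by
  have : Subgroup.closure Y ≤ Subgroup.centralizer {z} := by
    rw [Subgroup.closure_le]
    intro x hx
    rw [SetLike.mem_coe, Subgroup.mem_centralizer_iff]
    rintro w rfl
    exact (h x hx).symm
  have := (Subgroup.mem_centralizer_iff).1 (this hx) z rfl
  exact this.symm

lemma Psi_comm {X : Set N} {l : List ((H →* N) × N)} (hl : Good X₀ H X l) {x : N}
    (hx : x ∈ Subgroup.closure X) (i : ℕ) (g : ℕ → H) : x * Psi i l g = Psi i l g * x := by
  induction l generalizing X i with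
  | nil => simp [Psi]
  | cons a t ih =>
    obtain ⟨α, u⟩ := a
    obtain ⟨h1, h2, h3⟩ := hl
    have e1 : x * α (g i) = α (g i) * x := comm_closure (fun y hy => h1 y hy (g i)) hx
    have e2 := ih h3 (Subgroup.closure_mono
      (fun y hy => Or.inr (Or.inl hy)) hx) (i + 1)
    simp only [Psi]
    rw [← mul_assoc, e1, mul_assoc, e2, mul_assoc]

lemma Psi_mul (hH : H = Subgroup.closure (X₀ : Set N)) {X : Set N}
    {l : List ((H →* N) × N)} (hl : Good X₀ H X l) (i : ℕ)
    (g g' : ℕ → H) : Psi i l (g * g') = Psi i l g * Psi i l g' := by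
  induction l generalizing X i with
  | nil => simp [Psi]
  | cons a t ih =>
    obtain ⟨α, u⟩ := a
    obtain ⟨h1, h2, h3⟩ := hl
    have e2 := Psi_comm h3 (good_closure hH α X u (g' i)) (i + 1) g
    simp only [Psi, Pi.mul_apply, map_mul, ih h3]
    rw [mul_assoc (α (g i)), ← mul_assoc (α (g' i)), e2]
    simp only [mul_assoc]

lemma Psi_congr {l : List ((H →* N) × N)} {i : ℕ} {g g' : ℕ → H} (h : ∀ j, i ≤ j → g j = g' j) :
    Psi i l g = Psi i l g' := by
  induction l generalizing i with
  | nil => rfl
  | cons a t ih =>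
    obtain ⟨α, u⟩ := a
    simp only [Psi]
    rw [h i le_rfl, ih (fun j hj => h j (by omega))]

/-- kill a coordinate -/
noncomputable def ek (i : ℕ) : (ℕ → H) →* (ℕ → H) where
  toFun g := Function.update g i 1
  map_one' := by
    funext j
    by_cases h : j = i
    · subst h; simp
    · simp [h]
  map_mul' g g' := by
    funext j
    by_cases h : j = i
    · subst h; simp
    · simp [h]

lemma ek_apply (i : ℕ) (g : ℕ → H) : ek i g = Function.update g i 1 := rfl

/-- copy a coordinate to the coordinate `0` -/
noncomputable def cp (i : ℕ) : (ℕ → H) →* (ℕ → H) where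
  toFun g := Function.update g 0 (g i)
  map_one' := by
    funext j
    by_cases h : j = 0
    · subst h; simp
    · simp [h]
  map_mul' g g' := by
    funext j
    by_cases h : j = 0
    · subst h; simp
    · simp [h]

lemma cp_apply (i : ℕ) (g : ℕ → H) : cp i g = Function.update g 0 (g i) := rfl

/-- the functions which are trivial below `i` -/
def Lt (i : ℕ) : Subgroup (ℕ → H) where
  carrier := {g | ∀ j < i, g j = 1}
  one_mem' := fun _ _ => rfl
  mul_mem' := fun {a b} ha hb j hj => by
    have h1 : a j = 1 := ha j hj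
    have h2 : b j = 1 := hb j hj
    simp [h1, h2]
  inv_mem' := fun {a} ha j hj => by
    have h1 : a j = 1 := ha j hj
    simp [h1]

lemma mem_Lt {i : ℕ} {g : ℕ → H} : g ∈ Lt i ↔ ∀ j < i, g j = 1 := Iff.rfl

noncomputable def fl : ℕ → ℕ → List (((ℕ → H) →* (ℕ → H)) × Subgroup (ℕ → H))
  | _, 0 => []
  | i, r + 1 => (ek i, Lt (i + 1)) :: fl (i + 1) r

lemma fl_length (i r : ℕ) : (fl (H := H) i r).length = r := by
  induction r generalizing i with
  | zero => rfl
  | succ r ih => simp [fl, ih]

lemma flag_fl (i r : ℕ) : Flag (Lt (H := H) i) (fl i r) := by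
  induction r generalizing i with
  | zero => trivial
  | succ r ih =>
    refine ⟨?_, ?_, ?_, ?_, ih (i + 1)⟩
    · intro g
      rw [mem_Lt]
      intro j hj
      rw [Pi.mul_apply, ek_apply, Function.update_of_ne (by omega)]
      simp
    · intro g hg
      rw [mem_Lt] at hg
      funext j
      rw [ek_apply]
      by_cases h : j = i
      · subst h; rw [Function.update_self, hg j (by omega)]
      · rw [Function.update_of_ne h]
    · intro g hg j hj
      exact hg j (by omega)
    · refine ⟨fun n hn g j hj => ?_⟩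
      have : n j = 1 := hn j hj
      simp [this]

variable {A : Type} [AddCommGroup A]

lemma DD_fl_cp {n : ℕ} (j : ℕ) (i r : ℕ) (h0 : 0 < j) (hij : j < i)
    (y : T n (ℕ → H) (Triv A)) :
    map (cp j) (AddMonoidHom.id _) (DD (fl i r) y)
      = DD (fl i r) (map (cp j) (AddMonoidHom.id _) y) := by
  induction r generalizing i with
  | zero => rfl
  | succ r ih =>
    simp only [fl, DD_cons, map_sub]
    rw [← ih (i + 1) (by omega), map_map, map_map]
    congr 2
    congr 1
    funext g
    simp only [Function.comp_apply, cp_apply, ek_apply]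
    funext k
    by_cases h1 : k = 0
    · subst h1
      rw [Function.update_self, Function.update_of_ne (by omega), Function.update_of_ne (by omega),
        Function.update_self]
    · rw [Function.update_of_ne h1]
      by_cases h2 : k = i
      · subst h2; rw [Function.update_self, Function.update_self]
      · rw [Function.update_of_ne h2, Function.update_of_ne h2, Function.update_of_ne h1]

lemma core {n : ℕ} (hH : H = Subgroup.closure (X₀ : Set N)) (l : List ((H →* N) × N))
    (X : Set N) (hX : (X₀ : Set N) ⊆ X) (hl : Good X₀ H X l) (i : ℕ) (hi : 0 < i)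
    (y : T (n + 1) (ℕ → H) (Triv A)) (hy : dd n y = 0)
    (hcp : ∀ j, map (cp j) (AddMonoidHom.id _) y = y)
    (h : map (fun g : ℕ → H => (g 0 : N) * Psi i l g) (AddMonoidHom.id _)
        (DD (fl i l.length) y) -
      map (fun g : ℕ → H => Psi i l g) (AddMonoidHom.id _) (DD (fl i l.length) y)
        ∈ (dd (G := N) (M := Triv A) (n + 1)).range) :
    map (fun g : ℕ → H => (g 0 : N)) (AddMonoidHom.id _) y -
      map (fun _ : ℕ → H => (1 : N)) (AddMonoidHom.id _) y
        ∈ (dd (G := N) (M := Triv A) (n + 1)).range := by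
  induction l generalizing X i with
  | nil =>
    simpa [Psi, fl, DD] using h
  | cons a t ih =>
    obtain ⟨α, u⟩ := a
    have hl' := hl
    obtain ⟨h1, h2, h3⟩ := hl
    set X' : Set N := insert u (X ∪ {x | ∃ h : H, (h : N) ∈ X₀ ∧ α h = x}) with hX'
    have hXX' : (X₀ : Set N) ⊆ X' := fun x hx => Or.inr (Or.inl (hX hx))
    refine ih X' hXX' h3 (i + 1) (by omega) ?_
    set y' := DD (fl (H := H) (i + 1) t.length) y with hy'
    have hy'c : dd n y' = 0 := by
      rw [hy', ← DD_dd (Lt (i + 1)) (fun _ _ _ => rfl) _ (flag_fl (i + 1) t.length), hy, map_zero]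
    have hy'cp : map (cp i) (AddMonoidHom.id _) y' = y' := by
      rw [hy', DD_fl_cp i (i + 1) _ hi (by omega), hcp]
    have hstep : DD (fl (H := H) i ((α, u) :: t).length) y
        = y' - map (ek i) (AddMonoidHom.id _) y' := rfl
    -- the two killed terms
    have hk1 : ∀ z : T (n + 1) (ℕ → H) (Triv A),
        map (fun g : ℕ → H => (g 0 : N) * Psi i ((α, u) :: t) g) (AddMonoidHom.id _)
          (map (ek i) (AddMonoidHom.id _) z)
        = map (fun g : ℕ → H => (g 0 : N) * Psi (i + 1) t g) (AddMonoidHom.id _) z := by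
      intro z
      rw [map_map]
      congr 1
      congr 1
      funext g
      simp only [Function.comp_apply, Psi, ek_apply, Function.update_self, map_one, one_mul]
      rw [Function.update_of_ne (by omega)]
      congr 1
      exact Psi_congr fun j hj => Function.update_of_ne (by omega) _ _
    have hk2 : ∀ z : T (n + 1) (ℕ → H) (Triv A),
        map (fun g : ℕ → H => Psi i ((α, u) :: t) g) (AddMonoidHom.id _)
          (map (ek i) (AddMonoidHom.id _) z)
        = map (fun g : ℕ → H => Psi (i + 1) t g) (AddMonoidHom.id _) z := by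
      intro z
      rw [map_map]
      congr 1
      congr 1
      funext g
      simp only [Function.comp_apply, Psi, ek_apply, Function.update_self, map_one, one_mul]
      exact Psi_congr fun j hj => Function.update_of_ne (by omega) _ _
    -- the conjugate terms
    have hconj : map (fun g : ℕ → H => (g 0 : N) * Psi i ((α, u) :: t) g) (AddMonoidHom.id _) y' -
        map (fun g : ℕ → H => Psi i ((α, u) :: t) g) (AddMonoidHom.id _) y'
          ∈ (dd (G := N) (M := Triv A) (n + 1)).range := by
      have e1 : map (fun g : ℕ → H => (g 0 : N) * Psi i ((α, u) :: t) g) (AddMonoidHom.id _) y'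
          = map (fun x => u * x * u⁻¹) (DistribSMul.toAddMonoidHom (Triv A) u)
            (map (fun g : ℕ → H => Psi i ((α, u) :: t) g) (AddMonoidHom.id _) y') := by
        conv_lhs => rw [← hy'cp]
        rw [map_map, map_map]
        congr 1
        congr 1
        funext g
        simp only [Function.comp_apply, cp_apply, Function.update_self]
        have e2 : Psi i ((α, u) :: t) (Function.update g 0 (g i)) = Psi i ((α, u) :: t) g :=
          Psi_congr fun j hj => Function.update_of_ne (by omega) _ _
        rw [e2]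
        simp only [Psi]
        have e3 : u * Psi (i + 1) t g = Psi (i + 1) t g * u :=
          Psi_comm h3 (Subgroup.subset_closure (Or.inl rfl)) _ _
        have e4 : u * (α (g i) * Psi (i + 1) t g) * u⁻¹
            = (u * α (g i) * u⁻¹) * (u * Psi (i + 1) t g * u⁻¹) := by group
        rw [e4, h2, e3]
        group
      rw [e1]
      have hΨ : dd n (map (fun g : ℕ → H => Psi i ((α, u) :: t) g)
          (AddMonoidHom.id (Triv A)) y') = 0 := by
        have := dd_map (n := n) (MonoidHom.mk' (fun g : ℕ → H => Psi i ((α, u) :: t) g)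
          (fun g g' => Psi_mul (X := X) hH hl' i g g')) (AddMonoidHom.id (Triv A))
          (fun _ _ => rfl) y'
        rw [hy'c, map_zero] at this
        exact this
      obtain ⟨w, hw⟩ := conj_homotopic u _ hΨ
      exact ⟨w, hw.symm⟩
    rw [hstep, map_sub, map_sub, hk1, hk2] at h
    have := sub_mem hconj h
    convert this using 1
    abel

/-- Mitotic groups are acyclic. -/
theorem mitotic_acyclic (hN : Mitotic N) {n : ℕ} (y : T (n + 1) N (Triv A)) (hy : dd n y = 0) :
    ∃ w, y = dd (n + 1) w := by
  classical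
  let X₀ : Finset N := y.support.biUnion fun x => Finset.univ.image x
  let H : Subgroup N := Subgroup.closure (X₀ : Set N)
  have hsupp : ∀ x ∈ y.support, ∀ i, x i ∈ H := fun x hx i =>
    Subgroup.subset_closure (Finset.mem_coe.2 (Finset.mem_biUnion.2
      ⟨x, hx, Finset.mem_image.2 ⟨i, Finset.mem_univ i, rfl⟩⟩))
  -- a cycle of `H`
  obtain ⟨z, hz⟩ : ∃ z : T (n + 1) H (Triv A), map Subtype.val (AddMonoidHom.id _) z = y := by
    have : ∀ y' : T (n + 1) N (Triv A), (∀ x ∈ y'.support, ∀ i, x i ∈ H) →
        ∃ z : T (n + 1) H (Triv A), map Subtype.val (AddMonoidHom.id _) z = y' := by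
      intro y'
      induction y' using Finsupp.induction with
      | zero => exact fun _ => ⟨0, by simp⟩
      | single_add x m f hx hm ih =>
        intro h
        have hxs : x ∈ (single x m + f).support := by
          rw [Finsupp.mem_support_iff, Finsupp.add_apply, Finsupp.single_eq_same,
            Finsupp.notMem_support_iff.1 hx, add_zero]
          exact hm
        obtain ⟨z, hz⟩ := ih (fun x' hx' => h x' (by
          have hne : x' ≠ x := fun e => hx (e ▸ hx')
          rw [Finsupp.mem_support_iff, Finsupp.add_apply, Finsupp.single_eq_of_ne hne, zero_add]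
          exact Finsupp.mem_support_iff.1 hx'))
        refine ⟨single (fun i => ⟨x i, h x hxs i⟩) m + z, ?_⟩
        rw [map_add, hz, map_single]
        rfl
    exact this y hsupp
  have hzc : dd n z = 0 := by
    apply map_injective (f := (Subtype.val : H → N)) (c := AddMonoidHom.id (Triv A))
      Subtype.val_injective Function.injective_id
    have := dd_map (n := n) H.subtype (AddMonoidHom.id (Triv A)) (fun _ _ => rfl) z
    rw [map_zero]
    refine this.symm.trans ?_
    have e : map (n := n + 1) H.subtype (AddMonoidHom.id (Triv A)) z = y := hz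
    rw [e, hy]
  obtain ⟨l, hl1, hl2⟩ := exists_good hN X₀ (n + 1) X₀ (Finset.Subset.refl _)
  let Δ : H →* (ℕ → H) := MonoidHom.mk' (fun h _ => h) (fun _ _ => rfl)
  let y₁ : T (n + 1) (ℕ → H) (Triv A) := map Δ (AddMonoidHom.id _) z
  have hy₁ : dd n y₁ = 0 := by
    rw [show y₁ = map Δ (AddMonoidHom.id _) z from rfl,
      dd_map Δ (AddMonoidHom.id (Triv A)) (fun _ _ => rfl), hzc, map_zero]
  have hcp : ∀ j, map (cp j) (AddMonoidHom.id _) y₁ = y₁ := by
    intro j
    rw [show y₁ = map Δ (AddMonoidHom.id _) z from rfl, map_map]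
    congr 1
    congr 1
    funext h k
    show Function.update _ _ _ k = _
    by_cases hk : k = 0
    · subst hk; rw [Function.update_self]; rfl
    · rw [Function.update_of_ne hk]
  obtain ⟨w, hw⟩ := poly (Lt 0) (fun _ _ _ => rfl) (fl (H := H) 0 (n + 2)) (flag_fl 0 (n + 2))
    (by rw [fl_length]; omega) y₁ (show Cyc (n + 1) y₁ from hy₁)
  have hcore := core (A := A) rfl l (X₀ : Set N) (Set.Subset.refl _) hl2 1 one_pos y₁ hy₁ hcp (by
    have e1 : DD (fl (H := H) 0 (n + 2)) y₁ = DD (fl 1 (n + 1)) y₁ -
        map (ek 0) (AddMonoidHom.id _) (DD (fl 1 (n + 1)) y₁) := rfl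
    have hΦ : ∀ g g' : ℕ → H, ((g * g') 0 : N) * Psi 1 l (g * g')
        = (g 0 : N) * Psi 1 l g * ((g' 0 : N) * Psi 1 l g') := by
      intro g g'
      rw [Psi_mul rfl hl2]
      have := Psi_comm hl2 (g' 0).2 1 g
      simp only [Pi.mul_apply, Subgroup.coe_mul]
      calc (g 0 : N) * (g' 0 : N) * (Psi 1 l g * Psi 1 l g')
          = (g 0 : N) * ((g' 0 : N) * Psi 1 l g) * Psi 1 l g' := by group
        _ = _ := by rw [this]; group
    let Φ : (ℕ → H) →* N := MonoidHom.mk' (fun g : ℕ → H => (g 0 : N) * Psi 1 l g) hΦ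
    have e2 := congrArg (map Φ (AddMonoidHom.id (Triv A))) hw
    rw [e1, map_sub, map_map, ← dd_map Φ (AddMonoidHom.id (Triv A)) (fun _ _ => rfl)] at e2
    refine ⟨map Φ (AddMonoidHom.id _) w, ?_⟩
    rw [← e2, hl1]
    congr 1
    congr 2
    funext g
    show (((Function.update g 0 1 : ℕ → H) 0 : H) : N) * Psi 1 l (Function.update g 0 1) = _
    rw [Function.update_self]
    simp only [OneMemClass.coe_one, one_mul]
    exact Psi_congr fun j hj => Function.update_of_ne (by omega) _ _)
  obtain ⟨v, hv⟩ := hcore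
  obtain ⟨v', hv'⟩ := map_one_boundary (H := N) y₁ hy₁
  rw [hv'] at hv
  refine ⟨v + v', ?_⟩
  rw [map_add, hv, sub_add_cancel, show y₁ = map Δ (AddMonoidHom.id _) z from rfl, map_map, ← hz]
  rfl

end mitosis

end Pool.Agent.H752.CE
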