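import Pool.Agent.H752.CE.Step
import Pool.Agent.H752.CE.Mitotic

/-!
# The tower of finite `p`-groups and its union
-/

set_option autoImplicit false

namespace Pool.Agent.H752.CE

/-- the stages of the tower -/
structure Stage (p : ℕ) (X : Type) [Group X] where
  P : Type
  [grp : Group P]
  [fin : Finite P]
  π : P →* X
  isP : IsPGroup p P
  ord : ∀ w, w ^ p = 1 → π w = 1
  surj : Function.Surjective π

attribute [instance] Stage.grp Stage.fin

structure StepData {p : ℕ} {X : Type} [Group X] (s t : Stage p X) where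
  j : s.P →* t.P
  d : s.π.ker →* t.P
  u : t.P
  inj : Function.Injective j
  jover : ∀ x, t.π (j x) = s.π x
  dover : ∀ h, t.π (d h) = 1
  uover : t.π u = 1
  comm : ∀ a h : s.π.ker, j a * d h = d h * j a
  conj : ∀ h, u * d h * u⁻¹ = j h * d h

variable {p : ℕ} [hp : Fact p.Prime] {X : Type} [Group X] [Finite X]

theorem exists_next (s : Stage p X) : ∃ t : Stage p X, Nonempty (StepData s t) := by
  obtain ⟨P', i1, i2, π', j, d, u, h1, h2, h3, h4, h5, h6, h7, h8, h9⟩ :=
    step s.isP s.π s.ord s.surj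
  exact ⟨⟨P', π', h1, h2, h3⟩, ⟨⟨j, d, u, h4, h5, h6, h7, h8, h9⟩⟩⟩

theorem exists_start (hX : IsPGroup p X) : Nonempty (Stage p X) := by
  obtain ⟨E, i1, i2, q, a, b, h1, h2, h3, -⟩ := E_lemma hX (MonoidHom.id X) ⊥ (by
    intro w hw _
    exact (Subgroup.mem_bot).1 hw)
  exact ⟨⟨E, q, h1, h3, h2⟩⟩

noncomputable def nxt (s : Stage p X) : Stage p X := (exists_next s).choose

noncomputable def nxtData (s : Stage p X) : StepData s (nxt s) := (exists_next s).choose_spec.some

noncomputable def seqn (s : Stage p X) : ℕ → Stage p X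
  | 0 => s
  | n + 1 => nxt (seqn s n)

noncomputable def stepD (s : Stage p X) (n : ℕ) : StepData (seqn s n) (seqn s (n + 1)) :=
  nxtData (seqn s n)

noncomputable def jj (s : Stage p X) (n : ℕ) : (seqn s n).P →* (seqn s (n + 1)).P :=
  (stepD s n).j

noncomputable def trf (s : Stage p X) {m n : ℕ} (h : m ≤ n) : (seqn s m).P → (seqn s n).P :=
  Nat.leRecOn (C := fun n => (seqn s n).P) h (fun {k} x => jj s k x)

lemma trf_self (s : Stage p X) {m : ℕ} (x : (seqn s m).P) : trf s (le_refl m) x = x :=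
  Nat.leRecOn_self _

lemma trf_succ (s : Stage p X) {m n : ℕ} (h : m ≤ n) (h' : m ≤ n + 1) (x : (seqn s m).P) :
    trf s h' x = jj s n (trf s h x) :=
  Nat.leRecOn_succ h _

lemma trf_trans (s : Stage p X) {m n k : ℕ} (h : m ≤ n) (h' : n ≤ k) (x : (seqn s m).P) :
    trf s h' (trf s h x) = trf s (h.trans h') x :=
  (Nat.leRecOn_trans (C := fun n => (seqn s n).P) h h' (next := fun {k} x => jj s k x) x).symm

lemma trf_mul (s : Stage p X) {m n : ℕ} (h : m ≤ n) (x y : (seqn s m).P) :
    trf s h (x * y) = trf s h x * trf s h y := by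
  induction n, h using Nat.le_induction with
  | base => simp only [trf_self]
  | succ n h ih => rw [trf_succ s h, trf_succ s h, trf_succ s h, ih, map_mul]

lemma trf_inj (s : Stage p X) {m n : ℕ} (h : m ≤ n) : Function.Injective (trf s h) := by
  induction n, h using Nat.le_induction with
  | base =>
    intro x y hxy
    rwa [trf_self, trf_self] at hxy
  | succ n h ih =>
    intro x y hxy
    rw [trf_succ s h, trf_succ s h] at hxy
    exact ih ((stepD s n).inj hxy)

lemma trf_over (s : Stage p X) {m n : ℕ} (h : m ≤ n) (x : (seqn s m).P) :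
    (seqn s n).π (trf s h x) = (seqn s m).π x := by
  induction n, h using Nat.le_induction with
  | base => rw [trf_self]
  | succ n h ih =>
    rw [trf_succ s h, ← ih]
    exact (stepD s n).jover _

noncomputable def tr (s : Stage p X) (m n : ℕ) (h : m ≤ n) : (seqn s m).P →* (seqn s n).P :=
  MonoidHom.mk' (trf s h) (trf_mul s h)

instance (s : Stage p X) : DirectedSystem (fun n => (seqn s n).P) (tr s · · ·) where
  map_self _ x := trf_self s x
  map_map _ _ _ h h' x := trf_trans s h h' x

/-- the union of the tower -/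
def Gam (s : Stage p X) : Type := DirectLimit (fun n => (seqn s n).P) (tr s)

noncomputable instance (s : Stage p X) : Group (Gam s) :=
  inferInstanceAs (Group (DirectLimit (fun n => (seqn s n).P) (tr s)))

noncomputable def iot (s : Stage p X) (n : ℕ) : (seqn s n).P →* Gam s :=
  MonoidHom.mk' (fun x => (⟦⟨n, x⟩⟧ : DirectLimit (fun n => (seqn s n).P) (tr s)))
    (fun x y => (DirectLimit.mul_def (f := tr s) n x y).symm)

lemma iot_inj (s : Stage p X) (n : ℕ) : Function.Injective (iot s n) :=
  DirectLimit.mk_injective (f := tr s) (fun _ _ h => trf_inj s h) n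

lemma iot_trf (s : Stage p X) {m n : ℕ} (h : m ≤ n) (x : (seqn s m).P) :
    iot s n (trf s h x) = iot s m x :=
  DirectLimit.mk_apply (F := fun n => (seqn s n).P) (f := tr s) m n x h

lemma exists_iot (s : Stage p X) (g : Gam s) : ∃ n x, iot s n x = g := by
  obtain ⟨n, x, h⟩ := DirectLimit.exists_eq_mk (f := tr s) g
  exact ⟨n, x, h.symm⟩

noncomputable def ppi (s : Stage p X) : Gam s →* X :=
  MonoidHom.mk' (DirectLimit.lift (tr s) (fun n x => (seqn s n).π x)
    (fun _ _ h x => (trf_over s h x).symm))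
    (fun x y => DirectLimit.lift_mul (f := tr s) (fun n => (seqn s n).π) _ x y)

lemma ppi_iot (s : Stage p X) (n : ℕ) (x : (seqn s n).P) : ppi s (iot s n x) = (seqn s n).π x :=
  rfl

theorem tower (hX : IsPGroup p X) :
    ∃ (Γ : Type) (_ : Group Γ) (π : Γ →* X) (P : ℕ → Subgroup Γ), Monotone P ∧
      (∀ m, Finite (P m)) ∧ (∀ m, IsPGroup p (P m)) ∧ (∀ g : Γ, ∃ m, g ∈ P m) ∧
      (∀ m x, ∃ g ∈ P m, π g = x) ∧ (∀ g : Γ, g ^ p = 1 → π g = 1) ∧ Mitotic π.ker := by
  obtain ⟨s⟩ := exists_start hX
  have hmono : Monotone fun m => (iot s m).range := by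
    intro m n h
    rintro _ ⟨x, rfl⟩
    exact ⟨trf s h x, iot_trf s h x⟩
  refine ⟨Gam s, inferInstance, ppi s, fun m => (iot s m).range, hmono, ?_, ?_, ?_, ?_, ?_, ?_⟩
  · intro m
    exact Finite.of_surjective (iot s m).rangeRestrict (MonoidHom.rangeRestrict_surjective _)
  · intro m
    exact (seqn s m).isP.of_surjective (iot s m).rangeRestrict (MonoidHom.rangeRestrict_surjective _)
  · intro g
    obtain ⟨n, x, h⟩ := exists_iot s g
    exact ⟨n, x, h⟩
  · intro m x
    obtain ⟨y, hy⟩ := (seqn s m).surj x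
    exact ⟨iot s m y, ⟨y, rfl⟩, by rw [ppi_iot, hy]⟩
  · intro g hg
    obtain ⟨n, x, rfl⟩ := exists_iot s g
    rw [ppi_iot]
    apply (seqn s n).ord
    apply iot_inj s n
    rw [map_pow, hg, map_one]
  · intro F
    -- all the elements of `F` are in one stage
    obtain ⟨m, hm⟩ : ∃ m, ∀ x ∈ F, (x : Gam s) ∈ (iot s m).range := by
      classical
      induction F using Finset.induction_on with
      | empty => exact ⟨0, by simp⟩
      | insert a F ha ih =>
        obtain ⟨m, hm⟩ := ih
        obtain ⟨n, x, hx⟩ := exists_iot s a.1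
        refine ⟨max m n, fun y hy => ?_⟩
        rcases Finset.mem_insert.1 hy with rfl | hy
        · exact hmono (le_max_right m n) ⟨x, hx⟩
        · exact hmono (le_max_left m n) (hm y hy)
    let D := stepD s m
    let K : Subgroup (ppi s).ker := (iot s m).range.comap (ppi s).ker.subtype
    -- the stage of an element of `K`
    have hK : ∀ x : K, ∃ h : (seqn s m).π.ker, iot s m h = x.1.1 := by
      rintro ⟨⟨x, hx⟩, y, hy⟩
      have hy' : iot s m y = x := hy
      refine ⟨⟨y, ?_⟩, hy'⟩
      rw [MonoidHom.mem_ker, ← ppi_iot, hy']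
      exact hx
    choose ρ hρ using hK
    have hρmul : ∀ x y : K, ρ (x * y) = ρ x * ρ y := by
      intro x y
      apply Subtype.ext
      apply iot_inj s m
      rw [hρ]
      show _ = iot s m ((ρ x : (seqn s m).P) * ρ y)
      rw [map_mul, hρ, hρ]
      rfl
    let ρ' : K →* (seqn s m).π.ker := MonoidHom.mk' ρ hρmul
    let δ : (seqn s m).π.ker →* (ppi s).ker := MonoidHom.mk' (fun h => ⟨iot s (m + 1) (D.d h), by
      rw [MonoidHom.mem_ker, ppi_iot]
      exact D.dover h⟩) (fun h h' => by
        apply Subtype.ext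
        show iot s (m + 1) (D.d (h * h')) = iot s (m + 1) (D.d h) * iot s (m + 1) (D.d h')
        rw [map_mul, map_mul])
    let υ : (ppi s).ker := ⟨iot s (m + 1) D.u, by
      rw [MonoidHom.mem_ker, ppi_iot]
      exact D.uover⟩
    have hj : ∀ x : K, x.1.1 = iot s (m + 1) (D.j (ρ x)) := by
      intro x
      rw [← hρ]
      have h1 := iot_trf s (Nat.le_succ m) (ρ x : (seqn s m).P)
      rw [← h1, trf_succ s (le_refl m), trf_self]
      rfl
    refine ⟨K, δ.comp ρ', υ, ?_, ?_, ?_⟩
    · intro x hx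
      exact hm x hx
    · intro a b
      apply Subtype.ext
      show a.1.1 * iot s (m + 1) (D.d (ρ b)) = iot s (m + 1) (D.d (ρ b)) * a.1.1
      rw [hj a, ← map_mul, ← map_mul, D.comm]
    · intro a
      apply Subtype.ext
      show iot s (m + 1) D.u * iot s (m + 1) (D.d (ρ a)) * (iot s (m + 1) D.u)⁻¹
        = a.1.1 * iot s (m + 1) (D.d (ρ a))
      rw [hj a, ← map_mul, ← map_inv, ← map_mul, ← map_mul, D.conj]

end Pool.Agent.H752.CE
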