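import Pool.Agent.H752.CE.Colim
import Pool.Agent.H752.CE.Complete
import Pool.Agent.H752.CE.Tower

/-!
# Telescopes of classifying spaces of finite `p`-groups without factorisations
-/

set_option autoImplicit false

namespace Pool.Agent.H752.CE

open CategoryTheory Simplicial Opposite Limits

section maps

variable {G H X : Type} [Group G] [Group H] [Group X]

/-- the edge of the nerve defined by an element of the group -/
def gedge (w : G) : (BB G) _⦋1⦌ := qq 1 ![1, w⁻¹]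

lemma arr_gedge (w : G) : arr (n := 1) (gedge w) 0 1 (by simp) = w := by
  unfold gedge
  rw [arr_qq]
  simp

lemma edge_eq {e e' : (BB G) _⦋1⦌} (h : arr (n := 1) e 0 1 (by simp) = arr (n := 1) e' 0 1 (by simp)) :
    e = e' := by
  refine simplex_ext (n := 1) fun i j hij => ?_
  fin_cases i <;> fin_cases j
  · exact (arr_self (n := 1) e 0).trans (arr_self (n := 1) e' 0).symm
  · exact h
  · exact absurd hij (by decide)
  · exact (arr_self (n := 1) e 1).trans (arr_self (n := 1) e' 1).symm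

lemma gedge_surj (e : (BB G) _⦋1⦌) : ∃ w, e = gedge w :=
  ⟨arr (n := 1) e 0 1 (by simp), edge_eq (arr_gedge _).symm⟩

/-- the homomorphism defined by a map of classifying spaces -/
lemma cval_hom (g : BB G ⟶ BB X) : ∃ ρ : G →* X, ∀ w, ρ w = cval g (gedge w) := by
  refine ⟨MonoidHom.mk' (fun w => cval g (gedge w)) (fun a b => ?_), fun w => rfl⟩
  have h := cval_coc g (qq 2 ![1, b⁻¹, (a * b)⁻¹])
  have e1 : (BB G).δ 1 (qq 2 ![1, b⁻¹, (a * b)⁻¹]) = gedge (a * b) := by
    apply edge_eq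
    rw [arr_gedge, δ_qq, arr_qq]
    show ((a * b)⁻¹)⁻¹ * 1 = a * b
    simp
  have e0 : (BB G).δ 0 (qq 2 ![1, b⁻¹, (a * b)⁻¹]) = gedge a := by
    apply edge_eq
    rw [arr_gedge, δ_qq, arr_qq]
    show ((a * b)⁻¹)⁻¹ * b⁻¹ = a
    simp
  have e2 : (BB G).δ 2 (qq 2 ![1, b⁻¹, (a * b)⁻¹]) = gedge b := by
    apply edge_eq
    rw [arr_gedge, δ_qq, arr_qq]
    show (b⁻¹)⁻¹ * 1 = b
    simp
  rw [e1, e0, e2] at h
  exact h

lemma cval_BBmap (f : G →* H) (w : G) : cval (BBmap f) (gedge w) = f w := 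
  congrArg f (arr_gedge w)

lemma cval_const (A : SSet.{0}) (b : (BB X) _⦋0⦌) (e : A _⦋1⦌) :
    cval (SSet.const b : A ⟶ BB X) e = 1 :=
  (cval_coc (SSet.const b : A ⟶ BB X)).self (A.σ 0 (A.δ 0 e)) 0

/-- if two maps of classifying spaces are homotopic, the homomorphisms are conjugate -/
lemma htpc_conj {g g' : BB G ⟶ BB X} (h : Htpc g g') :
    ∃ x : X, ∀ w, cval g' (gedge w) = x * cval g (gedge w) * x⁻¹ := by
  obtain ⟨η, hη⟩ := (homotopic_iff g g').1 h
  have h0 : ∀ v v' : (BB G) _⦋0⦌, v = v' := fun v v' => simplex_ext (n := 0) fun i j hij => by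
    have hi : i = 0 := by omega
    have hj : j = 0 := by omega
    subst hi hj
    exact (arr_self (n := 0) v 0).trans (arr_self (n := 0) v' 0).symm
  refine ⟨η ((BB G).δ 0 (gedge 1)), fun w => ?_⟩
  have := hη (gedge w)
  rw [h0 ((BB G).δ 1 (gedge w)) ((BB G).δ 0 (gedge 1)),
    h0 ((BB G).δ 0 (gedge w)) ((BB G).δ 0 (gedge 1))] at this
  rw [← this, mul_inv_cancel_right]

lemma null_of_trivial {g : BB G ⟶ BB X} (h : ∀ w, cval g (gedge w) = 1) : NullHtpc g := by
  refine ⟨qq 0 (fun _ => 1), (homotopic_iff _ _).2 ⟨fun _ => 1, fun e => ?_⟩⟩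
  obtain ⟨w, rfl⟩ := gedge_surj e
  rw [cval_const, h]

end maps

section union

variable {Γ : Type} [Group Γ] (P : ℕ → Subgroup Γ) (hP : Monotone P)

theorem tel_iso (hU : ∀ g, ∃ m, g ∈ P m) : ∃ e : tel (incl P hP) ≅ BB Γ,
    ∀ m, telι (incl P hP) m ≫ e.hom = BBmap (P m).subtype :=
  ⟨(colimit.isColimit _).coconePointUniqueUpToIso (unionIsColimit P hP hU), fun m =>
    (colimit.isColimit _).comp_coconePointUniqueUpToIso_hom (unionIsColimit P hP hU) m⟩

end union

/-- **Main theorem.** -/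
theorem main (p : ℕ) [hp : Fact p.Prime] (X : Type) [Group X] [Finite X] (hX : IsPGroup p X) :
    ∃ (P : ℕ → Type) (_ : ∀ m, Group (P m)) (j : ∀ m, P m →* P (m + 1)) (φ : tel j ⟶ BB X),
      (∀ m, Finite (P m) ∧ IsPGroup p (P m) ∧ PComplete p (BB (P m))) ∧
      (∀ m, Mono (BBmap (j m))) ∧
      PComplete p (BB X) ∧ ModPEquiv p φ ∧
      (∀ (m : ℕ) (g : BB (Multiplicative (ZMod p)) ⟶ BB (P m)),
        NullHtpc (g ≫ telι j m ≫ φ)) ∧
      (∀ (G : Type) [Group G] (ρ : G →* X), (∃ w : G, w ^ p = 1 ∧ ρ w ≠ 1) →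
        ∀ (m : ℕ) (g : BB G ⟶ BB (P m)), ¬ Htpc (g ≫ telι j m ≫ φ) (BBmap ρ)) := by
  obtain ⟨Γ, _, π, P, hmono, hfin, hpg, hU, hsurj, hord, hmit⟩ := tower hX
  obtain ⟨e, he⟩ := tel_iso P hmono hU
  have hπ : Function.Surjective π := fun x => by
    obtain ⟨g, -, hg⟩ := hsurj 0 x
    exact ⟨g, hg⟩
  have hkey : ∀ m, telι (incl P hmono) m ≫ e.hom ≫ BBmap π
      = BBmap (π.comp (P m).subtype) := fun m => by
    rw [← Category.assoc, he]
    rfl
  refine ⟨fun m => P m, fun m => inferInstance, incl P hmono, e.hom ≫ BBmap π, ?_, ?_, ?_, ?_, ?_, ?_⟩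
  · intro m
    have := hfin m
    exact ⟨hfin m, hpg m, pComplete_BB p (P m) (hpg m)⟩
  · intro m
    exact BBmap_mono _ (Subgroup.inclusion_injective _)
  · exact pComplete_BB p X hX
  · intro n
    have h1 : IsIso (SSet.homologyMap (BBmap π) (ModuleCat.of (ZMod p) (ZMod p)) n) :=
      (isIso_iff_elemS (ZMod p) _ _ _ n).2 (group_elemS π hπ (acyc_of_mitotic hmit) (ZMod p) n)
    rw [SSet.homologyMap_comp]
    have h3 : IsIso (SSet.homologyMap e.hom (ModuleCat.of (ZMod p) (ZMod p)) n) :=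
      inferInstanceAs (IsIso ((SSet.homologyFunctor (ModuleCat.of (ZMod p) (ZMod p)) n).map e.hom))
    infer_instance
  · intro m g
    rw [hkey]
    apply null_of_trivial
    intro w
    obtain ⟨σ, hσ⟩ := cval_hom g
    rw [BBmap_cval, ← hσ]
    show π (σ w : Γ) = 1
    apply hord
    rw [← SubmonoidClass.coe_pow, ← map_pow]
    have : w ^ p = 1 := by
      have h1 : Nat.card (Multiplicative (ZMod p)) = p := by
        rw [Nat.card_congr Multiplicative.toAdd, Nat.card_zmod]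
      have h2 : w ^ Nat.card (Multiplicative (ZMod p)) = 1 := pow_card_eq_one'
      rwa [h1] at h2
    rw [this, map_one]
    rfl
  · intro G _ ρ hρ m g hh
    obtain ⟨w, hw1, hw2⟩ := hρ
    rw [hkey] at hh
    obtain ⟨x, hx⟩ := htpc_conj hh
    obtain ⟨σ, hσ⟩ := cval_hom g
    have h1 := hx w
    rw [cval_BBmap, BBmap_cval, ← hσ] at h1
    have h2 : π (σ w : Γ) = 1 := by
      apply hord
      rw [← SubmonoidClass.coe_pow, ← map_pow, hw1, map_one]
      rfl
    apply hw2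
    rw [h1]
    show x * π (σ w : Γ) * x⁻¹ = 1
    rw [h2]
    group

end Pool.Agent.H752.CE
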