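import Pool.Agent.H752.CE.Loops

/-!
# The nerve of a finite `p`-group is the classifying space of a `p`-compact group
-/

set_option autoImplicit false

namespace Pool.Agent.H752.CE

open CategoryTheory Simplicial Opposite Limits

section finite

variable (k : Type) [Field k] (X : SSet.{0})

lemma homology_finite (n : ℕ) [Finite (X _⦋n⦌)] :
    Module.Finite k (SSet.homology X (RR k) n : ModuleCat.{0} k) := by
  have h1 : Module.Finite k ((X.chainComplex (RR k)).X n) :=
    Module.Finite.of_surjective (cmp k X n).hom (cmp_bijective k X n).2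
  have h2 : Module.Finite k ((X.chainComplex (RR k)).cycles n) :=
    Module.Finite.of_injective ((X.chainComplex (RR k)).iCycles n).hom
      ((ModuleCat.mono_iff_injective _).1 inferInstance)
  exact Module.Finite.of_surjective ((X.chainComplex (RR k)).homologyπ n).hom
    (homologyπ_surj (X.chainComplex (RR k)) n)

lemma homology_subsingleton (n : ℕ) (h : ∀ x, bdS k X n x = 0 → ∃ w, x = bdS k X (n + 1) w) :
    Subsingleton (SSet.homology X (RR k) (n + 1) : ModuleCat.{0} k) := by
  refine subsingleton_of_forall_eq 0 fun η => ?_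
  obtain ⟨z, rfl⟩ := homologyπ_surj (X.chainComplex (RR k)) (n + 1) η
  rw [homologyπ_eq_zero_iff]
  obtain ⟨x, hx⟩ := (cmp_bijective k X (n + 1)).2 ((X.chainComplex (RR k)).iCycles (n + 1) z)
  have hc : bdS k X n x = 0 := by
    have := (cycS_iff k X (n + 1) x).2 (by
      rw [hx]; exact iCycles_cyc (X.chainComplex (RR k)) (n + 1) z)
    exact this
  obtain ⟨w, hw⟩ := h x hc
  exact ⟨cmp k X (n + 2) w, by rw [← cmp_bd, ← hw, hx]⟩

end finite

lemma bdS_disc (k : Type) [Field k] (S : Type) (n : ℕ) (x : (disc S) _⦋n + 1⦌ →₀ k) :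
    bdS k (disc S) n x = (if Even (n + 2) then (0 : ℤ) else 1) • x := by
  have h1 : ∀ i : Fin (n + 2), Finsupp.lmapDomain k k ((disc S).δ i) x = x := fun i => by
    have : ((disc S).δ i : (disc S) _⦋n + 1⦌ → (disc S) _⦋n⦌) = id := rfl
    rw [Finsupp.lmapDomain_apply, this]
    exact Finsupp.mapDomain_id
  rw [bdS, LinearMap.sum_apply]
  have h2 : ∀ i ∈ Finset.univ, ((-1 : ℤ) ^ ((i : Fin (n + 2)) : ℕ) •
      Finsupp.lmapDomain k k ((disc S).δ i)) x = ((-1 : ℤ) ^ (i : ℕ)) • x := fun i _ => by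
    rw [LinearMap.smul_apply, h1]
  rw [Finset.sum_congr rfl h2, ← Finset.sum_smul, Fin.sum_neg_one_pow]

lemma disc_acyclic (k : Type) [Field k] (S : Type) (n : ℕ) :
    Subsingleton (SSet.homology (disc S) (RR k) (n + 1) : ModuleCat.{0} k) := by
  refine homology_subsingleton k (disc S) n fun x hx => ?_
  rw [bdS_disc] at hx
  by_cases h : Even (n + 2)
  · have h' : ¬ Even (n + 1 + 2) := by
      rw [show n + 1 + 2 = n + 2 + 1 from rfl, Nat.even_add_one]
      exact fun h' => h' h
    refine ⟨x, ?_⟩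
    rw [bdS_disc, if_neg h', one_smul]
  · rw [if_neg h, one_smul] at hx
    exact ⟨0, by rw [hx, map_zero]⟩

theorem isBPCompact_BB (p : ℕ) [Fact p.Prime] (X : Type) [Group X] [Finite X]
    (hX : IsPGroup p X) : IsBPCompact p (BB X) := by
  have hv : ∀ v v' : (BB X) _⦋0⦌, v = v' := fun v v' => simplex_ext (n := 0) fun i j hij => by
    have hi : i = 0 := by omega
    have hj : j = 0 := by omega
    subst hi hj
    exact (arr_self (n := 0) v 0).trans (arr_self (n := 0) v' 0).symm
  have e : ∀ (b : (BB X) _⦋0⦌) (n : ℕ),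
      SSet.homology (disc X) (ModuleCat.of (ZMod p) (ZMod p)) n ≅
        SSet.homology (Loops (BB X) b) (ModuleCat.of (ZMod p) (ZMod p)) n := fun b n =>
    (SSet.homologyFunctor (ModuleCat.of (ZMod p) (ZMod p)) n).mapIso (loopsIso b).symm
  refine ⟨pComplete_BB p X hX, ⟨qq 0 fun _ => 1⟩, fun x y => ⟨gedge 1, hv _ _, hv _ _⟩,
    fun b n => ?_, fun b => ⟨0, fun n hn => ?_⟩⟩
  · have : Finite ((disc X) _⦋n⦌) := inferInstanceAs (Finite X)
    have h1 : Module.Finite (ZMod p) (SSet.homology (disc X) (RR (ZMod p)) n : ModuleCat.{0} (ZMod p)) :=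
      homology_finite (ZMod p) (disc X) n
    exact Module.Finite.equiv (e b n).toLinearEquiv
  · obtain ⟨m, rfl⟩ := Nat.exists_eq_succ_of_ne_zero hn.ne'
    have h1 : Subsingleton (SSet.homology (disc X) (RR (ZMod p)) (m + 1) : ModuleCat.{0} (ZMod p)) := disc_acyclic _ _ _
    exact (e b (m + 1)).toLinearEquiv.symm.injective.subsingleton

end Pool.Agent.H752.CE
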