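import Pool.Agent.H752.CE.Coho
import Pool.Agent.H752.CE.Homotopy

/-!
# Classifying spaces of finite `p`-groups are local for mod `p` homology
-/

set_option autoImplicit false

namespace Pool.Agent.H752.CE

open CategoryTheory Simplicial Opposite

variable {A B : SSet.{0}}

section cg

variable {C : Type} [CommGroup C]

lemma cg1 (o u v : C) : o = u⁻¹ * ((o * u * v)⁻¹)⁻¹ * v⁻¹ :=
  (by abel : (Additive.ofMul o : Additive C) = -Additive.ofMul u +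
    -(-(Additive.ofMul o + Additive.ofMul u + Additive.ofMul v)) + -Additive.ofMul v)

lemma cg2 (z0 z1 w : C) : z0⁻¹ * z1 * w * z0 = w * z1 :=
  (by abel : (-Additive.ofMul z0 + Additive.ofMul z1 + Additive.ofMul w + Additive.ofMul z0
    : Additive C) = Additive.ofMul w + Additive.ofMul z1)

lemma cg3 (w0 w1 o : C) : w0 * w1⁻¹ * (w0⁻¹ * o) = w1⁻¹ * o :=
  (by abel : (Additive.ofMul w0 + -Additive.ofMul w1 + (-Additive.ofMul w0 + Additive.ofMul o)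
    : Additive C) = -Additive.ofMul w1 + Additive.ofMul o)

lemma cg4 (u v w : C) : u * v⁻¹ * w * (u⁻¹ * w⁻¹) = v⁻¹ :=
  (by abel : (Additive.ofMul u + -Additive.ofMul v + Additive.ofMul w +
    (-Additive.ofMul u + -Additive.ofMul w) : Additive C) = -Additive.ofMul v)

lemma cg5 (z w : C) : z = w⁻¹ * (z * w) :=
  (by abel : (Additive.ofMul z : Additive C) =
    -Additive.ofMul w + (Additive.ofMul z + Additive.ofMul w))

lemma cg6 (z0 z1 zz : C) (h : z1 = zz * z0) : zz = z0⁻¹ * (z1⁻¹)⁻¹ := by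
  rw [h]
  exact (by abel : (Additive.ofMul zz : Additive C) =
    -Additive.ofMul z0 + -(-(Additive.ofMul zz + Additive.ofMul z0)))

end cg

/-- the low-dimensional cohomological consequences of a homology isomorphism -/
structure CF (C : Type) [CommGroup C] (f : A ⟶ B) : Prop where
  h0s : ∀ a : A _⦋0⦌ → C, (∀ e : A _⦋1⦌, a (A.δ 0 e) = a (A.δ 1 e)) →
    ∃ b : B _⦋0⦌ → C, (∀ e : B _⦋1⦌, b (B.δ 0 e) = b (B.δ 1 e)) ∧ ∀ x, b (f.app _ x) = a x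
  h1s : ∀ a : A _⦋1⦌ → C, (∀ σ : A _⦋2⦌, a (A.δ 1 σ) = a (A.δ 0 σ) * a (A.δ 2 σ)) →
    ∃ (b : B _⦋1⦌ → C) (c : A _⦋0⦌ → C),
      (∀ σ : B _⦋2⦌, b (B.δ 1 σ) = b (B.δ 0 σ) * b (B.δ 2 σ)) ∧
      ∀ e, b (f.app _ e) = a e * (c (A.δ 0 e) * (c (A.δ 1 e))⁻¹)
  h1i : ∀ b : B _⦋1⦌ → C, (∀ σ : B _⦋2⦌, b (B.δ 1 σ) = b (B.δ 0 σ) * b (B.δ 2 σ)) →
    ∀ c : A _⦋0⦌ → C, (∀ e, b (f.app _ e) = c (A.δ 0 e) * (c (A.δ 1 e))⁻¹) →
    ∃ c' : B _⦋0⦌ → C, ∀ e : B _⦋1⦌, b e = c' (B.δ 0 e) * (c' (B.δ 1 e))⁻¹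
  h2i : ∀ b : B _⦋2⦌ → C,
    (∀ τ : B _⦋3⦌, b (B.δ 0 τ) * b (B.δ 2 τ) = b (B.δ 1 τ) * b (B.δ 3 τ)) →
    ∀ c : A _⦋1⦌ → C, (∀ σ, b (f.app _ σ) = c (A.δ 0 σ) * (c (A.δ 1 σ))⁻¹ * c (A.δ 2 σ)) →
    ∃ c' : B _⦋1⦌ → C, ∀ σ : B _⦋2⦌, b σ = c' (B.δ 0 σ) * (c' (B.δ 1 σ))⁻¹ * c' (B.δ 2 σ)

theorem cf_zmod (p : ℕ) [hp : Fact p.Prime] {f : A ⟶ B} (hf : ∀ n, ElemS (ZMod p) A B f n) :
    CF (Multiplicative (ZMod p)) f where
  h0s a ha := h0_surj (ZMod p) (hf 0) a ha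
  h1s a ha := by
    let a' : A _⦋1⦌ → ZMod p := a
    obtain ⟨b, c, h1, h2⟩ := h1_surj (ZMod p) (hf 1) a' ha
    refine ⟨b, c, h1, fun e => ?_⟩
    show (b (f.app _ e) : ZMod p) = a' e + (c (A.δ 0 e) + -(c (A.δ 1 e)))
    rw [h2 e, sub_eq_add_neg]
  h1i b hb c hc := by
    obtain ⟨c', h⟩ := h1_inj (ZMod p) (hf 1) b hb c (fun e =>
      (hc e).trans (sub_eq_add_neg (G := ZMod p) _ _).symm)
    exact ⟨c', fun e => (h e).trans (sub_eq_add_neg (G := ZMod p) _ _)⟩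
  h2i b hb c hc := by
    let b' : B _⦋2⦌ → ZMod p := b
    let c₀ : A _⦋1⦌ → ZMod p := c
    obtain ⟨c', h⟩ := h2_inj (ZMod p) (hf 2) b' hb c₀ (fun e => by
      have h1 : (b' (f.app _ e) : ZMod p) = c₀ (A.δ 0 e) + -(c₀ (A.δ 1 e)) + c₀ (A.δ 2 e) := hc e
      rw [h1, sub_eq_add_neg])
    refine ⟨c', fun e => ?_⟩
    show (b' e : ZMod p) = c' (B.δ 0 e) + -(c' (B.δ 1 e)) + c' (B.δ 2 e)
    rw [h e, sub_eq_add_neg]

/-- restriction of cocycles along `f` is surjective up to homotopy and full -/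
structure Loc (P : Type) [Group P] (f : A ⟶ B) : Prop where
  es : ∀ c : A _⦋1⦌ → P, IsCoc A c → ∃ (b : B _⦋1⦌ → P) (h : A _⦋0⦌ → P), IsCoc B b ∧
    ∀ e, b (f.app _ e) * h (A.δ 1 e) = h (A.δ 0 e) * c e
  ff : ∀ b b' : B _⦋1⦌ → P, IsCoc B b → IsCoc B b' → ∀ h : A _⦋0⦌ → P,
    (∀ e, b' (f.app _ e) * h (A.δ 1 e) = h (A.δ 0 e) * b (f.app _ e)) →
    ∃ h' : B _⦋0⦌ → P, (∀ e, b' e * h' (B.δ 1 e) = h' (B.δ 0 e) * b e) ∧
      ∀ x, h' (f.app _ x) = h x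

section ext

variable {C P P' : Type} [CommGroup C] [Group P] [Group P'] (i : C →* P) (q : P →* P')

lemma fδ {f : A ⟶ B} {n : ℕ} (j : Fin (n + 2)) (x : A _⦋n + 1⦌) :
    B.δ j (f.app _ x) = f.app _ (A.δ j x) :=
  (SSet.δ_naturality_apply f j x).symm

lemma face3 (τ : B _⦋3⦌) :
    B.δ 0 (B.δ 1 τ) = B.δ 0 (B.δ 0 τ) ∧ B.δ 0 (B.δ 2 τ) = B.δ 1 (B.δ 0 τ) ∧
    B.δ 0 (B.δ 3 τ) = B.δ 2 (B.δ 0 τ) ∧ B.δ 1 (B.δ 2 τ) = B.δ 1 (B.δ 1 τ) ∧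
    B.δ 1 (B.δ 3 τ) = B.δ 2 (B.δ 1 τ) ∧ B.δ 2 (B.δ 3 τ) = B.δ 2 (B.δ 2 τ) :=
  ⟨SSet.δ_comp_δ_apply (S := B) (i := 0) (j := 0) le_rfl τ,
    SSet.δ_comp_δ_apply (S := B) (i := 0) (j := 1) (Fin.zero_le _) τ,
    SSet.δ_comp_δ_apply (S := B) (i := 0) (j := 2) (Fin.zero_le _) τ,
    SSet.δ_comp_δ_apply (S := B) (i := 1) (j := 1) le_rfl τ,
    SSet.δ_comp_δ_apply (S := B) (i := 1) (j := 2) (by decide) τ,
    SSet.δ_comp_δ_apply (S := B) (i := 2) (j := 2) le_rfl τ⟩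

theorem loc_ext {f : A ⟶ B} (hi : Function.Injective i) (hcen : ∀ c x, i c * x = x * i c)
    (hex : ∀ x, q x = 1 → ∃ c, i c = x) (hqi : ∀ c, q (i c) = 1) (hq : Function.Surjective q)
    (hC : CF C f) (hP' : Loc P' f) : Loc P f := by
  -- the element of `C` between two elements with the same image
  have hdiff : ∀ x y : P, q x = q y → ∃ c, x = y * i c := by
    intro x y hxy
    obtain ⟨c, hc⟩ := hex (y⁻¹ * x) (by rw [map_mul, map_inv, hxy, inv_mul_cancel])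
    exact ⟨c, by rw [hc]; group⟩
  obtain ⟨s, hs⟩ := hq.hasRightInverse
  constructor
  · -- surjectivity
    intro c hc
    obtain ⟨b', h', hb', hbh⟩ := hP'.es (fun e => q (c e)) (fun σ => by
      show q (c _) = q (c _) * q (c _)
      rw [hc σ, map_mul])
    let h₁ : A _⦋0⦌ → P := fun x => s (h' x)
    have hqh₁ : ∀ x, q (h₁ x) = h' x := fun x => hs _
    let c₁ : A _⦋1⦌ → P := fun e => h₁ (A.δ 0 e) * c e * (h₁ (A.δ 1 e))⁻¹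
    have hc₁ : IsCoc A c₁ := hc.twist h₁
    have hqc₁ : ∀ e, q (c₁ e) = b' (f.app _ e) := by
      intro e
      simp only [c₁, map_mul, map_inv, hqh₁]
      rw [← hbh]
      group
    let β : B _⦋1⦌ → P := fun e => s (b' e)
    have hqβ : ∀ e, q (β e) = b' e := fun e => hs _
    have ho : ∀ σ : B _⦋2⦌, ∃ o : C, β (B.δ 0 σ) * β (B.δ 2 σ) = β (B.δ 1 σ) * i o := fun σ =>
      hdiff _ _ (by rw [map_mul, hqβ, hqβ, hqβ, ← hb' σ])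
    choose o ho using ho
    have hoc : ∀ τ : B _⦋3⦌, o (B.δ 0 τ) * o (B.δ 2 τ) = o (B.δ 1 τ) * o (B.δ 3 τ) := by
      intro τ
      obtain ⟨f1, f2, f3, f4, f5, f6⟩ := face3 τ
      apply hi
      rw [map_mul, map_mul]
      have a0 := ho (B.δ 0 τ)
      have a1 := ho (B.δ 1 τ)
      have a2 := ho (B.δ 2 τ)
      have a3 := ho (B.δ 3 τ)
      rw [f1] at a1
      rw [f2, f4] at a2
      rw [f3, f5, f6] at a3
      -- `β(23) β(12) β(01)` in two ways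
      have e1 : β (B.δ 0 (B.δ 0 τ)) * (β (B.δ 2 (B.δ 0 τ)) * β (B.δ 2 (B.δ 2 τ)))
          = β (B.δ 1 (B.δ 1 τ)) * i (o (B.δ 1 τ)) * i (o (B.δ 3 τ)) := by
        rw [a3, ← mul_assoc, a1]
      have e2 : β (B.δ 0 (B.δ 0 τ)) * (β (B.δ 2 (B.δ 0 τ)) * β (B.δ 2 (B.δ 2 τ)))
          = β (B.δ 1 (B.δ 1 τ)) * i (o (B.δ 2 τ)) * i (o (B.δ 0 τ)) := by
        rw [← mul_assoc, a0, mul_assoc, hcen, ← mul_assoc, a2]
      have e3 := e1.symm.trans e2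
      rw [mul_assoc, mul_assoc] at e3
      have e4 := mul_left_cancel e3
      rw [e4, hcen]
    have hζ : ∀ e : A _⦋1⦌, ∃ z : C, c₁ e = β (f.app _ e) * i z := fun e =>
      hdiff _ _ (by rw [hqc₁, hqβ])
    choose ζ hζ using hζ
    obtain ⟨w, hw⟩ := hC.h2i o hoc (fun e => (ζ e)⁻¹) (by
      intro σ
      apply hi
      have a := hc₁ σ
      rw [hζ, hζ, hζ, ← fδ, ← fδ, ← fδ] at a
      have b := ho (f.app _ σ)
      have e1 : β (B.δ 1 (f.app _ σ)) * i (ζ (A.δ 1 σ))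
          = β (B.δ 1 (f.app _ σ)) * (i (o (f.app _ σ)) * i (ζ (A.δ 0 σ)) * i (ζ (A.δ 2 σ))) := by
        rw [a]
        calc β (B.δ 0 (f.app _ σ)) * i (ζ (A.δ 0 σ)) * (β (B.δ 2 (f.app _ σ)) * i (ζ (A.δ 2 σ)))
            = β (B.δ 0 (f.app _ σ)) * (i (ζ (A.δ 0 σ)) * β (B.δ 2 (f.app _ σ)))
              * i (ζ (A.δ 2 σ)) := by group
          _ = (β (B.δ 0 (f.app _ σ)) * β (B.δ 2 (f.app _ σ))) * i (ζ (A.δ 0 σ))
              * i (ζ (A.δ 2 σ)) := by rw [hcen]; group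
          _ = _ := by rw [b]; group
      have e2 := mul_left_cancel e1
      rw [← map_mul, ← map_mul] at e2
      have e3 := hi e2
      congr 1
      rw [e3]
      exact cg1 _ _ _)
    let b₁ : B _⦋1⦌ → P := fun e => β e * i (w e)⁻¹
    have hb₁ : IsCoc B b₁ := by
      intro σ
      simp only [b₁]
      have e1 : β (B.δ 0 σ) * i (w (B.δ 0 σ))⁻¹ * (β (B.δ 2 σ) * i (w (B.δ 2 σ))⁻¹)
          = (β (B.δ 0 σ) * β (B.δ 2 σ)) * i ((w (B.δ 0 σ))⁻¹ * (w (B.δ 2 σ))⁻¹) := by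
        calc β (B.δ 0 σ) * i (w (B.δ 0 σ))⁻¹ * (β (B.δ 2 σ) * i (w (B.δ 2 σ))⁻¹)
            = β (B.δ 0 σ) * (i (w (B.δ 0 σ))⁻¹ * β (B.δ 2 σ)) * i (w (B.δ 2 σ))⁻¹ := by group
          _ = _ := by rw [hcen, map_mul]; group
      rw [e1, ho, mul_assoc, ← map_mul, hw, cg4]
    have hκ : ∀ e, c₁ e = b₁ (f.app _ e) * i (ζ e * w (f.app _ e)) := by
      intro e
      simp only [b₁]
      rw [hζ, mul_assoc, ← map_mul, ← cg5]
    obtain ⟨κ, d, hκ1, hκ2⟩ := hC.h1s (fun e => ζ e * w (f.app _ e)) (by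
      intro σ
      apply hi
      have a := hc₁ σ
      rw [hκ, hκ, hκ] at a
      have b := hb₁ (f.app _ σ)
      rw [fδ, fδ, fδ] at b
      have e1 : b₁ (f.app _ (A.δ 1 σ)) * i (ζ (A.δ 1 σ) * w (f.app _ (A.δ 1 σ)))
          = b₁ (f.app _ (A.δ 1 σ)) * (i (ζ (A.δ 0 σ) * w (f.app _ (A.δ 0 σ))) *
            i (ζ (A.δ 2 σ) * w (f.app _ (A.δ 2 σ)))) := by
        rw [a, b]
        set u := i (ζ (A.δ 0 σ) * w (f.app _ (A.δ 0 σ))) with hu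
        set v := b₁ (f.app _ (A.δ 2 σ))
        have huv : u * v = v * u := by rw [hu, hcen]
        calc b₁ (f.app _ (A.δ 0 σ)) * u * (v * i (ζ (A.δ 2 σ) * w (f.app _ (A.δ 2 σ))))
            = b₁ (f.app _ (A.δ 0 σ)) * (u * v) * i (ζ (A.δ 2 σ) * w (f.app _ (A.δ 2 σ))) := by group
          _ = _ := by rw [huv]; group
      exact (mul_left_cancel e1).trans (map_mul i _ _).symm)
    refine ⟨fun e => b₁ e * i (κ e), fun x => i (d x) * h₁ x, ?_, ?_⟩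
    · intro σ
      simp only
      rw [hb₁ σ, hκ1 σ, map_mul]
      calc b₁ (B.δ 0 σ) * b₁ (B.δ 2 σ) * (i (κ (B.δ 0 σ)) * i (κ (B.δ 2 σ)))
          = b₁ (B.δ 0 σ) * (b₁ (B.δ 2 σ) * i (κ (B.δ 0 σ))) * i (κ (B.δ 2 σ)) := by group
        _ = _ := by rw [← hcen (κ (B.δ 0 σ)) (b₁ (B.δ 2 σ))]; group
    · intro e
      simp only
      have e0 : b₁ (f.app _ e) * i (κ (f.app _ e)) = c₁ e * i (d (A.δ 0 e) * (d (A.δ 1 e))⁻¹) := by
        rw [hκ2, map_mul i (ζ e * _), ← mul_assoc, ← hκ]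
      rw [e0, map_mul, map_inv]
      simp only [c₁]
      have k1 := hcen (d (A.δ 0 e)) (h₁ (A.δ 0 e) * c e * (h₁ (A.δ 1 e))⁻¹)
      calc h₁ (A.δ 0 e) * c e * (h₁ (A.δ 1 e))⁻¹ * (i (d (A.δ 0 e)) * (i (d (A.δ 1 e)))⁻¹) *
            (i (d (A.δ 1 e)) * h₁ (A.δ 1 e))
          = (h₁ (A.δ 0 e) * c e * (h₁ (A.δ 1 e))⁻¹ * i (d (A.δ 0 e))) * h₁ (A.δ 1 e) := by group
        _ = _ := by rw [← k1]; group
  · -- fullness
    intro b b' hb hb' h hh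
    obtain ⟨h', hh', hfh'⟩ := hP'.ff (fun e => q (b e)) (fun e => q (b' e))
      (fun σ => by show q (b _) = q (b _) * q (b _); rw [hb σ, map_mul])
      (fun σ => by show q (b' _) = q (b' _) * q (b' _); rw [hb' σ, map_mul])
      (fun x => q (h x)) (fun e => by rw [← map_mul, hh, map_mul])
    let h₁ : B _⦋0⦌ → P := fun x => s (h' x)
    have hqh₁ : ∀ x, q (h₁ x) = h' x := fun x => hs _
    have hζ : ∀ e : B _⦋1⦌, ∃ z : C, h₁ (B.δ 0 e) * b e = b' e * h₁ (B.δ 1 e) * i z := fun e =>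
      hdiff _ _ (by rw [map_mul, map_mul, hqh₁, hqh₁, ← hh'])
    choose ζ hζ using hζ
    have hζc : ∀ σ : B _⦋2⦌, ζ (B.δ 1 σ) = ζ (B.δ 0 σ) * ζ (B.δ 2 σ) := by
      intro σ
      apply hi
      have a0 := hζ (B.δ 0 σ)
      have a1 := hζ (B.δ 1 σ)
      have a2 := hζ (B.δ 2 σ)
      rw [face01, face11, hb σ, hb' σ] at a1
      rw [face10] at a0
      have e1 : b' (B.δ 0 σ) * b' (B.δ 2 σ) * h₁ (B.δ 1 (B.δ 2 σ)) * i (ζ (B.δ 1 σ))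
          = b' (B.δ 0 σ) * b' (B.δ 2 σ) * h₁ (B.δ 1 (B.δ 2 σ)) *
            (i (ζ (B.δ 0 σ)) * i (ζ (B.δ 2 σ))) := by
        rw [← a1, ← mul_assoc, a0]
        calc b' (B.δ 0 σ) * h₁ (B.δ 0 (B.δ 2 σ)) * i (ζ (B.δ 0 σ)) * b (B.δ 2 σ)
            = b' (B.δ 0 σ) * h₁ (B.δ 0 (B.δ 2 σ)) * (i (ζ (B.δ 0 σ)) * b (B.δ 2 σ)) := by group
          _ = b' (B.δ 0 σ) * (h₁ (B.δ 0 (B.δ 2 σ)) * b (B.δ 2 σ)) * i (ζ (B.δ 0 σ)) := by
              rw [hcen]; group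
          _ = b' (B.δ 0 σ) * b' (B.δ 2 σ) * h₁ (B.δ 1 (B.δ 2 σ)) *
              (i (ζ (B.δ 2 σ)) * i (ζ (B.δ 0 σ))) := by rw [a2]; group
          _ = _ := by rw [hcen]
      rw [map_mul]
      exact mul_left_cancel e1
    have hz : ∀ x : A _⦋0⦌, ∃ z : C, h x = h₁ (f.app _ x) * i z := fun x =>
      hdiff _ _ (by rw [hqh₁, hfh'])
    choose z hz using hz
    have hzζ : ∀ e, ζ (f.app _ e) = (z (A.δ 0 e))⁻¹ * ((z (A.δ 1 e))⁻¹)⁻¹ := by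
      intro e
      have a := hh e
      rw [hz, hz, ← fδ, ← fδ] at a
      have a' := hζ (f.app _ e)
      have e1 : b' (f.app _ e) * h₁ (B.δ 1 (f.app _ e)) * i (z (A.δ 1 e))
          = b' (f.app _ e) * h₁ (B.δ 1 (f.app _ e)) * (i (ζ (f.app _ e)) * i (z (A.δ 0 e))) := by
        calc b' (f.app _ e) * h₁ (B.δ 1 (f.app _ e)) * i (z (A.δ 1 e))
            = b' (f.app _ e) * (h₁ (B.δ 1 (f.app _ e)) * i (z (A.δ 1 e))) := by group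
          _ = h₁ (B.δ 0 (f.app _ e)) * (i (z (A.δ 0 e)) * b (f.app _ e)) := by rw [a]; group
          _ = (h₁ (B.δ 0 (f.app _ e)) * b (f.app _ e)) * i (z (A.δ 0 e)) := by rw [hcen]; group
          _ = _ := by rw [a']; group
      have e2 := mul_left_cancel e1
      rw [← map_mul] at e2
      exact cg6 _ _ _ (hi e2)
    obtain ⟨w, hw⟩ := hC.h1i ζ hζc (fun x => (z x)⁻¹) hzζ
    obtain ⟨ω, hω1, hω2⟩ := hC.h0s (fun x => w (f.app _ x) * z x) (by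
      intro e
      have a := hw (f.app _ e)
      rw [hzζ, fδ, fδ, inv_inv] at a
      have : w (f.app _ (A.δ 0 e)) = (z (A.δ 0 e))⁻¹ * z (A.δ 1 e) * w (f.app _ (A.δ 1 e)) := by
        rw [a]; simp
      rw [this]
      exact cg2 _ _ _)
    refine ⟨fun y => h₁ y * i ((w y)⁻¹ * ω y), fun e => ?_, fun x => ?_⟩
    · simp only
      have a := hζ e
      have e1 : h₁ (B.δ 0 e) * i ((w (B.δ 0 e))⁻¹ * ω (B.δ 0 e)) * b e
          = (h₁ (B.δ 0 e) * b e) * i ((w (B.δ 0 e))⁻¹ * ω (B.δ 0 e)) := by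
        rw [mul_assoc, hcen, mul_assoc]
      rw [e1, a, mul_assoc (b' e * _), ← map_mul, mul_assoc, hw, hω1, cg3]
    · simp only
      rw [hω2, hz, inv_mul_cancel_left]

end ext

end Pool.Agent.H752.CE
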