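import Pool.Agent.H752.CE.PComplete

/-!
# Classifying spaces of finite `p`-groups are `p`-complete
-/

set_option autoImplicit false

namespace Pool.Agent.H752.CE

open CategoryTheory Simplicial Opposite

variable {A B : SSet.{0}}

lemma loc_subsingleton (P : Type) [Group P] [Subsingleton P] (f : A ⟶ B) : Loc P f where
  es _ _ := ⟨fun _ => 1, fun _ => 1, fun _ => Subsingleton.elim _ _,
    fun _ => Subsingleton.elim _ _⟩
  ff _ _ _ _ _ _ := ⟨fun _ => 1, fun _ => Subsingleton.elim _ _, fun _ => Subsingleton.elim _ _⟩

theorem loc_of_pgroup (p : ℕ) [hp : Fact p.Prime] {f : A ⟶ B}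
    (hf : ∀ n, ElemS (ZMod p) A B f n) (n : ℕ) :
    ∀ (P : Type) [Group P] [Finite P], IsPGroup p P → Nat.card P = n → Loc P f := by
  induction n using Nat.strong_induction_on with
  | _ n ih =>
    intro P _ _ hP hn
    by_cases hs : Subsingleton P
    · exact loc_subsingleton P f
    · have : Nontrivial P := not_subsingleton_iff_nontrivial.1 hs
      have hc : Nontrivial (Subgroup.center P) := hP.center_nontrivial
      have hcp : IsPGroup p (Subgroup.center P) := hP.to_subgroup _
      obtain ⟨k, hk⟩ := hcp.exists_card_eq
      have hdvd : p ∣ Nat.card (Subgroup.center P) := by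
        rw [hk]
        refine dvd_pow_self p ?_
        rintro rfl
        rw [pow_zero, Nat.card_eq_one_iff_unique] at hk
        exact not_subsingleton _ hk.1
      obtain ⟨z, hz⟩ := exists_prime_orderOf_dvd_card' p hdvd
      let Z : Subgroup P := Subgroup.zpowers (z : P)
      have hzo : orderOf (z : P) = p := by
        rw [Subgroup.orderOf_coe]; exact hz
      have hZc : Z ≤ Subgroup.center P := by
        rw [Subgroup.zpowers_le]; exact z.2
      have hZn : Z.Normal := ⟨fun x hx g => by
        have h1 := Subgroup.mem_center_iff.1 (hZc hx) g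
        rw [h1, mul_inv_cancel_right]
        exact hx⟩
      have hZcard : Nat.card Z = p := by rw [Nat.card_zpowers, hzo]
      have hcardM : Nat.card (Multiplicative (ZMod p)) = p := by
        rw [Nat.card_congr Multiplicative.toAdd, Nat.card_zmod]
      let e : Multiplicative (ZMod p) ≃* Z := mulEquivOfPrimeCardEq (p := p) hcardM hZcard
      refine loc_ext (Z.subtype.comp e.toMonoidHom) (QuotientGroup.mk' Z) ?_ ?_ ?_ ?_
        (QuotientGroup.mk'_surjective Z) (cf_zmod p hf) ?_
      · exact Subtype.val_injective.comp e.injective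
      · intro c x
        exact ((Subgroup.mem_center_iff.1 (hZc (e c).2)) x).symm
      · intro x hx
        have hx' : x ∈ Z := (QuotientGroup.eq_one_iff x).1 hx
        refine ⟨e.symm ⟨x, hx'⟩, ?_⟩
        show ((e (e.symm ⟨x, hx'⟩) : Z) : P) = x
        rw [e.apply_symm_apply]
      · intro c
        exact (QuotientGroup.eq_one_iff _).2 (e c).2
      · refine ih (Nat.card (P ⧸ Z)) ?_ (P ⧸ Z) (hP.to_quotient Z) rfl
        rw [← hn, Subgroup.card_eq_card_quotient_mul_card_subgroup Z, hZcard]
        have h1 : 0 < Nat.card (P ⧸ Z) := Nat.card_pos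
        have h2 := hp.out.two_le
        nlinarith

end Pool.Agent.H752.CE
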