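import Pool.Agent.H752.CE.Shapiro

/-!
# The homology of a product of groups in low degrees
-/

set_option autoImplicit false

namespace Pool.Agent.H752.CE

open Finsupp

section kernel

variable {V M F : Type} [AddCommGroup M] [AddCommGroup F]

lemma map_id_apply {n : ℕ} (c : F →+ M) (y : T n V F) (x : Fin n → V) :
    (map id c y) x = c (y x) := by
  induction y using Finsupp.induction_linear with
  | zero => simp
  | add y z hy hz => simp [hy, hz]
  | single x' m =>
    rw [map_single]
    by_cases h : x' = x
    · subst h; simp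
    · rw [Finsupp.single_eq_of_ne, Finsupp.single_eq_of_ne, map_zero]
      · exact fun h' => h h'.symm
      · exact fun h' => h (by simpa using h'.symm)

lemma exists_kernel_chain {n : ℕ} (ε : F →+ M) (y : T n V F) (hy : map id ε y = 0) :
    ∃ κ : T n V ε.ker, map id ε.ker.subtype κ = y := by
  have h : ∀ x, y x ∈ ε.ker := fun x => by
    rw [AddMonoidHom.mem_ker, ← map_id_apply, hy]; rfl
  refine ⟨Finsupp.onFinset y.support (fun x => ⟨y x, h x⟩) (fun x hx => ?_), ?_⟩
  · rw [Finsupp.mem_support_iff]
    intro h0
    exact hx (Subtype.ext h0)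
  · ext x
    rw [map_id_apply]
    simp

variable {G : Type} [Group G] [DistribMulAction G F] [DistribMulAction G M]

/-- the kernel of an equivariant map is a module -/
noncomputable abbrev kerAction (ε : F →+ M) (hε : ∀ (g : G) f, ε (g • f) = g • ε f) :
    DistribMulAction G ε.ker where
  smul g f := ⟨g • (f : F), by
    rw [AddMonoidHom.mem_ker, hε, (AddMonoidHom.mem_ker).1 f.2, smul_zero]⟩
  one_smul f := Subtype.ext (one_smul G (f : F))
  mul_smul g h f := Subtype.ext (mul_smul g h (f : F))
  smul_zero g := Subtype.ext (smul_zero g)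
  smul_add g f f' := Subtype.ext (smul_add g (f : F) (f' : F))

end kernel

/-- cycles -/
def Cyc {G : Type} [Group G] {M : Type} [AddCommGroup M] [DistribMulAction G M] :
    (n : ℕ) → T n G M → Prop
  | 0, _ => True
  | n + 1, y => dd n y = 0

section poly

variable {G : Type} [Group G]

/-- the conditions on a list of projections of a product -/
def Flag : Subgroup G → List ((G →* G) × Subgroup G) → Prop
  | _, [] => True
  | L₀, (e, L) :: t => (∀ g, g⁻¹ * e g ∈ L₀) ∧ (∀ g ∈ L, e g = g) ∧ L ≤ L₀ ∧ L.Normal ∧ Flag L t

/-- the product of the operators `1 - e` -/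
noncomputable def DD {n : ℕ} {M : Type} [AddCommGroup M] :
    List ((G →* G) × Subgroup G) → T n G M →+ T n G M
  | [] => AddMonoidHom.id _
  | (e, _) :: t => DD t - (map e (AddMonoidHom.id M)).comp (DD t)

lemma DD_cons {n : ℕ} {M : Type} [AddCommGroup M] (e : G →* G) (L : Subgroup G)
    (t : List ((G →* G) × Subgroup G)) (y : T n G M) :
    DD ((e, L) :: t) y = DD t y - map e (AddMonoidHom.id M) (DD t y) := rfl

lemma DD_coeff {n : ℕ} {M M' : Type} [AddCommGroup M] [AddCommGroup M'] (c : M →+ M')
    (l : List ((G →* G) × Subgroup G)) (y : T n G M) :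
    DD l (map id c y) = map id c (DD l y) := by
  induction l with
  | nil => rfl
  | cons a t ih =>
    obtain ⟨e, L⟩ := a
    rw [DD_cons, DD_cons, ih, map_sub, map_map, map_map]
    congr 1

lemma DD_dd {n : ℕ} {M : Type} [AddCommGroup M] [DistribMulAction G M] (L₀ : Subgroup G)
    (hM : ∀ g ∈ L₀, ∀ m : M, g • m = m)
    (l : List ((G →* G) × Subgroup G)) (hl : Flag L₀ l) (y : T (n + 1) G M) :
    DD l (dd n y) = dd n (DD l y) := by
  induction l generalizing L₀ with
  | nil => rfl
  | cons a t ih =>
    obtain ⟨e, L⟩ := a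
    obtain ⟨h1, h2, h3, h4, h5⟩ := hl
    rw [DD_cons, DD_cons, map_sub, ih L (fun g hg => hM g (h3 hg)) h5,
      dd_map e (AddMonoidHom.id M) (fun g m => by
        have := hM _ (h1 g) m
        rw [mul_smul, inv_smul_eq_iff] at this
        simpa using this.symm)]

theorem poly {n : ℕ} {M : Type} [AddCommGroup M] [DistribMulAction G M] (L₀ : Subgroup G)
    (hM : ∀ g ∈ L₀, ∀ m : M, g • m = m)
    (l : List ((G →* G) × Subgroup G)) (hl : Flag L₀ l) (hn : n < l.length)
    (y : T n G M) (hy : Cyc n y) : ∃ w, DD l y = dd n w := by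
  induction n generalizing M L₀ l with
  | zero =>
    obtain _ | ⟨⟨e, L⟩, t⟩ := l
    · simp at hn
    · refine ⟨0, ?_⟩
      rw [DD_cons, map_zero, map_zero_deg e id, map_id', sub_self]
  | succ n ih =>
    obtain _ | ⟨⟨e, L⟩, t⟩ := l
    · simp at hn
    obtain ⟨h1, h2, h3, h4, h5⟩ := hl
    have hn' : n < t.length := by simpa using hn
    have hML : ∀ g ∈ L, ∀ m : M, g • m = m := fun g hg => hM g (h3 hg)
    have hFL : ∀ g ∈ L, ∀ f : Ind (G ⧸ L) M, g • f = f := by
      intro g hg f
      refine Ind.induction (p := fun f : Ind (G ⧸ L) M => g • f = f) f (smul_zero g)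
        (fun f f' hf hf' => ?_) (fun s m => ?_)
      · rw [smul_add, hf, hf']
      · rw [Ind.smul_sg, hML g hg]
        obtain ⟨x, rfl⟩ := QuotientGroup.mk_surjective s
        suffices hx : ((g * x : G) : G ⧸ L) = (x : G ⧸ L) from
          congrArg (fun s => Ind.sg s m) hx
        rw [QuotientGroup.eq]
        have : x⁻¹ * g * x ∈ L := by
          have := h4.conj_mem g hg x⁻¹
          simpa using this
        have h' := L.inv_mem this
        simpa [mul_assoc] using h'
    set s₀ : G ⧸ L := ((1 : G) : G ⧸ L) with hs₀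
    let ε : Ind (G ⧸ L) M →+ M := Ind.aug
    have hε : ∀ (g : G) f, ε (g • f) = g • ε f := fun g f => Ind.aug_smul g f
    let _ : DistribMulAction G ε.ker := kerAction ε hε
    have hKL : ∀ g ∈ L, ∀ f : ε.ker, g • f = f := fun g hg f => Subtype.ext (hFL g hg f)
    have haugsg : (ε.comp (Ind.sg s₀) : M →+ M) = AddMonoidHom.id M := by
      ext m; simp [ε]
    have haugsub : (ε.comp ε.ker.subtype : ε.ker →+ M) = 0 := by
      ext f; exact f.2
    have hy' : dd n y = 0 := hy
    -- the lift
    have hlift : map id ε (map id (Ind.sg s₀) y) = y := by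
      rw [map_map, haugsg]; exact map_id' y
    obtain ⟨κ, hκ⟩ := exists_kernel_chain ε (dd n (map id (Ind.sg s₀) y)) (by
      have := dd_map (n := n) (MonoidHom.id G) ε hε (map id (Ind.sg s₀) y)
      have e1 : map (MonoidHom.id G) ε (dd n (map id (Ind.sg s₀) y))
          = map id ε (dd n (map id (Ind.sg s₀) y)) := rfl
      have e2 : map (MonoidHom.id G) ε (map id (Ind.sg s₀) y)
          = map id ε (map id (Ind.sg s₀) y) := rfl
      rw [e1, e2, hlift, hy'] at this
      exact this.symm)
    have hsubdd : ∀ (k : ℕ) (z : T (k + 1) G ε.ker),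
        dd k (map id ε.ker.subtype z) = map id ε.ker.subtype (dd k z) := fun k z =>
      dd_map (n := k) (MonoidHom.id G) ε.ker.subtype (fun g f => rfl) z
    have hcyc : Cyc n κ := by
      cases n with
      | zero => trivial
      | succ n =>
        show dd n κ = 0
        apply map_injective (f := (id : G → G)) (c := ε.ker.subtype) Function.injective_id
          Subtype.val_injective
        rw [map_zero, ← hsubdd, hκ, dd_dd]
    obtain ⟨w, hw⟩ := ih L hKL t h5 hn' κ hcyc
    -- the cycle with coefficients in the induced module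
    have hz' : dd n (DD t (map id (Ind.sg s₀) y) - map id ε.ker.subtype w) = 0 := by
      rw [map_sub, ← DD_dd L hFL t h5, ← hκ, DD_coeff, hsubdd, hw, sub_self]
    have hσ : ∀ s : G ⧸ L, (Quotient.out s) • s₀ = s := by
      intro s
      rw [hs₀, MulAction.Quotient.smul_mk, smul_eq_mul, mul_one]
      exact Quotient.out_eq s
    obtain ⟨z₀, v, -, hz₀⟩ := shapiro hσ _ hz'
    have hdde : ∀ (k : ℕ) (z : T (k + 1) G (Ind (G ⧸ L) M)),
        dd k (map id ε z) = map id ε (dd k z) := fun k z =>
      dd_map (n := k) (MonoidHom.id G) ε hε z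
    have hfin : DD t y = map Subtype.val (AddMonoidHom.id M) z₀ + dd (n + 1) (map id ε v) := by
      have := congrArg (map id ε) hz₀
      rw [map_sub, map_add, ← DD_coeff, hlift, map_map, haugsub, map_map, haugsg,
        ← hdde] at this
      have e0 : map (id ∘ id) (0 : ε.ker →+ M) w = 0 := by
        induction w using Finsupp.induction_linear with
        | zero => simp
        | add y z hy hz =>
          rw [map_add]
          have : ∀ y : T (n + 1) G ε.ker, map (id ∘ id) (0 : ε.ker →+ M) y = 0 := by
            intro y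
            ext x
            have := map_id_apply (0 : ε.ker →+ M) y x
            exact this
          rw [this, this, add_zero]
        | single x' m => simp
      rw [e0, sub_zero] at this
      exact this
    refine ⟨map id ε v - map e (AddMonoidHom.id M) (map id ε v), ?_⟩
    have he : ∀ (g : G) (m : M), (AddMonoidHom.id M) (g • m) = e g • (AddMonoidHom.id M) m := by
      intro g m
      have := hM _ (h1 g) m
      rw [mul_smul, inv_smul_eq_iff] at this
      simpa using this.symm
    rw [DD_cons, hfin, map_add, map_sub, dd_map e (AddMonoidHom.id M) he, map_map]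
    have e5 : (e ∘ Subtype.val : MulAction.stabilizer G s₀ → G) = Subtype.val := by
      funext x
      apply h2
      have h7 : ((x.1 * 1 : G) : G ⧸ L) = ((1 : G) : G ⧸ L) := MulAction.mem_stabilizer_iff.1 x.2
      rw [QuotientGroup.eq] at h7
      simpa using L.inv_mem h7
    rw [e5]
    have e6 : (AddMonoidHom.id M).comp (AddMonoidHom.id M) = AddMonoidHom.id M := rfl
    rw [e6]
    abel

end poly

end Pool.Agent.H752.CE
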