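import Pool.Agent.H752.CE.Group

/-!
# Induced modules and Shapiro's lemma for the elementary bar complex
-/

set_option autoImplicit false

namespace Pool.Agent.H752.CE

open Finsupp

section conj

variable {G : Type} [Group G] {M : Type} [AddCommGroup M] [DistribMulAction G M]

lemma conj_homotopic {n : ℕ} (u : G) (y : T (n + 1) G M) (hy : dd n y = 0) :
    ∃ w, map (fun x => u * x * u⁻¹) (DistribSMul.toAddMonoidHom M u) y - y = dd (n + 1) w := by
  have key := inhomog_homotopy (G := G) (M := M)
    (fun n => prism id (fun x => x * u⁻¹) n)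
    (fun n => map (fun x => x * u⁻¹) (AddMonoidHom.id M))
    (fun n => map id (AddMonoidHom.id M))
    (fun n g y => by
      unfold act
      rw [map_prism id (fun x => x * u⁻¹) id (fun x => x * u⁻¹) (fun x => g * x)
        (fun x => g * x) _ (by simp) (by simp [mul_assoc])])
    (fun n y => by rw [prism_homotopy]) y
  simp only [hy, map_zero, add_zero, map_id'] at key
  refine ⟨nor (n + 2) (prism id (fun x => x * u⁻¹) (n + 2) (cns 1 y)), ?_⟩
  rw [key]
  have e1 : nor (n + 1) (cns (1 : G) y) = y := by rw [nor_cns, inv_one, act_one]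
  rw [e1]
  congr 1
  simp only [map_cns, nor_cns, one_mul, inv_inv, act, map_map]
  congr 1
  congr 1
  funext x; simp [mul_assoc]

end conj

section induced

/-- the induced module on a set -/
def Ind (S M : Type) [AddCommGroup M] : Type := S →₀ M

noncomputable instance (S M : Type) [AddCommGroup M] : AddCommGroup (Ind S M) :=
  inferInstanceAs (AddCommGroup (S →₀ M))

variable {S M : Type} [AddCommGroup M]

noncomputable def Ind.sg (s : S) : M →+ Ind S M := Finsupp.singleAddHom s

lemma Ind.hom_ext {B : Type} [AddCommGroup B] {f g : Ind S M →+ B}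
    (h : ∀ s m, f (Ind.sg s m) = g (Ind.sg s m)) : f = g :=
  Finsupp.addHom_ext h

noncomputable def Ind.lift {B : Type} [AddCommGroup B] (f : S → (M →+ B)) : Ind S M →+ B :=
  Finsupp.liftAddHom f

@[simp] lemma Ind.lift_sg {B : Type} [AddCommGroup B] (f : S → (M →+ B)) (s : S) (m : M) :
    Ind.lift f (Ind.sg s m) = f s m :=
  Finsupp.liftAddHom_apply_single f s m

lemma Ind.induction {p : Ind S M → Prop} (f : Ind S M) (h0 : p 0)
    (hadd : ∀ f g, p f → p g → p (f + g)) (hs : ∀ s m, p (Ind.sg s m)) : p f :=
  Finsupp.induction_linear f h0 hadd hs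

lemma Ind.sg_injective (s : S) : Function.Injective (Ind.sg (M := M) s) :=
  Finsupp.single_injective s

/-- the augmentation -/
noncomputable def Ind.aug : Ind S M →+ M := Ind.lift fun _ => AddMonoidHom.id M

@[simp] lemma Ind.aug_sg (s : S) (m : M) : Ind.aug (Ind.sg s m) = m := by
  simp [Ind.aug]

variable {G : Type} [Group G] [MulAction G S] [DistribMulAction G M]

noncomputable def Ind.actHom (g : G) : Ind S M →+ Ind S M :=
  Ind.lift fun s => (Ind.sg (g • s)).comp (DistribSMul.toAddMonoidHom M g)

noncomputable instance : DistribMulAction G (Ind S M) where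
  smul g f := Ind.actHom g f
  one_smul f := by
    show Ind.actHom 1 f = f
    have : (Ind.actHom (1 : G) : Ind S M →+ Ind S M) = AddMonoidHom.id _ :=
      Ind.hom_ext fun s m => by simp [Ind.actHom]
    rw [this]; rfl
  mul_smul g h f := by
    show Ind.actHom (g * h) f = Ind.actHom g (Ind.actHom h f)
    have : (Ind.actHom (g * h) : Ind S M →+ Ind S M) = (Ind.actHom g).comp (Ind.actHom h) :=
      Ind.hom_ext fun s m => by simp [Ind.actHom, mul_smul]
    rw [this]; rfl
  smul_zero g := map_zero (Ind.actHom g)
  smul_add g f f' := map_add (Ind.actHom g) f f'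

lemma Ind.smul_def (g : G) (f : Ind S M) : g • f = Ind.actHom g f := rfl

@[simp] lemma Ind.smul_sg (g : G) (s : S) (m : M) :
    g • (Ind.sg s m : Ind S M) = Ind.sg (g • s) (g • m) := by
  simp [Ind.smul_def, Ind.actHom]

lemma Ind.aug_smul (g : G) (f : Ind S M) : Ind.aug (g • f) = g • Ind.aug f := by
  have : (Ind.aug.comp (Ind.actHom g) : Ind S M →+ M)
      = (DistribSMul.toAddMonoidHom M g).comp Ind.aug :=
    Ind.hom_ext fun s m => by simp [Ind.actHom]
  exact DFunLike.congr_fun this f

end induced

section family

variable {V W S M : Type} [AddCommGroup M]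

/-- chains with induced coefficients: a family of operators indexed by `S` -/
noncomputable def fam {n m : ℕ} (φ : S → (T n V M →+ T m W M)) :
    T n V (Ind S M) →+ T m W (Ind S M) :=
  Finsupp.liftAddHom fun x => Ind.lift fun s =>
    (map id (Ind.sg s)).comp ((φ s).comp (singleAddHom x))

lemma fam_sg {n m : ℕ} (φ : S → (T n V M →+ T m W M)) (s : S) (y : T n V M) :
    fam φ (map id (Ind.sg s) y) = map id (Ind.sg s) (φ s y) := by
  induction y using Finsupp.induction_linear with
  | zero => simp
  | add y z hy hz => simp only [map_add, hy, hz]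
  | single x m => simp [fam]

lemma fam_ext {n : ℕ} {B : Type} [AddCommGroup B] {f g : T n V (Ind S M) →+ B}
    (h : ∀ s (y : T n V M), f (map id (Ind.sg s) y) = g (map id (Ind.sg s) y)) : f = g := by
  refine Finsupp.addHom_ext' fun x => Ind.hom_ext fun s m => ?_
  have := h s (single x m)
  simpa using this

end family

section shapiro

variable {G : Type} [Group G] {S M : Type} [AddCommGroup M] [MulAction G S]
  [DistribMulAction G M]

lemma act_sg {n : ℕ} (g : G) (s : S) (y : T n G M) :
    act g (map id (Ind.sg s) y) = map id (Ind.sg (g • s)) (act g y) := by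
  unfold act
  rw [map_map, map_map]
  congr 1
  congr 1
  ext m
  simp

/-- equivariance of a family -/
lemma fam_act {n m : ℕ} (φ : S → (T n G M →+ T m G M))
    (hφ : ∀ g s y, φ (g • s) (act g y) = act g (φ s y)) (g : G) (y : T n G (Ind S M)) :
    fam φ (act g y) = act g (fam φ y) := by
  have h : (fam φ).comp (act g) = (act g).comp (fam φ) := by
    refine fam_ext fun s y => ?_
    simp only [AddMonoidHom.coe_comp, Function.comp_apply, act_sg, fam_sg, hφ]
  exact DFunLike.congr_fun h y

/-- the vertex map `v ↦ v σ(v⁻¹ s)` -/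
def vtx (σ : S → G) (s : S) (v : G) : G := v * σ (v⁻¹ • s)

lemma vtx_smul {σ : S → G} {s₀ : S} (hσ : ∀ s, σ s • s₀ = s) (s : S) (v : G) :
    vtx σ s v • s₀ = s := by
  simp [vtx, mul_smul, hσ]

lemma vtx_equiv (σ : S → G) (g : G) (s : S) (v : G) : vtx σ (g • s) (g * v) = g * vtx σ s v := by
  simp [vtx, mul_assoc, mul_smul]

lemma fam_nor_range {n : ℕ} {σ : S → G} {s₀ : S} (hσ : ∀ s, σ s • s₀ = s)
    (y : T n G (Ind S M)) :
    ∃ z : T n (MulAction.stabilizer G s₀) M,
      nor n (fam (fun s => map (vtx σ s) (AddMonoidHom.id M)) (cns 1 y))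
        = map (Subtype.val) (Ind.sg s₀) z := by
  have h : ∀ y : T n G (Ind S M),
      nor n (fam (fun s => map (vtx σ s) (AddMonoidHom.id M)) (cns 1 y)) ∈
        (map (n := n) (Subtype.val : MulAction.stabilizer G s₀ → G)
          (Ind.sg (M := M) s₀)).range := by
    intro y
    induction y using Finsupp.induction_linear with
    | zero => simp
    | add y z hy hz => simp only [map_add]; exact add_mem hy hz
    | single x f =>
      refine Ind.induction (p := fun f => nor n (fam (fun s => map (vtx σ s)
        (AddMonoidHom.id M)) (cns 1 (single x f : T n G (Ind S M)))) ∈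
        (map (n := n) (Subtype.val : MulAction.stabilizer G s₀ → G)
          (Ind.sg (M := M) s₀)).range) f ?_ ?_ ?_
      · rw [Finsupp.single_zero, map_zero, map_zero, map_zero]
        exact zero_mem _
      · intro f f' hf hf'
        beta_reduce at hf hf' ⊢
        rw [Finsupp.single_add, map_add, map_add, map_add]
        exact add_mem hf hf'
      · intro s m
        have e1 : (single x (Ind.sg s m : Ind S M) : T n G (Ind S M))
            = map id (Ind.sg s) (single x m) := by
          rw [map_single]; rfl
        have e2 : cns (1 : G) (map id (Ind.sg s) (single x m) : T n G (Ind S M))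
            = map id (Ind.sg s) (cns 1 (single x m)) := by
          rw [map_cns]; rfl
        rw [e1, e2, fam_sg]
        have hinv : ∀ v : G, (vtx σ s 1)⁻¹ * vtx σ s v ∈ MulAction.stabilizer G s₀ := by
          intro v
          rw [MulAction.mem_stabilizer_iff, mul_smul, vtx_smul hσ, inv_smul_eq_iff,
            vtx_smul hσ]
        refine ⟨single (fun i => ⟨(vtx σ s 1)⁻¹ * vtx σ s (x i), hinv (x i)⟩)
          ((vtx σ s 1)⁻¹ • m), ?_⟩
        have e3 : (vtx σ s 1)⁻¹ • s = s₀ := by
          rw [inv_smul_eq_iff, vtx_smul hσ]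
        simp only [map_cns, map_single, nor_cns, act, id, AddMonoidHom.id_apply]
        have e4 : DistribSMul.toAddMonoidHom (Ind S M) (vtx σ s 1)⁻¹ (Ind.sg s m)
            = Ind.sg s₀ ((vtx σ s 1)⁻¹ • m) := by
          show (vtx σ s 1)⁻¹ • (Ind.sg s m : Ind S M) = _
          rw [Ind.smul_sg, e3]
        rw [e4]
        rfl
  obtain ⟨z, hz⟩ := h y
  exact ⟨z, hz.symm⟩

/-- **Shapiro's lemma** (surjectivity): every cycle with coefficients in an induced module is
homologous to a cycle which comes from the stabiliser. -/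
theorem shapiro {n : ℕ} {σ : S → G} {s₀ : S} (hσ : ∀ s, σ s • s₀ = s)
    (y : T (n + 1) G (Ind S M)) (hy : dd n y = 0) :
    ∃ (z : T (n + 1) (MulAction.stabilizer G s₀) M) (w : T (n + 2) G (Ind S M)),
      dd n z = 0 ∧ y = map (Subtype.val) (Ind.sg s₀) z + dd (n + 1) w := by
  obtain ⟨z, hz⟩ := fam_nor_range (n := n + 1) hσ y
  have key := inhomog_homotopy (G := G) (M := Ind S M)
    (fun n => fam fun s => prism id (vtx σ s) n)
    (fun n => fam fun s => map (vtx σ s) (AddMonoidHom.id M))
    (fun n => AddMonoidHom.id _)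
    (fun n g y => by
      refine fam_act _ (fun g s y => ?_) g y
      unfold act
      rw [map_prism id (vtx σ s) id (vtx σ (g • s)) (fun x => g * x)
        (fun x => g * x) _ (by simp) (by simp [vtx_equiv])])
    (fun n y => by
      have h : (bd (n + 1)).comp (fam fun s => prism id (vtx σ s) (n + 1))
          + (fam fun s => prism id (vtx σ s) n).comp (bd (V := G) (M := Ind S M) n)
          = (fam fun s => map (vtx σ s) (AddMonoidHom.id M)) - AddMonoidHom.id _ := by
        refine fam_ext fun s y => ?_
        simp only [AddMonoidHom.add_apply, AddMonoidHom.coe_comp, Function.comp_apply,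
          AddMonoidHom.sub_apply, fam_sg, bd_map, AddMonoidHom.id_apply]
        rw [← map_add, prism_homotopy, map_sub, map_id']
      exact DFunLike.congr_fun h y) y
  simp only [hy, map_zero, add_zero, AddMonoidHom.id_apply, nor_cns, inv_one, act_one] at key
  rw [hz] at key
  refine ⟨z, -nor (n + 1 + 1) (fam (fun s => prism id (vtx σ s) (n + 1 + 1)) (cns 1 y)), ?_, ?_⟩
  · have hinj := map_injective (n := n) (f := (Subtype.val : MulAction.stabilizer G s₀ → G))
      (c := Ind.sg (M := M) s₀) Subtype.val_injective (Ind.sg_injective s₀)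
    apply hinj
    rw [map_zero]
    have hc : ∀ (g : MulAction.stabilizer G s₀) (m : M),
        (Ind.sg s₀ (g • m) : Ind S M) = (MulAction.stabilizer G s₀).subtype g • Ind.sg s₀ m := by
      intro g m
      have : (g : G) • s₀ = s₀ := g.2
      simp only [Subgroup.coe_subtype, Ind.smul_sg, this]
      rfl
    have e1 := dd_map (n := n) (MulAction.stabilizer G s₀).subtype (Ind.sg (M := M) (S := S) s₀) hc z
    have e2 : map Subtype.val (Ind.sg s₀) (dd n z)
        = map ((MulAction.stabilizer G s₀).subtype : MulAction.stabilizer G s₀ → G)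
          (Ind.sg s₀) (dd n z) := rfl
    rw [e2, ← e1]
    have e3 : map ((MulAction.stabilizer G s₀).subtype : MulAction.stabilizer G s₀ → G)
        (Ind.sg s₀) z = map Subtype.val (Ind.sg s₀) z := rfl
    rw [e3]
    have e4 : map Subtype.val (Ind.sg s₀) z = y + dd (n + 1)
        (nor (n + 1 + 1) (fam (fun s => prism id (vtx σ s) (n + 1 + 1)) (cns 1 y))) := by
      rw [key]; abel
    rw [e4, map_add, hy, dd_dd, add_zero]
  · rw [map_neg, key]; abel

end shapiro

end Pool.Agent.H752.CE
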