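import Pool.Agent.H752.CE.ELemma

/-!
# One step of the tower
-/

set_option autoImplicit false

namespace Pool.Agent.H752.CE

theorem E_lemma {p : ℕ} [hp : Fact p.Prime] {P X : Type} [Group P] [Finite P] [Group X] [Finite X]
    (hP : IsPGroup p P) (π : P →* X) (K : Subgroup P) (hK : ∀ w ∈ K, w ^ p = 1 → π w = 1) :
    ∃ (E : Type) (_ : Group E) (_ : Finite E) (q : E →* P) (a : K →* E) (b : π.ker →* E),
      IsPGroup p E ∧ Function.Surjective q ∧ (∀ e : E, e ^ p = 1 → π (q e) = 1) ∧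
      (∀ k, q (a k) = k) ∧ (∀ l, q (b l) = l) ∧
      ∀ (k : K) (l : π.ker), (k : P) = l → a k = b l := by
  classical
  let _ : Fintype X := Fintype.ofFinite X
  let _ : Fintype (P ⧸ K) := Fintype.ofFinite _
  let _ : MulAction P X := MulAction.compHom X π
  let s₀ : P ⧸ K := ((1 : P) : P ⧸ K)
  have hfree : ∀ g : P, g ^ p = 1 → π g ≠ 1 → ∀ s : P ⧸ K, g • s ≠ s := by
    intro g hg hne s hs
    obtain ⟨x, rfl⟩ := QuotientGroup.mk_surjective s
    have h1 : ((g * x : P) : P ⧸ K) = (x : P ⧸ K) := hs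
    rw [eq_comm, QuotientGroup.eq, ← mul_assoc] at h1
    have h2 := hK _ h1 (by
      have : x⁻¹ * g * x = x⁻¹ * g * x⁻¹⁻¹ := by rw [inv_inv]
      rw [this, conj_pow, hg]; group)
    apply hne
    rw [map_mul, map_mul, map_inv] at h2
    have : π g = π x * ((π x)⁻¹ * π g * π x) * (π x)⁻¹ := by group
    rw [this, h2]; group
  let vec : P → (X × (P ⧸ K) → ZMod p) := fun g y =>
    if y.1 = 1 then (if y.2 = g • s₀ then 1 else 0) - (if y.2 = s₀ then 1 else 0) else 0
  have hvec : ∀ g : P, (⟨vec g, g⟩ : SD p P (X × (P ⧸ K))) ∈ ESub (p := p) π s₀ := by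
    intro g
    constructor
    · intro x
      simp only [vec]
      by_cases hx : x = 1
      · simp [hx, Finset.sum_sub_distrib]
      · simp [hx]
    · intro s
      simp only [vec]
      rw [Finset.sum_ite_eq' Finset.univ (1 : X)]
      simp
  have hK' : ∀ k ∈ K, (⟨fun _ => 0, k⟩ : SD p P (X × (P ⧸ K))) ∈ ESub (p := p) π s₀ := by
    intro k hk
    constructor
    · intro x; simp
    · intro s
      have : k • s₀ = s₀ := by
        show ((k * 1 : P) : P ⧸ K) = ((1 : P) : P ⧸ K)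
        rw [QuotientGroup.eq]
        simpa using hk
      simp [this]
  refine ⟨ESub (p := p) π s₀, inferInstance, inferInstance,
    SD.proj.comp (ESub (p := p) π s₀).subtype,
    MonoidHom.mk' (fun k => ⟨⟨fun _ => 0, k⟩, hK' k.1 k.2⟩) (fun k k' => by
      apply Subtype.ext
      refine SD.ext ?_ rfl
      funext y
      show (0 : ZMod p) = 0 + 0
      rw [add_zero]),
    MonoidHom.mk' (fun l => ⟨⟨vec l, l⟩, hvec l.1⟩) (fun l l' => by
      apply Subtype.ext
      refine SD.ext ?_ rfl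
      funext y
      obtain ⟨x, s⟩ := y
      show vec (l.1 * l'.1) (x, s) = vec l.1 (x, s) + vec l'.1 (l.1⁻¹ • (x, s))
      have hl : π l.1⁻¹ = 1 := by rw [map_inv, (MonoidHom.mem_ker).1 l.2, inv_one]
      have hx : l.1⁻¹ • (x, s) = (x, l.1⁻¹ • s) := by
        refine Prod.ext ?_ rfl
        show π l.1⁻¹ * x = x
        rw [hl, one_mul]
      rw [hx]
      simp only [vec]
      have e1 : (l.1⁻¹ • s = l'.1 • s₀) ↔ (s = (l.1 * l'.1) • s₀) := by
        rw [inv_smul_eq_iff, mul_smul]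
      have e2 : (l.1⁻¹ • s = s₀) ↔ (s = l.1 • s₀) := by rw [inv_smul_eq_iff]
      simp only [e1, e2]
      by_cases hx1 : x = 1
      · simp only [hx1, if_true]; ring
      · simp [hx1]), ?_, ?_, ?_, ?_, ?_, ?_⟩
  · exact (SD.isPGroup hP).to_subgroup _
  · intro g
    exact ⟨⟨⟨vec g, g⟩, hvec g⟩, rfl⟩
  · intro e he
    exact ESub_order π s₀ hfree e.1 e.2 (congrArg Subtype.val he)
  · intro k; rfl
  · intro l; rfl
  · intro k l hkl
    apply Subtype.ext
    refine SD.ext ?_ hkl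
    funext y
    show (0 : ZMod p) = vec l.1 y
    have : l.1 • s₀ = s₀ := by
      rw [← hkl]
      show ((k.1 * 1 : P) : P ⧸ K) = ((1 : P) : P ⧸ K)
      rw [QuotientGroup.eq]
      simpa using k.2
    simp [vec, this]

/-- wreath product -/
@[ext] structure WR (P H : Type) where
  f : H → P
  h : H

section wr

variable {P H : Type} [Group P] [Group H]

instance : Mul (WR P H) := ⟨fun a b => ⟨fun x => a.f x * b.f (x * a.h), a.h * b.h⟩⟩
instance : One (WR P H) := ⟨⟨fun _ => 1, 1⟩⟩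
instance : Inv (WR P H) := ⟨fun a => ⟨fun x => (a.f (x * a.h⁻¹))⁻¹, a.h⁻¹⟩⟩

@[simp] lemma WR.mul_f (a b : WR P H) (x : H) : (a * b).f x = a.f x * b.f (x * a.h) := rfl
@[simp] lemma WR.mul_h (a b : WR P H) : (a * b).h = a.h * b.h := rfl
@[simp] lemma WR.one_f (x : H) : (1 : WR P H).f x = 1 := rfl
@[simp] lemma WR.one_h : (1 : WR P H).h = 1 := rfl
@[simp] lemma WR.inv_f (a : WR P H) (x : H) : (a⁻¹).f x = (a.f (x * a.h⁻¹))⁻¹ := rfl
@[simp] lemma WR.inv_h (a : WR P H) : (a⁻¹).h = a.h⁻¹ := rfl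

instance : Group (WR P H) :=
  Group.ofLeftAxioms
    (fun a b c => by
      ext x
      · simp [mul_assoc]
      · simp [mul_assoc])
    (fun a => by ext y <;> simp)
    (fun a => by ext y <;> simp)

instance [Finite P] [Finite H] : Finite (WR P H) :=
  Finite.of_injective (fun a : WR P H => (a.f, a.h)) (fun a b h => by
    have := Prod.mk.inj h
    exact WR.ext this.1 this.2)

lemma WR.pow_h (a : WR P H) (n : ℕ) : (a ^ n).h = a.h ^ n := by
  induction n with
  | zero => simp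
  | succ n ih => rw [pow_succ, WR.mul_h, ih, pow_succ]

lemma WR.pow_f (a : WR P H) (ha : a.h = 1) (n : ℕ) (x : H) : (a ^ n).f x = a.f x ^ n := by
  induction n with
  | zero => simp
  | succ n ih => rw [pow_succ, WR.mul_f, ih, WR.pow_h, ha, one_pow, mul_one, pow_succ]

lemma WR.isPGroup {p : ℕ} [hp : Fact p.Prime] [Finite P] (hP : IsPGroup p P) (hH : IsPGroup p H) :
    IsPGroup p (WR P H) := by
  intro a
  obtain ⟨k, hk⟩ := hH a.h
  obtain ⟨m, hm⟩ := (IsPGroup.iff_card).1 hP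
  refine ⟨k + m, ?_⟩
  rw [pow_add, pow_mul]
  have h1 : (a ^ p ^ k).h = 1 := by rw [WR.pow_h, hk]
  ext x
  · rw [WR.pow_f _ h1, ← hm, pow_card_eq_one']
    rfl
  · rw [WR.pow_h, h1, one_pow]; rfl

end wr

/-- One step of the tower. -/
theorem step {p : ℕ} [hp : Fact p.Prime] {P X : Type} [Group P] [Finite P] [Group X] [Finite X]
    (hP : IsPGroup p P) (π : P →* X) (hπ : ∀ w, w ^ p = 1 → π w = 1)
    (hsurj : Function.Surjective π) :
    ∃ (P' : Type) (_ : Group P') (_ : Finite P') (π' : P' →* X) (j : P →* P')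
      (d : π.ker →* P') (u : P'),
      IsPGroup p P' ∧ (∀ w, w ^ p = 1 → π' w = 1) ∧ Function.Surjective π' ∧
      Function.Injective j ∧ (∀ x, π' (j x) = π x) ∧ (∀ h, π' (d h) = 1) ∧ π' u = 1 ∧
      (∀ a h : π.ker, j a * d h = d h * j a) ∧ (∀ h, u * d h * u⁻¹ = j h * d h) := by
  classical
  let TT : Subgroup (WR P π.ker) :=
    { carrier := {w | ∀ x, π (w.f x) = π (w.f 1)}
      one_mem' := fun x => rfl
      mul_mem' := fun {a b} ha hb x => by
        have h1 : π (a.f x) = π (a.f 1) := ha x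
        have h2 : π (b.f (x * a.h)) = π (b.f 1) := hb _
        have h3 : π (b.f (1 * a.h)) = π (b.f 1) := hb _
        simp only [WR.mul_f, map_mul, h1, h2, h3]
      inv_mem' := fun {a} ha x => by
        have h1 : π (a.f (x * a.h⁻¹)) = π (a.f 1) := ha _
        have h2 : π (a.f (1 * a.h⁻¹)) = π (a.f 1) := ha _
        simp only [WR.inv_f, map_inv, h1, h2] }
  let πT : TT →* X := MonoidHom.mk' (fun w => π (w.1.f 1)) (fun w w' => by
    show π (w.1.f 1 * w'.1.f (1 * w.1.h)) = _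
    rw [map_mul, w'.2 (1 * w.1.h)])
  have hTT : IsPGroup p TT := (WR.isPGroup hP (hP.to_subgroup _)).to_subgroup _
  let cst : P →* TT := MonoidHom.mk' (fun g => ⟨⟨fun _ => g, 1⟩, fun _ => rfl⟩) (fun g g' => by
    apply Subtype.ext
    refine WR.ext rfl ?_
    show (1 : π.ker) = 1 * 1
    rw [one_mul])
  have hcst : Function.Injective cst := fun g g' h => by
    have := congrArg (fun w : TT => w.1.f 1) h
    exact this
  have hπcst : ∀ g, πT (cst g) = π g := fun g => rfl
  let K : Subgroup TT := cst.range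
  obtain ⟨E, _, _, q, a, b, h1, h2, h3, h4, h5, h6⟩ := E_lemma hTT πT K (by
    rintro w ⟨g, rfl⟩ hw
    rw [hπcst]
    apply hπ
    rw [← map_pow] at hw
    exact hcst (by rw [hw, map_one]))
  let dT : π.ker →* πT.ker := MonoidHom.mk' (fun h => ⟨⟨⟨fun _ => 1, h⟩, fun _ => rfl⟩, by
    rw [MonoidHom.mem_ker]
    show π 1 = 1
    exact map_one π⟩) (fun h h' => by
      apply Subtype.ext
      apply Subtype.ext
      refine WR.ext ?_ rfl
      funext x
      show (1 : P) = 1 * 1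
      rw [one_mul])
  let cK : π.ker →* πT.ker := MonoidHom.mk' (fun h => ⟨cst h, by
    rw [MonoidHom.mem_ker, hπcst]; exact h.2⟩) (fun h h' => by
      apply Subtype.ext
      exact map_mul cst h.1 h'.1)
  let uT : πT.ker := ⟨⟨⟨fun x => ((x⁻¹ : π.ker) : P), 1⟩, fun x => by
    have e1 : π ((x⁻¹ : π.ker) : P) = 1 := (MonoidHom.mem_ker).1 (x⁻¹).2
    have e2 : π (((1 : π.ker)⁻¹ : π.ker) : P) = 1 := (MonoidHom.mem_ker).1 (1⁻¹ : π.ker).2
    rw [e1, e2]⟩, by
    rw [MonoidHom.mem_ker]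
    exact (MonoidHom.mem_ker).1 (1⁻¹ : π.ker).2⟩
  let j : P →* E := a.comp cst.rangeRestrict
  have hj : ∀ h : π.ker, j h = b (cK h) := fun h => h6 _ _ rfl
  refine ⟨E, inferInstance, inferInstance, πT.comp q, j, b.comp dT, b uT, h1, h3, ?_, ?_, ?_, ?_,
    ?_, ?_, ?_⟩
  · intro x
    obtain ⟨g, hg⟩ := hsurj x
    exact ⟨j g, by
      show πT (q (a _)) = x
      rw [h4]
      exact hg⟩
  · intro g g' hgg
    have e1 : q (j g) = cst g := h4 _
    have e2 : q (j g') = cst g' := h4 _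
    exact hcst (by rw [← e1, ← e2, hgg])
  · intro g
    show πT (q (a _)) = π g
    rw [h4]
    rfl
  · intro h
    show πT (q (b _)) = 1
    rw [h5]
    exact (MonoidHom.mem_ker).1 (dT h).2
  · show πT (q (b _)) = 1
    rw [h5]
    exact (MonoidHom.mem_ker).1 uT.2
  · intro x h
    rw [hj]
    show b _ * b _ = b _ * b _
    rw [← map_mul, ← map_mul]
    congr 1
    apply Subtype.ext
    apply Subtype.ext
    refine WR.ext ?_ ?_
    · funext y
      show (x : P) * 1 = 1 * x
      rw [mul_one, one_mul]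
    · show (1 : π.ker) * h = h * 1
      rw [mul_one, one_mul]
  · intro h
    rw [hj]
    show b _ * b _ * (b _)⁻¹ = b _ * b _
    rw [← map_mul, ← map_inv, ← map_mul, ← map_mul]
    congr 1
    apply Subtype.ext
    apply Subtype.ext
    refine WR.ext ?_ ?_
    · funext y
      show ((y⁻¹ : π.ker) : P) * 1 * ((((y * (1 * h)) * (1 : π.ker)⁻¹)⁻¹ : π.ker) : P)⁻¹ = h * 1
      simp
    · show (1 : π.ker) * h * 1⁻¹ = 1 * h
      simp

end Pool.Agent.H752.CE
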